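import Pool.Agent.PQR.Defs
import Pool.Agent.PQ.FQx

set_option autoImplicit false

/-!
PQR-Interp. Interpolation with closed coefficients, in polynomial time.

Plan (nodes `2^v`, no recursion in the algorithm). `nd l = 2 ^ l.length` (`FQ.powU (FQ.const 2)`). Put
`G n k = ∏ i ∈ range k, (2^(n-i) - 1) / (2^(i+1) - 1)` (rational; zero for `k > n`). q-binomial theorem for `q = 2`:
`∏ u ∈ range n, (y - 2^u) = ∑ k ∈ range (n+1), (-1)^(n-k) 2^((n-k)(n-k-1)/2) G n k y^k` (induction on `n` with
`G (n+1) (k+1) = G n k + 2^(k+1) G n (k+1)` or the dual recursion). With `n = D + 1` and `A_j` the coefficients, the quotient by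
`y - 2^v` has the coefficients `b_(v,e) = ∑ j, e < j ≤ n, A_j 2^(v (j-1-e))`, and
`W (D, e, v) = b_(v,e) / ∏ u ≠ v, u ≤ D, (2^v - 2^u)`: the coefficients of the Lagrange polynomials. The identity says that
the polynomial `y^m` (degree at most `D`) is its own interpolation (`Lagrange` of Mathlib, or: a polynomial of degree at most `D`
with the `D + 1` roots `2^v` is zero). Everything is `FQ` by `FQ.listProd`, `FQ.listSum` over `List.range`
(`FP.range` takes a list, i.e. a unary number), `FQ.powU`, `FQ.inv`, `FQ.ite`; exponents which are natural numbers below the length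
of a unary number: make them unary, or use products `∏ over List.range`.
Alternative: nodes `v`, signed Stirling numbers by a loop. The choice of `nd` and `W` is free.
-/

namespace Pool.Agent.PQR

open MvPolynomial N487b59b3 N68a2faeb Pool.Agent.Helper22 Pool.Agent.Helper6.WB
  Pool.Agent.Helper6.SP Pool.Agent.PQ

/-! ### The q-binomial coefficients -/

private noncomputable def itE (n j : ℕ) : ℚ :=
  ∏ i ∈ Finset.range j, (-(2 : ℚ) ^ i) * ((2 : ℚ) ^ (n - i) - 1) * ((2 : ℚ) ^ (i + 1) - 1)⁻¹

private theorem it_den (j : ℕ) : ((2 : ℚ) ^ (j + 1) - 1) ≠ 0 := by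
  have h1 : (1 : ℚ) ≤ 2 ^ j := one_le_pow₀ (by norm_num)
  have h2 : (2 : ℚ) ^ (j + 1) = 2 * 2 ^ j := by ring
  have : (0 : ℚ) < 2 ^ (j + 1) - 1 := by linarith
  exact this.ne'

private theorem itE_zero (n : ℕ) : itE n 0 = 1 := by simp [itE]

private theorem itE_succ (n j : ℕ) : itE n (j + 1) =
    itE n j * ((-(2 : ℚ) ^ j) * ((2 : ℚ) ^ (n - j) - 1) * ((2 : ℚ) ^ (j + 1) - 1)⁻¹) := by
  unfold itE
  rw [Finset.prod_range_succ]

private theorem itE_up (n j : ℕ) : itE (n + 1) (j + 1) =
    itE n j * ((-(2 : ℚ) ^ j) * ((2 : ℚ) ^ (n + 1) - 1) * ((2 : ℚ) ^ (j + 1) - 1)⁻¹) := by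
  induction j with
  | zero =>
    rw [itE_succ, itE_zero, itE_zero]
    simp
  | succ j ih =>
    rw [itE_succ (n + 1) (j + 1), ih, itE_succ n j, Nat.add_sub_add_right]
    ring

private theorem itE_big {n j : ℕ} (h : n < j) : itE n j = 0 := by
  unfold itE
  refine Finset.prod_eq_zero (Finset.mem_range.2 h) ?_
  simp

private theorem itE_rec (n j : ℕ) :
    itE (n + 1) (j + 1) = itE n (j + 1) - 2 ^ n * itE n j := by
  rcases Nat.lt_or_ge n j with h | h
  · rw [itE_big h, itE_big (by omega : n + 1 < j + 1), itE_big (by omega : n < j + 1)]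
    ring
  · rw [itE_up, itE_succ]
    have h1 := it_den j
    obtain ⟨m, rfl⟩ : ∃ m, n = j + m := ⟨n - j, by omega⟩
    rw [Nat.add_sub_cancel_left]
    field_simp
    ring

open Polynomial in
private theorem it_prod (n : ℕ) :
    (∏ u ∈ Finset.range n, ((Polynomial.X : ℚ[X]) - Polynomial.C ((2 : ℚ) ^ u))) =
      ∑ j ∈ Finset.range (n + 1), Polynomial.C (itE n j) * Polynomial.X ^ (n - j) := by
  induction n with
  | zero => simp [itE_zero]
  | succ n ih =>
    rw [Finset.prod_range_succ, ih, Finset.sum_range_succ' _ (n + 1), itE_zero]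
    have e1 : ∀ j, Polynomial.C (itE (n + 1) (j + 1)) * (Polynomial.X : ℚ[X]) ^ (n + 1 - (j + 1)) =
        Polynomial.C (itE n (j + 1)) * Polynomial.X ^ (n - j) -
          Polynomial.C ((2 : ℚ) ^ n) * (Polynomial.C (itE n j) * Polynomial.X ^ (n - j)) := by
      intro j
      rw [itE_rec, Nat.add_sub_add_right, Polynomial.C_sub, Polynomial.C_mul]
      ring
    simp only [e1]
    rw [Finset.sum_sub_distrib, ← Finset.mul_sum]
    have e2 : (∑ j ∈ Finset.range (n + 1), Polynomial.C (itE n j) *
        (Polynomial.X : ℚ[X]) ^ (n - j)) * Polynomial.X =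
        ∑ j ∈ Finset.range (n + 1), Polynomial.C (itE n (j + 1)) * Polynomial.X ^ (n - j) +
          Polynomial.X ^ (n + 1) := by
      rw [Finset.sum_mul, Finset.sum_range_succ (fun j => Polynomial.C (itE n (j + 1)) *
        (Polynomial.X : ℚ[X]) ^ (n - j)) n, itE_big (Nat.lt_succ_self n),
        Polynomial.C_0, zero_mul, add_zero]
      have e3 : ∑ j ∈ Finset.range (n + 1), Polynomial.C (itE n j) *
          (Polynomial.X : ℚ[X]) ^ (n - j) * Polynomial.X =
          ∑ j ∈ Finset.range (n + 1), Polynomial.C (itE n j) * Polynomial.X ^ (n + 1 - j) := by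
        refine Finset.sum_congr rfl fun j hj => ?_
        have hj' := Finset.mem_range.1 hj
        have : n + 1 - j = n - j + 1 := by omega
        rw [this, pow_succ, mul_assoc]
      rw [e3, Finset.sum_range_succ' _ n, itE_zero, Polynomial.C_1, one_mul, Nat.sub_zero]
      congr 1
      refine Finset.sum_congr rfl fun j _ => ?_
      rw [Nat.add_sub_add_right]
    rw [mul_sub, e2, Polynomial.C_1, one_mul, Nat.sub_zero, mul_comm _ (Polynomial.C ((2 : ℚ) ^ n))]
    ring

/-! ### Synthetic division -/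

private noncomputable def itq (c : ℕ → ℚ) (a : ℚ) (t : ℕ) : ℚ :=
  ∑ j ∈ Finset.range (t + 1), c j * a ^ (t - j)

private theorem itq_succ (c : ℕ → ℚ) (a : ℚ) (t : ℕ) :
    itq c a (t + 1) = a * itq c a t + c (t + 1) := by
  unfold itq
  rw [Finset.sum_range_succ _ (t + 1), Nat.sub_self, pow_zero, mul_one, Finset.mul_sum]
  congr 1
  refine Finset.sum_congr rfl fun j hj => ?_
  have hj' := Finset.mem_range.1 hj
  have : t + 1 - j = t - j + 1 := by omega
  rw [this, pow_succ]
  ring

open Polynomial in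
private theorem it_horner (c : ℕ → ℚ) (a : ℚ) (N : ℕ) :
    ((Polynomial.X : ℚ[X]) - Polynomial.C a) *
      ∑ t ∈ Finset.range N, Polynomial.C (itq c a t) * Polynomial.X ^ (N - 1 - t) =
      ∑ t ∈ Finset.range (N + 1), Polynomial.C (c t) * Polynomial.X ^ (N - t) -
        Polynomial.C (itq c a N) := by
  induction N with
  | zero => simp [itq]
  | succ N ih =>
    have e1 : ∀ (f : ℕ → ℚ) (M : ℕ), ∑ t ∈ Finset.range (M + 1),
        Polynomial.C (f t) * (Polynomial.X : ℚ[X]) ^ (M - t) =
        Polynomial.X * (∑ t ∈ Finset.range M, Polynomial.C (f t) * Polynomial.X ^ (M - 1 - t)) +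
          Polynomial.C (f M) := by
      intro f M
      rw [Finset.sum_range_succ, Nat.sub_self, pow_zero, mul_one, Finset.mul_sum]
      congr 1
      refine Finset.sum_congr rfl fun t ht => ?_
      have ht' := Finset.mem_range.1 ht
      have : M - t = M - 1 - t + 1 := by omega
      rw [this, pow_succ]
      ring
    have e2 := e1 (itq c a) N
    have e3 := e1 c (N + 1)
    rw [Nat.add_sub_cancel] at e3 ⊢
    rw [e2, e3, itq_succ, Polynomial.C_add, Polynomial.C_mul]
    linear_combination Polynomial.X * ih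

private theorem it_eval (c : ℕ → ℚ) (a : ℚ) (N : ℕ) :
    Polynomial.eval a (∑ t ∈ Finset.range (N + 1), Polynomial.C (c t) *
      (Polynomial.X : Polynomial ℚ) ^ (N - t)) = itq c a N := by
  rw [Polynomial.eval_finsetSum]
  unfold itq
  refine Finset.sum_congr rfl fun t _ => ?_
  simp

private theorem it_cancel {n v : ℕ} (hv : v < n) :
    ∑ t ∈ Finset.range n, Polynomial.C (itq (itE n) (2 ^ v) t) *
        (Polynomial.X : Polynomial ℚ) ^ (n - 1 - t) =
      ∏ u ∈ (Finset.range n).erase v, ((Polynomial.X : Polynomial ℚ) -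
        Polynomial.C ((2 : ℚ) ^ u)) := by
  have h1 := it_horner (itE n) (2 ^ v) n
  have h2 := it_prod n
  have h3 : itq (itE n) (2 ^ v) n = 0 := by
    rw [← it_eval, ← h2, Polynomial.eval_prod]
    refine Finset.prod_eq_zero (Finset.mem_range.2 hv) ?_
    simp
  rw [h3, Polynomial.C_0, sub_zero, ← h2,
    ← Finset.mul_prod_erase _ _ (Finset.mem_range.2 hv)] at h1
  exact mul_left_cancel₀ (Polynomial.X_sub_C_ne_zero _) h1

/-- the weights -/
private noncomputable def itw (D e v : ℕ) : ℚ :=
  itq (itE (D + 1)) (2 ^ v) (D - e) *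
    (∏ u ∈ Finset.range (D + 1), if u = v then 1 else ((2 : ℚ) ^ v - 2 ^ u))⁻¹

private theorem it_den2 {n v : ℕ} (hv : v < n) :
    ∏ u ∈ Finset.range n, (if u = v then 1 else ((2 : ℚ) ^ v - 2 ^ u)) =
      ∏ u ∈ (Finset.range n).erase v, ((2 : ℚ) ^ v - 2 ^ u) := by
  rw [← Finset.mul_prod_erase _ _ (Finset.mem_range.2 hv), if_pos rfl, one_mul]
  refine Finset.prod_congr rfl fun u hu => ?_
  rw [if_neg (Finset.ne_of_mem_erase hu)]

private theorem it_dual {D u v : ℕ} (hu : u < D + 1) (hv : v < D + 1) :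
    ∑ e ∈ Finset.range (D + 1), ((2 : ℚ) ^ u) ^ e * itw D e v = if u = v then 1 else 0 := by
  have h1 := congrArg (Polynomial.eval ((2 : ℚ) ^ u)) (it_cancel hv)
  rw [Polynomial.eval_finsetSum, Polynomial.eval_prod] at h1
  simp only [Polynomial.eval_mul, Polynomial.eval_C, Polynomial.eval_pow, Polynomial.eval_X,
    Polynomial.eval_sub] at h1
  rw [← Finset.sum_range_reflect] at h1
  have h2 : ∑ e ∈ Finset.range (D + 1), ((2 : ℚ) ^ u) ^ e * itw D e v =
      (∏ w ∈ (Finset.range (D + 1)).erase v, ((2 : ℚ) ^ u - 2 ^ w)) *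
        (∏ w ∈ (Finset.range (D + 1)).erase v, ((2 : ℚ) ^ v - 2 ^ w))⁻¹ := by
    rw [← h1, Finset.sum_mul]
    refine Finset.sum_congr rfl fun e he => ?_
    have he' := Finset.mem_range.1 he
    unfold itw
    rw [it_den2 hv]
    have e1 : D + 1 - 1 - e = D - e := by omega
    have e2 : D + 1 - 1 - (D + 1 - 1 - e) = e := by omega
    rw [e2, e1]
    ring
  rw [h2]
  have hne : (∏ w ∈ (Finset.range (D + 1)).erase v, ((2 : ℚ) ^ v - 2 ^ w)) ≠ 0 := by
    rw [Finset.prod_ne_zero_iff]
    intro w hw h0
    apply Finset.ne_of_mem_erase hw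
    have h3 : (2 : ℚ) ^ v = 2 ^ w := sub_eq_zero.1 h0
    exact (pow_right_injective₀ (by norm_num) (by norm_num) h3).symm
  split_ifs with h
  · subst h
    exact mul_inv_cancel₀ hne
  · rw [Finset.prod_eq_zero (i := u) (Finset.mem_erase.2 ⟨h, Finset.mem_range.2 hu⟩)
      (sub_self _), zero_mul]

private theorem it_main (D e m : ℕ) (he : e ≤ D) (hm : m ≤ D) :
    ∑ v ∈ Finset.range (D + 1), itw D e v * ((2 : ℚ) ^ v) ^ m = if e = m then 1 else 0 := by
  set A : Matrix (Fin (D + 1)) (Fin (D + 1)) ℚ := Matrix.of fun u e => ((2 : ℚ) ^ (u : ℕ)) ^ (e : ℕ)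
    with hA
  set W : Matrix (Fin (D + 1)) (Fin (D + 1)) ℚ := Matrix.of fun e v => itw D e v with hW
  have h1 : A * W = 1 := by
    ext u v
    rw [Matrix.mul_apply, Matrix.one_apply]
    have h2 := it_dual (D := D) u.2 v.2
    rw [Finset.sum_range (fun e => ((2 : ℚ) ^ (u : ℕ)) ^ e * itw D e v)] at h2
    simp only [hA, hW, Matrix.of_apply]
    rw [h2]
    by_cases h : u = v
    · rw [if_pos h, if_pos (by rw [h])]
    · rw [if_neg h, if_neg (fun h' => h (Fin.ext h'))]
  have h3 : W * A = 1 := mul_eq_one_comm.1 h1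
  have h4 := congrFun (congrFun h3 ⟨e, by omega⟩) ⟨m, by omega⟩
  rw [Matrix.mul_apply, Matrix.one_apply] at h4
  rw [Finset.sum_range (fun v => itw D e v * ((2 : ℚ) ^ v) ^ m)]
  simp only [hA, hW, Matrix.of_apply] at h4
  rw [h4]
  by_cases h : e = m
  · rw [if_pos h, if_pos (Fin.ext h)]
  · rw [if_neg h, if_neg (fun h' => h (congrArg Fin.val h'))]

/-! ### Polynomial time -/

private theorem un_len (n : ℕ) : (un n).length = n := by
  unfold un
  simp

/-- the unary number `min i n.length` -/
private def unn (i : ℕ) (n : Un) : Un :=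
  (List.range n.length).flatMap fun x => if decide (x + 1 ≤ i) then [true] else []

private theorem unn_length (i : ℕ) (n : Un) : (unn i n).length = min n.length i := by
  unfold unn
  generalize n.length = m
  induction m with
  | zero => simp
  | succ m ih =>
    rw [List.range_succ, List.flatMap_append, List.length_append, ih, List.flatMap_cons,
      List.flatMap_nil, List.append_nil]
    by_cases h : m + 1 ≤ i
    · rw [if_pos (decide_eq_true h)]
      simp only [List.length_cons, List.length_nil]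
      omega
    · rw [if_neg (by simpa using h)]
      simp only [List.length_nil]
      omega

private theorem fp_unn {α : Type} [N487b59b3 α] {f : α → ℕ} {g : α → Un} (hf : FP f)
    (hg : FP g) : FP fun a => unn (f a) (g a) := by
  have h1 : FP fun q : α × ℕ => if decide (q.2 + 1 ≤ f q.1) then [true] else [] :=
    FP.ite (Pool.Agent.Helper47.TR.FP.natLe (FP.natAdd FP.snd (FP.const 1)) (hf.comp FP.fst))
      (FP.const [true]) (FP.const [])
  exact fp_flatMap (f := fun a => List.range (g a).length) (FP.range hg) h1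

private theorem fq_two {α : Type} [N487b59b3 α] {f : α → ℕ} {g : α → Un} (hf : FP f)
    (hg : FP g) : FQ fun a => (2 : ℚ) ^ (unn (f a) (g a)).length :=
  FQ.powU (FQ.const 2) (fp_unn hf hg)

private theorem fp_len {α : Type} [N487b59b3 α] {g : α → Un} (hg : FP g) :
    FP fun a => (g a).length := Pool.Agent.Helper47.TR.FP.length hg

/-- the q-binomial factor in polynomial time -/
private theorem fq_E : FQ fun p : Un × ℕ => ((List.range (unn p.2 p.1).length).map fun i =>
    (-(2 : ℚ) ^ (unn i p.1).length) * ((2 : ℚ) ^ (unn (p.1.length - i) p.1).length - 1) *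
      ((2 : ℚ) ^ (unn (i + 1) p.1).length - 1)⁻¹).prod := by
  have h0 : FQ fun q : Un × ℕ =>
      (-(2 : ℚ) ^ (unn q.2 q.1).length) * ((2 : ℚ) ^ (unn (q.1.length - q.2) q.1).length - 1) *
      ((2 : ℚ) ^ (unn (q.2 + 1) q.1).length - 1)⁻¹ := by
    have a1 : FQ fun q : Un × ℕ => (2 : ℚ) ^ (unn q.2 q.1).length := fq_two FP.snd FP.fst
    have a2 : FQ fun q : Un × ℕ => (2 : ℚ) ^ (unn (q.1.length - q.2) q.1).length :=
      fq_two (fp_natSub (fp_len FP.fst) FP.snd) FP.fst
    have a3 : FQ fun q : Un × ℕ => (2 : ℚ) ^ (unn (q.2 + 1) q.1).length :=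
      fq_two (FP.natAdd FP.snd (FP.const 1)) FP.fst
    have a4 : FQ fun q : Un × ℕ => (-(2 : ℚ) ^ (unn q.2 q.1).length) :=
      ((FQ.const (-1)).mul a1).congr fun a => by ring
    exact (a4.mul (a2.sub (FQ.const 1))).mul (FQ.inv (a3.sub (FQ.const 1)))
  have h1 := FQ.listProd h0
  have h2 : FP fun p : Un × ℕ => (p.1, List.range (unn p.2 p.1).length) :=
    FP.fst.pair (FP.range (fp_unn FP.snd FP.fst))
  exact (h1.comp h2).congr fun a => rfl

private theorem prod_list (f : ℕ → ℚ) (n : ℕ) :
    ((List.range n).map f).prod = ∏ i ∈ Finset.range n, f i := by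
  rw [Finset.prod_range]
  induction n with
  | zero => simp
  | succ n ih =>
    rw [List.range_succ, List.map_append, List.prod_append, ih, Fin.prod_univ_castSucc]
    simp

private theorem sum_list (f : ℕ → ℚ) (n : ℕ) :
    ((List.range n).map f).sum = ∑ i ∈ Finset.range n, f i := by
  rw [Finset.sum_range]
  induction n with
  | zero => simp
  | succ n ih =>
    rw [List.range_succ, List.map_append, List.sum_append, ih, Fin.sum_univ_castSucc]
    simp

private theorem E_val {n : Un} {j : ℕ} (hj : j ≤ n.length) :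
    ((List.range (unn j n).length).map fun i =>
    (-(2 : ℚ) ^ (unn i n).length) * ((2 : ℚ) ^ (unn (n.length - i) n).length - 1) *
      ((2 : ℚ) ^ (unn (i + 1) n).length - 1)⁻¹).prod = itE n.length j := by
  rw [prod_list, unn_length, min_eq_right hj]
  unfold itE
  refine Finset.prod_congr rfl fun i hi => ?_
  have hi' := Finset.mem_range.1 hi
  rw [unn_length, unn_length, unn_length, min_eq_right (by omega : i ≤ n.length),
    min_eq_right (by omega : n.length - i ≤ n.length),
    min_eq_right (by omega : i + 1 ≤ n.length)]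

/-- the weights in polynomial time -/
private noncomputable def itW (p : Un × (Un × Un)) : ℚ :=
  ((List.range (true :: p.1.drop p.2.1.length).length).map fun j =>
    ((List.range (unn j (true :: p.1)).length).map fun i =>
      (-(2 : ℚ) ^ (unn i (true :: p.1)).length) *
        ((2 : ℚ) ^ (unn ((true :: p.1).length - i) (true :: p.1)).length - 1) *
        ((2 : ℚ) ^ (unn (i + 1) (true :: p.1)).length - 1)⁻¹).prod *
      ((2 : ℚ) ^ p.2.2.length) ^ (unn ((p.1.drop p.2.1.length).length - j) (true :: p.1)).length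
      ).sum *
    ((List.range (true :: p.1).length).map fun u =>
      if decide (u = p.2.2.length) then (1 : ℚ) else
        ((2 : ℚ) ^ p.2.2.length - 2 ^ (unn u (true :: p.1)).length)).prod⁻¹

private theorem fq_itW : FQ itW := by
  have b0 : FP fun p : Un × (Un × Un) => true :: p.1 := FP.cons (FP.const true) FP.fst
  have b1 : FP fun p : Un × (Un × Un) => p.1.drop p.2.1.length :=
    FP.drop FP.fst (FP.fst.comp FP.snd)
  have b2 : FQ fun p : Un × (Un × Un) => (2 : ℚ) ^ p.2.2.length :=
    FQ.powU (FQ.const 2) (FP.snd.comp FP.snd)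
  have c0 : FP fun q : (Un × (Un × Un)) × ℕ => true :: q.1.1 := b0.comp FP.fst
  have s1 : FQ fun q : (Un × (Un × Un)) × ℕ =>
      ((List.range (unn q.2 (true :: q.1.1)).length).map fun i =>
      (-(2 : ℚ) ^ (unn i (true :: q.1.1)).length) *
        ((2 : ℚ) ^ (unn ((true :: q.1.1).length - i) (true :: q.1.1)).length - 1) *
        ((2 : ℚ) ^ (unn (i + 1) (true :: q.1.1)).length - 1)⁻¹).prod :=
    fq_E.comp (g := fun q : (Un × (Un × Un)) × ℕ => (true :: q.1.1, q.2)) (c0.pair FP.snd)
  have s2 : FQ fun q : (Un × (Un × Un)) × ℕ =>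
      ((2 : ℚ) ^ q.1.2.2.length) ^
        (unn ((q.1.1.drop q.1.2.1.length).length - q.2) (true :: q.1.1)).length :=
    FQ.powU (b2.comp FP.fst) (fp_unn (fp_natSub (fp_len (b1.comp FP.fst)) FP.snd) c0)
  have s3 := FQ.listSum (s1.mul s2)
  have s4 := s3.comp (g := fun p : Un × (Un × Un) =>
    (p, List.range (true :: p.1.drop p.2.1.length).length))
    (FP.id.pair (FP.range (FP.cons (FP.const true) b1)))
  have t1 : FQ fun q : (Un × (Un × Un)) × ℕ =>
      if decide (q.2 = q.1.2.2.length) then (1 : ℚ) else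
        ((2 : ℚ) ^ q.1.2.2.length - 2 ^ (unn q.2 (true :: q.1.1)).length) :=
    FQ.ite (FP.natEq FP.snd (fp_len (FP.snd.comp (FP.snd.comp FP.fst)))) (FQ.const 1)
      ((b2.comp FP.fst).sub (fq_two FP.snd c0))
  have t2 := (FQ.listProd t1).comp (g := fun p : Un × (Un × Un) =>
    (p, List.range (true :: p.1).length)) (FP.id.pair (FP.range b0))
  exact s4.mul (FQ.inv t2)

private theorem itW_val (D : Un) {e v : ℕ} (he : e ≤ D.length) (hv : v ≤ D.length) :
    itW (D, (un e, un v)) = itw D.length e v := by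
  unfold itW itw itq
  simp only [un_len, List.length_drop, List.length_cons]
  rw [sum_list, prod_list]
  congr 1
  · refine Finset.sum_congr rfl fun j hj => ?_
    have hj' := Finset.mem_range.1 hj
    have h1 := E_val (n := true :: D) (j := j) (by rw [List.length_cons]; omega)
    simp only [List.length_cons] at h1
    rw [h1, unn_length, List.length_cons, min_eq_right (by omega)]
  · congr 1
    refine Finset.prod_congr rfl fun u hu => ?_
    have hu' := Finset.mem_range.1 hu
    rw [unn_length, List.length_cons, min_eq_right (by omega)]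
    simp only [decide_eq_true_eq]

theorem exists_interp : ∃ (nd : Un → ℚ) (W : Un × (Un × Un) → ℚ), FQ nd ∧ FQ W ∧
    ∀ (D : Un) (e m : ℕ), e ≤ D.length → m ≤ D.length →
      ∑ v ∈ Finset.range (D.length + 1), W (D, (un e, un v)) * nd (un v) ^ m =
        if e = m then 1 else 0 := by
  refine ⟨fun l => 2 ^ l.length, itW, FQ.powU (FQ.const 2) FP.id, fq_itW, ?_⟩
  intro D e m he hm
  rw [← it_main D.length e m he hm]
  refine Finset.sum_congr rfl fun v hv => ?_
  have hv' := Finset.mem_range.1 hv
  rw [itW_val D he (by omega)]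
  show _ * ((2 : ℚ) ^ (un v).length) ^ m = _
  rw [un_len]

/-- the nodes -/
noncomputable def nd : Un → ℚ := exists_interp.choose

theorem fq_nd : FQ nd := exists_interp.choose_spec.choose_spec.1

theorem exists_weights : ∃ W : Un × (Un × Un) → ℚ, FQ W ∧
    ∀ (D : Un) (e m : ℕ), e ≤ D.length → m ≤ D.length →
      ∑ v ∈ Finset.range (D.length + 1), W (D, (un e, un v)) * nd (un v) ^ m =
        if e = m then 1 else 0 :=
  ⟨exists_interp.choose_spec.choose, exists_interp.choose_spec.choose_spec.2⟩

/-- the points of the grid -/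
noncomputable def ndp (l : List Un) (i : ℕ) : ℚ := if i < l.length then nd (l.getD i []) else 0

end Pool.Agent.PQR
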