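import Pool.Agent.PQR.CompA

set_option autoImplicit false

/-!
PQR-DegC. Degrees and variables of composites and of the Jacobian minors.

A composite has at most twice the degree of its first word; the Jacobian minors are expanded with
`Matrix.det_apply`.
-/

namespace Pool.Agent.PQR

open MvPolynomial N487b59b3 N68a2faeb Pool.Agent.Helper22 Pool.Agent.Helper6.WB
  Pool.Agent.Helper6.SP Pool.Agent.PQ

/-- size of a pair -/
def cntC (p : Qr) : ℕ := ((p.1 ++ p.2).map fun c => c.1.length).sum

/-- all words which are substituted -/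
def namC (p : Qr) : List Wd := (p.1 ++ p.2).flatMap fun c => c.2

private theorem degc_aeval (f : ℕ → MvPolynomial ℕ ℚ) (hf : ∀ i, (f i).totalDegree ≤ 2)
    (P : MvPolynomial ℕ ℚ) : (aeval f P).totalDegree ≤ 2 * P.totalDegree := by
  classical
  rw [aeval_def, eval₂_eq]
  apply totalDegree_finsetSum_le
  intro d hd
  have h1 : (algebraMap ℚ (MvPolynomial ℕ ℚ) (coeff d P)).totalDegree = 0 := by
    rw [algebraMap_eq, totalDegree_C]
  have h2 : (∏ i ∈ d.support, f i ^ d i).totalDegree ≤ ∑ i ∈ d.support, d i * 2 := by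
    refine (totalDegree_finsetProd _ _).trans (Finset.sum_le_sum fun i _ => ?_)
    exact (totalDegree_pow _ _).trans (Nat.mul_le_mul_left _ (hf i))
  have h3 : ∑ i ∈ d.support, d i * 2 ≤ 2 * P.totalDegree := by
    rw [← Finset.sum_mul, mul_comm]
    exact Nat.mul_le_mul_left _ (le_totalDegree hd)
  refine (totalDegree_mul _ _).trans ?_
  rw [h1, zero_add]
  exact h2.trans h3

private theorem degc_mem (l : List Wd) (i : ℕ) : l.getD i w0 ∈ l ∨ l.getD i w0 = w0 := by
  rcases lt_or_ge i l.length with h | h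
  · left
    rw [List.getD_eq_getElem _ _ h]
    exact List.getElem_mem h
  · right
    exact List.getD_eq_default _ _ h

private theorem degc_prod (l : List Cm) {r : ℕ} (h : ∀ c ∈ l, Ok2 r c)
    (hd : ∀ c ∈ l, (cw c).totalDegree ≤ 2 * c.1.length) :
    ((l.map cw).prod).totalDegree ≤ 2 * (l.map fun c => c.1.length).sum := by
  induction l with
  | nil => simp
  | cons a l ih =>
    rw [List.map_cons, List.prod_cons, List.map_cons, List.sum_cons]
    have h1 := totalDegree_mul (cw a) (l.map cw).prod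
    have h2 := hd a (by simp)
    have h3 := ih (fun w hw => h w (by simp [hw])) (fun w hw => hd w (by simp [hw]))
    omega

private theorem degc_sum (l : List Cm) {r : ℕ} (h : ∀ c ∈ l, Ok2 r c)
    (hd : ∀ c ∈ l, (cw c).totalDegree ≤ 2 * c.1.length) :
    (SC l).totalDegree ≤ 2 * (l.map fun c => c.1.length).sum := by
  unfold SC
  induction l with
  | nil => simp
  | cons a l ih =>
    rw [List.map_cons, List.sum_cons, List.map_cons, List.sum_cons]
    have h1 := totalDegree_add (cw a) (l.map cw).sum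
    have h2 := hd a (by simp)
    have h3 := ih (fun w hw => h w (by simp [hw])) (fun w hw => hd w (by simp [hw]))
    refine h1.trans (max_le ?_ ?_) <;> omega

theorem totalDegree_cw {r : ℕ} {c : Cm} (h : Ok2 r c) : (cw c).totalDegree ≤ 2 * c.1.length := by
  have h1 := degc_aeval (cq c) (fun i => (lo_getD h i).2) (pw c.1)
  exact h1.trans (Nat.mul_le_mul_left _ (degree_pw c.1 h.1))

theorem totalDegree_FC {r : ℕ} (p : Qr) (h : GoodC r p) : (FC p).totalDegree ≤ 2 * cntC p := by
  unfold FC cntC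
  have h1 := totalDegree_mul ((p.1.map cw).prod) (SC p.2)
  have h2 := degc_prod p.1 h.1 fun c hc => totalDegree_cw (h.1 c hc)
  have h3 := degc_sum p.2 h.2 fun c hc => totalDegree_cw (h.2 c hc)
  rw [List.map_append, List.sum_append]
  omega

private theorem degc_pderiv (i : ℕ) (P : MvPolynomial ℕ ℚ) :
    (pderiv i P).totalDegree ≤ P.totalDegree := by
  classical
  rw [MvPolynomial.totalDegree]
  apply Finset.sup_le
  intro m hm
  rw [mem_support_iff, coeff_pderiv] at hm
  have h1 : coeff (m + Finsupp.single i 1) P ≠ 0 := left_ne_zero_of_mul hm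
  have h2 := le_totalDegree (mem_support_iff.mpr h1)
  rw [Finsupp.sum_add_index' (fun _ => rfl) (fun _ _ _ => rfl), Finsupp.sum_single_index rfl]
    at h2
  omega

private theorem degc_det {m : ℕ} (M : Matrix (Fin m) (Fin m) (MvPolynomial ℕ ℚ)) (d : Fin m → ℕ)
    (h : ∀ i j, (M i j).totalDegree ≤ d i) : M.det.totalDegree ≤ ∑ i, d i := by
  rw [Matrix.det_apply]
  apply totalDegree_finsetSum_le
  intro s _
  have h1 : (∏ i, M (s i) i).totalDegree ≤ ∑ i, d i := by
    refine (totalDegree_finsetProd _ _).trans ?_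
    rw [← Equiv.sum_comp s d]
    exact Finset.sum_le_sum fun i _ => h _ _
  rcases Int.units_eq_one_or (Equiv.Perm.sign s) with h2 | h2
  · rw [h2, one_smul]
    exact h1
  · rw [h2]
    have h3 : ((-1 : ℤˣ) • ∏ i, M (s i) i) = -∏ i, M (s i) i := by
      rw [Units.smul_def]
      simp
    rw [h3, totalDegree_neg]
    exact h1

private theorem degc_FC_default : FC ([], []) = 0 := by
  simp [FC, SC]

private theorem degc_sumGetD (f : Qr → ℕ) (hf : f ([], []) = 0) (I : List Qr) (m : ℕ) :
    ∑ i : Fin m, f (I.getD i ([], [])) ≤ (I.map f).sum := by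
  rw [Fin.sum_univ_eq_sum_range (fun i => f (I.getD i ([], []))) m]
  induction I generalizing m with
  | nil => simp [hf]
  | cons a I ih =>
    cases m with
    | zero => simp
    | succ m =>
      rw [Finset.sum_range_succ', List.map_cons, List.sum_cons]
      have h1 := ih m
      simp only [List.getD_cons_succ, List.getD_cons_zero]
      omega

private theorem degc_mem_or_default (I : List Qr) (i : ℕ) :
    I.getD i ([], []) ∈ I ∨ I.getD i ([], []) = ([], []) := by
  rcases lt_or_ge i I.length with h | h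
  · left
    rw [List.getD_eq_getElem _ _ h]
    exact List.getElem_mem h
  · right
    exact List.getD_eq_default _ _ h

theorem totalDegree_JC {r : ℕ} (m : ℕ) (I : List Qr) (V : List ℕ) (h : ∀ p ∈ I, GoodC r p) :
    (JC m I V).totalDegree ≤ 2 * (I.map cntC).sum := by
  unfold JC
  have h0 : cntC ([], []) = 0 := by simp [cntC]
  have h1 := degc_det (Matrix.of fun i j : Fin m => pderiv (V.getD j 0 - 3)
    (FC (I.getD i ([], [])))) (fun i => 2 * cntC (I.getD i ([], []))) (by
      intro i j
      rw [Matrix.of_apply]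
      refine (degc_pderiv _ _).trans ?_
      rcases degc_mem_or_default I i with h2 | h2
      · exact totalDegree_FC _ (h _ h2)
      · rw [h2, degc_FC_default, totalDegree_zero]
        exact Nat.zero_le _)
  refine h1.trans ?_
  rw [← Finset.mul_sum]
  exact Nat.mul_le_mul_left 2 (degc_sumGetD cntC h0 I m)

theorem goodC_default (r : ℕ) : GoodC r ([], []) := by
  simp [GoodC]

theorem vars_cw {r : ℕ} {c : Cm} (h : Ok2 r c) (i : ℕ) (hi : i ∈ (cw c).vars) :
    i + 3 ∈ (c.2.flatten.map Prod.fst) := by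
  classical
  have h1 : i ∈ (bind₁ (cq c) (pw c.1)).vars := hi
  obtain ⟨j, _, h2⟩ := Finset.mem_biUnion.mp (vars_bind₁ (cq c) (pw c.1) h1)
  rcases degc_mem c.2 j with h3 | h3
  · have h4 := vars_pw _ (lo_getD h j).1 i h2
    obtain ⟨q, hq, hqi⟩ := List.mem_map.mp h4
    exact List.mem_map.mpr ⟨q, List.mem_flatten.mpr ⟨_, h3, hq⟩, hqi⟩
  · have h4 : cq c j = 0 := by
      unfold cq
      rw [h3, pw_w0]
    rw [h4, vars_0] at h2
    exact absurd h2 (Finset.notMem_empty i)

private theorem degc_varsProd (l : List Cm) (i : ℕ) (hi : i ∈ ((l.map cw).prod).vars) :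
    ∃ c ∈ l, i ∈ (cw c).vars := by
  classical
  induction l with
  | nil => simp at hi
  | cons a l ih =>
    rw [List.map_cons, List.prod_cons] at hi
    rcases Finset.mem_union.mp (vars_mul (cw a) (l.map cw).prod hi) with h2 | h2
    · exact ⟨a, by simp, h2⟩
    · obtain ⟨c, hc, hci⟩ := ih h2
      exact ⟨c, by simp [hc], hci⟩

private theorem degc_varsSum (l : List Cm) (i : ℕ) (hi : i ∈ (SC l).vars) :
    ∃ c ∈ l, i ∈ (cw c).vars := by
  classical
  unfold SC at hi
  induction l with
  | nil => simp at hi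
  | cons a l ih =>
    rw [List.map_cons, List.sum_cons] at hi
    rcases Finset.mem_union.mp (vars_add_subset (cw a) (l.map cw).sum hi) with h2 | h2
    · exact ⟨a, by simp, h2⟩
    · obtain ⟨c, hc, hci⟩ := ih h2
      exact ⟨c, by simp [hc], hci⟩

private theorem degc_varsPderiv {i j : ℕ} {p : MvPolynomial ℕ ℚ} (h : j ∈ (pderiv i p).vars) :
    j ∈ p.vars := by
  classical
  rw [mem_vars_iff_mem_support] at h ⊢
  obtain ⟨d, hd, hj⟩ := h
  rw [mem_support_iff, coeff_pderiv] at hd
  refine ⟨d + Finsupp.single i 1, ?_, ?_⟩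
  · rw [mem_support_iff]
    exact left_ne_zero_of_mul hd
  · rw [Finsupp.mem_support_iff] at hj ⊢
    rw [Finsupp.add_apply]
    omega

private theorem degc_varsNeg (p : MvPolynomial ℕ ℚ) : (-p).vars = p.vars := by
  classical
  unfold MvPolynomial.vars
  rw [degrees_neg]

private theorem degc_varsDet {m : ℕ} (M : Matrix (Fin m) (Fin m) (MvPolynomial ℕ ℚ)) (i : ℕ)
    (hi : i ∈ M.det.vars) : ∃ a b, i ∈ (M a b).vars := by
  classical
  rw [Matrix.det_apply] at hi
  have h1 := vars_sum_subset (φ := fun s : Equiv.Perm (Fin m) =>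
    Equiv.Perm.sign s • ∏ i, M (s i) i) Finset.univ hi
  obtain ⟨s, _, h2⟩ := Finset.mem_biUnion.mp h1
  have h3 : i ∈ (∏ i, M (s i) i).vars := by
    rcases Int.units_eq_one_or (Equiv.Perm.sign s) with h4 | h4
    · simpa [h4] using h2
    · rw [h4] at h2
      have h5 : ((-1 : ℤˣ) • ∏ i, M (s i) i) = -∏ i, M (s i) i := by
        rw [Units.smul_def]
        simp
      rw [h5, degc_varsNeg] at h2
      exact h2
  obtain ⟨b, _, h4⟩ := Finset.mem_biUnion.mp (vars_prod (s := Finset.univ)
    (fun i : Fin m => M (s i) i) h3)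
  exact ⟨s b, b, h4⟩

theorem vars_FC {r : ℕ} (p : Qr) (h : GoodC r p) (i : ℕ) (hi : i ∈ (FC p).vars) :
    i + 3 ∈ ((namC p).flatten.map Prod.fst) := by
  classical
  have h1 : ∃ c ∈ p.1 ++ p.2, i ∈ (cw c).vars := by
    unfold FC at hi
    rcases Finset.mem_union.mp (vars_mul _ _ hi) with h2 | h2
    · obtain ⟨c, hc, hci⟩ := degc_varsProd p.1 i h2
      exact ⟨c, List.mem_append_left _ hc, hci⟩
    · obtain ⟨c, hc, hci⟩ := degc_varsSum p.2 i h2
      exact ⟨c, List.mem_append_right _ hc, hci⟩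
  obtain ⟨c, hc, hci⟩ := h1
  have hok : Ok2 r c := by
    rcases List.mem_append.mp hc with h2 | h2
    · exact h.1 c h2
    · exact h.2 c h2
  obtain ⟨q, hq, hqi⟩ := List.mem_map.mp (vars_cw hok i hci)
  obtain ⟨w, hw, hqw⟩ := List.mem_flatten.mp hq
  refine List.mem_map.mpr ⟨q, List.mem_flatten.mpr ⟨w, ?_, hqw⟩, hqi⟩
  exact List.mem_flatMap.mpr ⟨c, hc, hw⟩

theorem vars_JC {r : ℕ} (m : ℕ) (I : List Qr) (V : List ℕ) (hI : I.length = m)
    (h : ∀ p ∈ I, GoodC r p) (i : ℕ) (hi : i ∈ (JC m I V).vars) :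
    ∃ p ∈ I, i + 3 ∈ ((namC p).flatten.map Prod.fst) := by
  unfold JC at hi
  obtain ⟨a, b, h1⟩ := degc_varsDet _ i hi
  rw [Matrix.of_apply] at h1
  have h2 := degc_varsPderiv h1
  rcases degc_mem_or_default I a with h3 | h3
  · exact ⟨_, h3, vars_FC _ (h _ h3) i h2⟩
  · rw [h3, degc_FC_default] at h2
    simp at h2

end Pool.Agent.PQR
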