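import Pool.Agent.PQR.BaseM
import Pool.Agent.PQR.DegC

set_option autoImplicit false

/-!
PQR-BaseC. Base points: the generator with `2 r` seeds hits all nonzero composites of a list at once.

The composites are transferred to polynomials in the variables which occur in the substituted words; every one of
them is hit by the generator (`base_hit`), hence so is the product of all nonzero ones, and a grid is enough
(`hit_grid`).
-/

namespace Pool.Agent.PQR

open MvPolynomial N487b59b3 N68a2faeb Pool.Agent.Helper22 Pool.Agent.Helper6.WB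
  Pool.Agent.Helper6.SP Pool.Agent.PQ

private theorem basec_common {n k : ℕ} (L : List (MvPolynomial (Fin n) ℚ))
    (hL : ∀ f ∈ L, ∃ s, eval (Pool.Agent.Helper5.gen n k s) f ≠ 0) :
    ∃ s, eval (Pool.Agent.Helper5.gen n k s) L.prod ≠ 0 := by
  classical
  have hev : ∀ (f : MvPolynomial (Fin n) ℚ) (s : Fin k ⊕ Fin k → ℚ),
      eval s (aeval (Pool.Agent.Helper5.genPoly n k) f) =
        eval (Pool.Agent.Helper5.gen n k s) f := by
    intro f s
    rw [MvPolynomial.aeval_def, ← MvPolynomial.coe_eval₂Hom, ← RingHom.comp_apply]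
    congr 1
    apply MvPolynomial.ringHom_ext
    · intro r; simp
    · intro i; simp [Pool.Agent.Helper5.eval_genPoly]
  obtain ⟨s, hs⟩ := Pool.Agent.Helper5.exists_common_poly L.toFinset
    (fun f => aeval (Pool.Agent.Helper5.genPoly n k) f) (fun f hf => by
      obtain ⟨s, hs⟩ := hL f (List.mem_toFinset.mp hf)
      exact ⟨s, by rw [hev]; exact hs⟩)
  refine ⟨s, ?_⟩
  rw [map_list_prod, Ne, List.prod_eq_zero_iff]
  intro h0
  obtain ⟨f, hf, hf0⟩ := List.mem_map.mp h0
  apply hs f (List.mem_toFinset.mpr hf)
  rw [hev]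
  exact hf0

private theorem basec_mem {σ τ : Type} (S : Subalgebra ℚ (MvPolynomial τ ℚ))
    (f : σ → MvPolynomial τ ℚ) (hf : ∀ i, f i ∈ S) (P : MvPolynomial σ ℚ) : aeval f P ∈ S := by
  induction P using MvPolynomial.induction_on with
  | C a =>
    rw [aeval_C]
    exact S.algebraMap_mem a
  | add p q hp hq =>
    rw [map_add]
    exact S.add_mem hp hq
  | mul_X p i hp =>
    rw [map_mul, aeval_X]
    exact S.mul_mem hp (hf i)

private theorem basec_toks (cs : List Cm) : (toks (cs.map Prod.snd)).length ≤
    (toks (cs.map fun c => c.1 :: c.2)).length ∧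
    (cs.map fun c : Cm => c.1.length).sum ≤ (toks (cs.map fun c => c.1 :: c.2)).length := by
  unfold toks
  induction cs with
  | nil => simp
  | cons a cs ih =>
    simp only [List.map_cons, List.flatten_cons, List.flatten_append, List.length_append,
      List.sum_cons, List.cons_append] at ih ⊢
    omega

theorem exists_baseC (r : ℕ) (cs : List Cm) (hcs : ∀ c ∈ cs, Ok2 r c) (G : List ℕ)
    (hG : ∀ v ≤ (2 * (toks (cs.map fun c => c.1 :: c.2)).length) *
      ((toks (cs.map fun c => c.1 :: c.2)).length + 1), v ∈ G) :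
    ∃ zs ∈ lpow G (2 * r + 2 * r), ∀ c ∈ cs, cw c ≠ 0 →
      eval (ptE (envF (2 * r) ((cs.map Prod.snd, []), zs))) (cw c) ≠ 0 := by
  classical
  obtain ⟨hT1, hT2⟩ := basec_toks cs
  set T : ℕ := (toks (cs.map fun c => c.1 :: c.2)).length with hT
  set I : Inp := cs.map Prod.snd with hI
  have hn : (names I).length ≤ T := (names_length I).trans hT1
  have hnam : ∀ c ∈ cs, ∀ i : ℕ, i + 3 ∈ c.2.flatten.map Prod.fst → i ∈ Set.range (vr I) := by
    intro c hc i hi
    have h2 : i + 3 ∈ names I := by
      rw [mem_names]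
      refine ⟨by omega, ?_⟩
      obtain ⟨q, hq, hqi⟩ := List.mem_map.mp hi
      obtain ⟨w, hw, hqw⟩ := List.mem_flatten.mp hq
      exact List.mem_map.mpr ⟨q, List.mem_flatten.mpr ⟨w, List.mem_flatten.mpr
        ⟨c.2, List.mem_map.mpr ⟨c, hc, rfl⟩, hw⟩, hqw⟩, hqi⟩
    obtain ⟨j, hj⟩ := (vr_range I i).mp h2
    exact ⟨j, hj⟩
  have hex : ∀ c : Cm, ∃ f : MvPolynomial (Fin (names I).length) ℚ,
      c ∈ cs → rename (vr I) f = cw c := by
    intro c
    by_cases hc : c ∈ cs
    · have hvars : ((cw c).vars : Set ℕ) ⊆ Set.range (vr I) := fun i hi =>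
        hnam c hc i (vars_cw (hcs c hc) i hi)
      obtain ⟨f, hf⟩ := exists_rename_eq_of_vars_subset_range (cw c) (vr I) (vr_inj I) hvars
      exact ⟨f, fun _ => hf⟩
    · exact ⟨0, fun h => absurd h hc⟩
  choose F hF using hex
  have hinj : Function.Injective (rename (R := ℚ) (vr I)) := rename_injective _ (vr_inj I)
  have hq : ∀ c ∈ cs, ∀ i : ℕ, ∃ f : MvPolynomial (Fin (names I).length) ℚ,
      rename (vr I) f = cq c i ∧ f.totalDegree ≤ 2 := by
    intro c hc i
    have hlo := lo_getD (hcs c hc) i
    have hvars : ((cq c i).vars : Set ℕ) ⊆ Set.range (vr I) := by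
      intro j hj
      rcases lt_or_ge i c.2.length with h | h
      · have hmem : c.2.getD i w0 ∈ c.2 := by
          rw [List.getD_eq_getElem _ _ h]
          exact List.getElem_mem h
        obtain ⟨q, hq, hqi⟩ := List.mem_map.mp (vars_pw _ hlo.1 j hj)
        exact hnam c hc j (List.mem_map.mpr ⟨q, List.mem_flatten.mpr ⟨_, hmem, hq⟩, hqi⟩)
      · have h4 : cq c i = 0 := by
          unfold cq
          rw [List.getD_eq_default _ _ h, pw_w0]
        rw [h4, vars_0] at hj
        exact absurd hj (Finset.notMem_empty j)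
    obtain ⟨f, hf⟩ := exists_rename_eq_of_vars_subset_range (cq c i) (vr I) (vr_inj I) hvars
    refine ⟨f, hf, ?_⟩
    have h1 := totalDegree_le_rename (vr I) (vr_inj I) f
    rw [hf] at h1
    exact h1.trans hlo.2
  have hdeg : ∀ c ∈ cs, (F c).totalDegree ≤ 2 * c.1.length := by
    intro c hc
    have h1 : (F c).totalDegree ≤ (cw c).totalDegree := by
      refine (totalDegree_le_rename (vr I) (vr_inj I) (F c)).trans ?_
      rw [hF c hc]
    exact h1.trans (totalDegree_cw (hcs c hc))
  have hhit : ∀ c ∈ cs, cw c ≠ 0 →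
      ∃ s, eval (Pool.Agent.Helper5.gen (names I).length (2 * r) s) (F c) ≠ 0 := by
    intro c hc hc0
    choose q hq1 hq2 using hq c hc
    apply base_hit r (fun i : Fin r => q i.val) (fun i => hq2 i.val) (F c)
    · have h1 : F c = aeval (fun j : ℕ => if j < r then q j else 0) (pw c.1) := by
        apply hinj
        rw [hF c hc, cw_eq (hcs c hc)]
        have h2 : rename (vr I) (aeval (fun j : ℕ => if j < r then q j else 0) (pw c.1)) =
            aeval (fun j : ℕ => rename (vr I) (if j < r then q j else 0)) (pw c.1) := by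
          rw [← AlgHom.comp_apply, comp_aeval]
        rw [h2]
        refine congrArg (fun f => aeval f (pw c.1)) (funext fun j => ?_)
        by_cases hj : j < r
        · rw [if_pos hj, if_pos hj, hq1]
        · rw [if_neg hj, if_neg hj, map_zero]
      rw [h1]
      apply basec_mem
      intro j
      by_cases hj : j < r
      · rw [if_pos hj]
        exact Algebra.subset_adjoin ⟨⟨j, hj⟩, rfl⟩
      · rw [if_neg hj]
        exact Subalgebra.zero_mem _
    · intro h0
      apply hc0
      rw [← hF c hc, h0, map_zero]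
  set L : List Cm := cs.filter (fun c => decide (cw c ≠ 0)) with hL
  have hmem : ∀ c ∈ L, c ∈ cs ∧ cw c ≠ 0 := by
    intro c hc
    rw [hL, List.mem_filter] at hc
    exact ⟨hc.1, by simpa using hc.2⟩
  have hdp : ((L.map F).prod).totalDegree ≤ 2 * T := by
    have h1 : ∀ M : List Cm, (∀ c ∈ M, c ∈ cs) →
        ((M.map F).prod).totalDegree ≤ 2 * (M.map fun c : Cm => c.1.length).sum := by
      intro M
      induction M with
      | nil => intro _; simp
      | cons w M ih =>
        intro hM
        rw [List.map_cons, List.prod_cons, List.map_cons, List.sum_cons, mul_add]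
        exact (totalDegree_mul _ _).trans (Nat.add_le_add
          (hdeg w (hM w List.mem_cons_self)) (ih fun v hv => hM v (List.mem_cons_of_mem _ hv)))
    have h2 : (L.map fun c : Cm => c.1.length).sum ≤ (cs.map fun c : Cm => c.1.length).sum := by
      have h3 : ∀ M : List Cm, ((M.filter (fun c => decide (cw c ≠ 0))).map
          fun c : Cm => c.1.length).sum ≤ (M.map fun c : Cm => c.1.length).sum := by
        intro M
        induction M with
        | nil => simp
        | cons w M ih =>
          rw [List.filter_cons]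
          split_ifs
          · rw [List.map_cons, List.map_cons, List.sum_cons, List.sum_cons]
            exact Nat.add_le_add_left ih _
          · rw [List.map_cons, List.sum_cons]
            exact ih.trans (Nat.le_add_left _ _)
      exact h3 cs
    refine (h1 L (fun w hw => (hmem w hw).1)).trans ?_
    exact Nat.mul_le_mul_left 2 (h2.trans hT2)
  obtain ⟨a, ha, hea⟩ := Pool.Agent.Helper5.hit_grid (L.map F).prod _ hdp (2 * r)
    (basec_common (L.map F) (by
      intro f hf
      obtain ⟨w, hw, rfl⟩ := List.mem_map.mp hf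
      exact hhit w (hmem w hw).1 (hmem w hw).2))
  unfold Pool.Agent.Helper5.hittingSet at ha
  rw [Finset.mem_image] at ha
  obtain ⟨⟨z, y⟩, hzy, rfl⟩ := ha
  rw [Finset.mem_product, Fintype.mem_piFinset, Fintype.mem_piFinset] at hzy
  obtain ⟨hz, hy⟩ := hzy
  refine ⟨List.ofFn z ++ List.ofFn y, ?_, ?_⟩
  · rw [mem_lpow]
    refine ⟨by rw [List.length_append, List.length_ofFn, List.length_ofFn], ?_⟩
    intro p hp
    apply hG
    rcases List.mem_append.mp hp with hp | hp
    · obtain ⟨l, rfl⟩ := List.mem_ofFn.mp hp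
      have h1 := hz l
      simp only [Finset.mem_range] at h1
      nlinarith
    · obtain ⟨l, rfl⟩ := List.mem_ofFn.mp hp
      have h1 := hy l
      simp only [Finset.mem_range] at h1
      have h2 : (names I).length * (2 * T) ≤ T * (2 * T) := Nat.mul_le_mul_right _ hn
      nlinarith
  · intro c hc hc0
    have hcL : c ∈ L := by
      rw [hL, List.mem_filter]
      exact ⟨hc, by simpa using hc0⟩
    rw [map_list_prod, Ne, List.prod_eq_zero_iff] at hea
    have h3 : eval _ (F c) ≠ 0 :=
      fun h0 => hea (List.mem_map.mpr ⟨F c, List.mem_map.mpr ⟨c, hcL, rfl⟩, h0⟩)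
    rw [← hF c hc, eval_rename]
    intro h0
    apply h3
    rw [← h0]
    refine congrArg (fun x => eval x (F c)) ?_
    funext i
    simp only [Function.comp]
    rw [ptE_envF]
    have h4 : ptE [] (vr I i) = 0 := by
      simp [ptE, lookE, toQ, e0]
    rw [h4, zero_add]

end Pool.Agent.PQR
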