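import Pool.Agent.PQR.Defs
import Pool.Agent.PQ.Faith
import Pool.Agent.PQ.Base

set_option autoImplicit false

/-!
PQR-BaseM. The generator with `2 r` seeds hits every nonzero polynomial in `r` polynomials of degree at most two.
-/

namespace Pool.Agent.PQR

open MvPolynomial

private theorem pt_of_deg {n k : ℕ} (f : MvPolynomial (Fin n) ℚ) (hf : f ≠ 0)
    (hd : f.totalDegree ≤ k) : ∃ x ∈ Pool.Agent.Helper5.G n k, eval x f ≠ 0 := by
  classical
  obtain ⟨m, hm⟩ := (support_nonempty.mpr hf)
  set S : Finset (Fin n) := m.support with hS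
  have hScard : S.card ≤ k := by
    refine le_trans ?_ ((le_totalDegree hm).trans hd)
    rw [Finsupp.sum, Finset.card_eq_sum_ones]
    apply Finset.sum_le_sum
    intro i hi
    exact Nat.one_le_iff_ne_zero.mpr (Finsupp.mem_support_iff.mp hi)
  set h : MvPolynomial (Fin n) ℚ :=
    ∑ d ∈ f.support.filter (fun d => d.support ⊆ S), monomial d (coeff d f) with hh
  have hh0 : h ≠ 0 := by
    intro h0
    have h1 : coeff m h = coeff m f := by
      rw [hh, coeff_sum]
      rw [Finset.sum_eq_single m]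
      · rw [coeff_monomial, if_pos rfl]
      · intro d _ hdm
        rw [coeff_monomial, if_neg hdm]
      · intro hnot
        exfalso
        apply hnot
        rw [Finset.mem_filter]
        exact ⟨hm, le_refl _⟩
    rw [h0, coeff_zero] at h1
    exact (mem_support_iff.mp hm) h1.symm
  have ht : ∃ t, eval t h ≠ 0 := by
    by_contra hcon
    push Not at hcon
    apply hh0
    apply MvPolynomial.funext
    intro x
    rw [hcon x, map_zero]
  obtain ⟨t, ht⟩ := ht
  set x : Fin n → ℚ := fun i => if i ∈ S then t i else 0 with hx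
  have hev : eval x f = eval t h := by
    rw [hh, map_sum, eval_eq, Finset.sum_filter]
    apply Finset.sum_congr rfl
    intro d _
    split_ifs with hdS
    · rw [eval_monomial, Finsupp.prod]
      congr 1
      apply Finset.prod_congr rfl
      intro i hi
      rw [hx]
      simp only [if_pos (hdS hi)]
    · obtain ⟨i, hi, hiS⟩ := Finset.not_subset.mp hdS
      rw [Finset.prod_eq_zero hi, mul_zero]
      rw [hx]
      simp only [if_neg hiS]
      exact zero_pow (Finsupp.mem_support_iff.mp hi)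
  have h0 : (fun _ => 0 : Fin n → ℚ) ∈ Pool.Agent.Helper5.G n 0 :=
    ⟨fun _ => 0, by funext i; simp [Pool.Agent.Helper5.gen]⟩
  have h2 : x ∈ Pool.Agent.Helper5.G n (0 + k) :=
    Pool.Agent.Helper5.G_step h0 x S hScard (fun i hi => by rw [hx]; simp only [if_neg hi])
  rw [Nat.zero_add] at h2
  exact ⟨x, h2, by rw [hev]; exact ht⟩

theorem base_hit (r : ℕ) {n : ℕ} (q : Fin r → MvPolynomial (Fin n) ℚ)
    (hq : ∀ i, (q i).totalDegree ≤ 2) (f : MvPolynomial (Fin n) ℚ)
    (hf : f ∈ Algebra.adjoin ℚ (Set.range q)) (hf0 : f ≠ 0) :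
    ∃ s, eval (Pool.Agent.Helper5.gen n (2 * r) s) f ≠ 0 := by
  classical
  have hρ : Function.Injective (Fin.val : Fin n → ℕ) := Fin.val_injective
  obtain ⟨m, hm, s, hs, halg⟩ := Pool.Agent.PQ.exists_basisN
    (fun i => rename (Fin.val : Fin n → ℕ) (q i)) r (fun b _ => by
      have := Finset.card_le_univ b
      rwa [Fintype.card_fin] at this)
  obtain ⟨J, hJ, hdet⟩ := Pool.Agent.PQ.exists_minorN _ hs
  have hJ' : ∀ j, ∃ j' : Fin n, j'.val = J j := by
    intro j
    obtain ⟨i, hi⟩ := hJ j
    obtain ⟨j', -, hj'⟩ := mem_vars_rename _ _ hi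
    exact ⟨j', hj'⟩
  choose J' hJ'v using hJ'
  have hdet' : (Matrix.of fun i j => pderiv (J j) (rename (Fin.val : Fin n → ℕ) (q (s i)))).det =
      rename (Fin.val : Fin n → ℕ) (Matrix.of fun i j => pderiv (J' j) (q (s i))).det := by
    rw [AlgHom.map_det]
    congr 1
    ext i j : 1
    simp only [AlgHom.mapMatrix_apply, Matrix.map_apply, Matrix.of_apply]
    rw [← hJ'v j]
    exact pderiv_rename hρ (J' j) (q (s i))
  have hδ0 : (Matrix.of fun i j => pderiv (J' j) (q (s i))).det ≠ 0 := by
    intro h0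
    apply hdet
    rw [hdet', h0, map_zero]
  have hδd : (Matrix.of fun i j => pderiv (J' j) (q (s i))).det.totalDegree ≤ m := by
    have h1 : ∀ i j, ((Matrix.of fun i j => pderiv (J' j) (q (s i))) i j).totalDegree ≤ 1 := by
      intro i j
      rw [Matrix.of_apply]
      by_cases h : pderiv (J' j) (q (s i)) = 0
      · rw [h, totalDegree_zero]
        exact Nat.zero_le _
      · have h2 := Pool.Agent.Helper5.D4.totalDegree_pderiv_lt (J' j) (q (s i)) h
        have h3 := hq (s i)
        omega
    have h4 := Pool.Agent.Helper6.SP.totalDegree_det_le (d := 1) _ h1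
    omega
  obtain ⟨x, hxG, hx⟩ := pt_of_deg _ hδ0 hδd
  set γ : ℕ → ℚ := fun v => if h : v < n then x ⟨v, h⟩ else 0 with hγ
  have hγx : ∀ i : Fin n, γ i.val = x i := by
    intro i
    rw [hγ]
    simp only [i.isLt, dif_pos, Fin.eta]
  have hdetγ : eval γ (Matrix.of fun i j =>
      pderiv (J j) (rename (Fin.val : Fin n → ℕ) (q (s i)))).det ≠ 0 := by
    rw [hdet', eval_rename]
    have h1 : γ ∘ (Fin.val : Fin n → ℕ) = x := funext hγx
    rw [h1]
    exact hx
  have hfr : rename (Fin.val : Fin n → ℕ) f ∈ Algebra.adjoin ℚ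
      (Set.range fun i => rename (Fin.val : Fin n → ℕ) (q i)) := by
    have h1 : rename (Fin.val : Fin n → ℕ) f ∈
        (Algebra.adjoin ℚ (Set.range q)).map (rename (Fin.val : Fin n → ℕ)) :=
      ⟨f, hf, rfl⟩
    rw [AlgHom.map_adjoin, ← Set.range_comp] at h1
    exact h1
  have hfr0 : rename (Fin.val : Fin n → ℕ) f ≠ 0 := by
    intro h0
    exact hf0 (rename_injective _ hρ (by rw [h0, map_zero]))
  obtain ⟨y, -, hy⟩ := Pool.Agent.PQ.hitN (fun i => rename (Fin.val : Fin n → ℕ) (q i)) s halg γ J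
    hdetγ _ hfr hfr0 _ le_rfl
  rw [eval_rename] at hy
  have hG : ((fun v => γ v + ∑ j, if J j = v then (y j : ℚ) else 0) ∘ (Fin.val : Fin n → ℕ)) ∈
      Pool.Agent.Helper5.G n (m + m) := by
    refine Pool.Agent.Helper5.G_step hxG _ (Finset.univ.image J') ?_ ?_
    · refine Finset.card_image_le.trans ?_
      rw [Finset.card_univ, Fintype.card_fin]
    · intro i hi
      simp only [Function.comp]
      rw [hγx, Finset.sum_eq_zero, add_zero]
      intro j _
      rw [if_neg]
      intro h
      apply hi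
      rw [Finset.mem_image]
      exact ⟨j, Finset.mem_univ _, Fin.ext (by rw [hJ'v, h])⟩
  obtain ⟨t, ht⟩ := Pool.Agent.Helper5.G_mono (by omega : m + m ≤ 2 * r) hG
  refine ⟨t, ?_⟩
  rw [ht]
  exact hy

end Pool.Agent.PQR
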