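import Pool.Agent.PQR.OfPoly
import Pool.Agent.PQ.Words
import Pool.Agent.PQ.Atom

set_option autoImplicit false

/-!
PQR-CompA. Composites: values, and their restrictions are in `FT r`.

Plan. `cw_eq`: for `j ≥ c.2.length` the polynomial `cq c j = pw w0` is zero (`pw_code`); two substitutions which agree give the same
`aeval`. `exists_ndE`: `l.zipIdx.map fun q => (q.2 + 3, element of nd q.1)` (see `oEnv`, `ptE_oEnv` in `PQ/OutG.lean`).
`exists_vC`: the environment `c.2.zipIdx.map fun q => (q.2 + 3, element of topV q.1 e)`, then `topV c.1` (`topV_eq`, `topV_code`: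
`eval (ptE e) (aeval (cq c) P) = eval (fun j => eval (ptE e) (cq c j)) P`).
`ft_cw`: `FT.ofPoly r` with `h p = pw p.2.1`, `D p` = one bit for every token of `p.2.1` (`degree_pw`), `val (p, l) = topV p.2.1 (ndE l)`,
`y i p = sub e U (pw (p.2.2.getD i w0))` (`fm_word`, `fp_getD`); `sub e U (aeval f P) = aeval (sub e U ∘ f) P`.
`Lo w0` holds. The promise `Ok2 r` gives `Lo` for `getD` (members of the list or the default `w0`).
-/

namespace Pool.Agent.PQR

open MvPolynomial N487b59b3 N68a2faeb Pool.Agent.Helper22 Pool.Agent.Helper6.WB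
  Pool.Agent.Helper6.SP Pool.Agent.PQ

/-- the environment of the values of a function at the members of a list -/
private def cEnv {β : Type} (f : β → El) (L : List β) : En :=
  L.zipIdx.map fun q => (q.2 + 3, f q.1)

private theorem ptE_cEnv {β : Type} (f : β → El) (L : List β) (i : ℕ) (d : β) :
    ptE (cEnv f L) i = if i < L.length then toQ (f (L.getD i d)) else 0 := by
  rw [ptE, lookE]
  by_cases hi : i < L.length
  · rw [lookE_aux (cEnv f L) (i + 3) (f L[i]), if_pos hi, List.getD_eq_getElem _ _ hi]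
    · intro q hq hqi
      unfold cEnv at hq
      obtain ⟨⟨w, j⟩, hw, rfl⟩ := List.mem_map.mp hq
      rw [List.mem_zipIdx_iff_getElem?] at hw
      simp only at hqi hw ⊢
      have h1 : j = i := by omega
      subst h1
      obtain ⟨h2, h3⟩ := List.getElem?_eq_some_iff.mp hw
      rw [← h3]
    · right
      refine ⟨(i + 3, f L[i]), ?_, rfl⟩
      unfold cEnv
      rw [List.mem_map]
      refine ⟨(L[i], i), ?_, rfl⟩
      rw [List.mem_zipIdx_iff_getElem?]
      exact List.getElem?_eq_getElem hi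
  · rw [lookE_aux (cEnv f L) (i + 3) e0, if_neg hi]
    · simp [toQ, e0]
    · intro q hq hqi
      unfold cEnv at hq
      obtain ⟨⟨w, j⟩, hw, rfl⟩ := List.mem_map.mp hq
      rw [List.mem_zipIdx_iff_getElem?] at hw
      simp only at hqi hw
      obtain ⟨h2, h3⟩ := List.getElem?_eq_some_iff.mp hw
      omega
    · exact Or.inl rfl

theorem pw_w0 : pw w0 = 0 := by
  unfold w0
  rw [pw_code]
  simp [Fm.poly]

theorem lo_w0 : Lo w0 := by
  refine ⟨⟨Fm.const 0, rfl⟩, ?_⟩
  rw [pw_w0, totalDegree_zero]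
  exact Nat.zero_le _

theorem lo_getD {r : ℕ} {c : Cm} (h : Ok2 r c) (i : ℕ) : Lo (c.2.getD i w0) := by
  by_cases hi : i < c.2.length
  · rw [List.getD_eq_getElem _ _ hi]
    exact h.2.2 _ (List.getElem_mem hi)
  · rw [List.getD_eq_default _ _ (not_lt.mp hi)]
    exact lo_w0

theorem cw_eq {r : ℕ} {c : Cm} (h : Ok2 r c) :
    cw c = aeval (fun j => if j < r then cq c j else 0) (pw c.1) := by
  have h1 : cq c = fun j => if j < r then cq c j else 0 := by
    funext j
    by_cases hj : j < r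
    · rw [if_pos hj]
    · rw [if_neg hj, cq, List.getD_eq_default _ _ (h.2.1.trans (not_lt.mp hj)), pw_w0]
  unfold cw
  rw [← h1]

theorem exists_ndE : ∃ E : List Un → En, FP E ∧ ∀ l i, ptE (E l) i = ndp l i := by
  obtain ⟨F, hF, -, hFq⟩ := fq_nd
  refine ⟨fun l => cEnv F l, ?_, ?_⟩
  · have h1 : FP fun r : List Un × (Un × ℕ) => ((r.2.2 + 3, F r.2.1) : ℕ × El) :=
      FP.pair (Pool.Agent.Helper6.WB.FP.natAdd (by fun_prop) (FP.const 3))
        (hF.comp (f := fun r : List Un × (Un × ℕ) => r.2.1) (by fun_prop))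
    exact fp_map (fp_zipIdx FP.id) h1
  · intro l i
    rw [ptE_cEnv F l i [], ndp]
    by_cases hi : i < l.length
    · rw [if_pos hi, if_pos hi, hFq]
    · rw [if_neg hi, if_neg hi]

private theorem eval_cw (e : En) (c : Cm) :
    eval (ptE e) (cw c) = eval (fun j => eval (ptE e) (cq c j)) (pw c.1) := by
  unfold cw
  generalize pw c.1 = p
  induction p using MvPolynomial.induction_on with
  | C a => simp only [algHom_C, algebraMap_eq, eval_C]
  | add p q hp hq => simp only [map_add, hp, hq]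
  | mul_X p i hp => simp only [map_mul, hp, aeval_X, eval_X]

theorem exists_vC : ∃ o : En × Cm → ℚ, FQ o ∧ ∀ (e : En) (c : Cm), (∃ g : Fm, g.code = c.1) →
    (∀ w ∈ c.2, ∃ g : Fm, g.code = w) → o (e, c) = eval (ptE e) (cw c) := by
  have hT : FQ fun p : En × Wd => topV p.2 p.1 :=
    fq_topV (f := fun p : En × Wd => p.2) (g := fun p : En × Wd => p.1) FP.snd FP.fst
  obtain ⟨F, hF, -, hFq⟩ := hT
  have hE : FP fun p : En × Cm => cEnv (fun w => F (p.1, w)) p.2.2 := by
    have h1 : FP fun r : (En × Cm) × (Wd × ℕ) => ((r.2.2 + 3, F (r.1.1, r.2.1)) : ℕ × El) :=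
      FP.pair (Pool.Agent.Helper6.WB.FP.natAdd (by fun_prop) (FP.const 3))
        (hF.comp (f := fun r : (En × Cm) × (Wd × ℕ) => (r.1.1, r.2.1)) (by fun_prop))
    have h2 : FP fun p : En × Cm => p.2.2 := by fun_prop
    exact fp_map (fp_zipIdx h2) h1
  refine ⟨fun p => topV p.2.1 (cEnv (fun w => F (p.1, w)) p.2.2), ?_, ?_⟩
  · exact fq_topV (f := fun p : En × Cm => p.2.1)
      (g := fun p : En × Cm => cEnv (fun w => F (p.1, w)) p.2.2) (by fun_prop) hE
  · intro e c h1 h2
    simp only
    rw [topV_eq c.1 h1, eval_cw]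
    refine congrArg (fun g => eval g (pw c.1)) (funext fun j => ?_)
    rw [ptE_cEnv _ _ j w0, cq]
    by_cases hj : j < c.2.length
    · rw [if_pos hj, hFq, List.getD_eq_getElem _ _ hj]
      exact topV_eq _ (h2 _ (List.getElem_mem hj)) e
    · rw [if_neg hj, List.getD_eq_default _ _ (not_lt.mp hj), pw_w0, map_zero]

theorem ft_cw (r : ℕ) : FT r (fun p : Fr × Cm => nF p.1) (fun p => Ok2 r p.2)
    (fun p => sub p.1.1 p.1.2 (cw p.2)) := by
  obtain ⟨E, hE, hEq⟩ := exists_ndE
  have hD : FP fun p : Fr × Cm => p.2.1.map fun t => (fun _ : (Fr × Cm) × (ℕ × ℚ) => true) (p, t) :=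
    fp_map (by fun_prop) (FP.const true)
  have hval : FQ fun q : (Fr × Cm) × List Un => topV q.1.2.1 (E q.2) :=
    fq_topV (f := fun q : (Fr × Cm) × List Un => q.1.2.1)
      (g := fun q : (Fr × Cm) × List Un => E q.2) (by fun_prop) (hE.comp FP.snd)
  have hy : ∀ i < r, FM (fun p : Fr × Cm => nF p.1) (fun p => Ok2 r p.2)
      (fun p => sub p.1.1 p.1.2 (cq p.2 i)) := by
    intro i _
    have h1 : FP fun p : Fr × Cm => (p.1, p.2.2.getD i w0) :=
      FP.pair FP.fst (fp_getD (f := fun p : Fr × Cm => p.2.2) (by fun_prop) i w0)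
    exact (fm_word.comp h1).imp fun p hp => lo_getD hp i
  have key := FT.ofPoly r (n := fun p : Fr × Cm => nF p.1) (P := fun p => Ok2 r p.2)
    (h := fun p : Fr × Cm => pw p.2.1) hD hval ?_ ?_ hy
  · refine key.congr ?_
    rintro ⟨⟨e, U⟩, c⟩ hP
    simp only at hP ⊢
    rw [cw_eq hP]
    generalize pw c.1 = p
    induction p using MvPolynomial.induction_on with
    | C a => simp only [algHom_C, algebraMap_eq]
    | add p q hp hq => simp only [map_add, hp, hq]
    | mul_X p i hp =>
      simp only [map_mul, hp, aeval_X]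
      congr 1
      by_cases hi : i < r
      · rw [if_pos hi, if_pos hi]
      · rw [if_neg hi, if_neg hi, map_zero]
  · rintro ⟨⟨e, U⟩, c⟩ hP l _
    simp only at hP ⊢
    rw [topV_eq c.1 hP.1]
    exact congrArg (fun g => eval g (pw c.1)) (funext fun i => hEq l i)
  · rintro ⟨⟨e, U⟩, c⟩ hP
    simp only [List.length_map] at hP ⊢
    exact degree_pw c.1 hP.1

end Pool.Agent.PQR
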