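import Pool.Agent.PQR.CompA

set_option autoImplicit false

/-!
PQR-CompD. Derivatives of composites.

Plan: chain rule `pderiv v (aeval f P) = ∑ i < r, aeval f (pderiv i P) * pderiv v (f i)` for `f = cq c` (only the variables
`i < r` matter since `cq c i = 0` for `i ≥ r`; for the infinite index set prove it by `MvPolynomial.induction_on` for the function
`f i = if i < r then q i else 0`, or use a version from Mathlib). `sub e U (aeval f (pderiv i P))` belongs to `FT r` by
`FT.ofPoly` with the values `topD P (ndE l) (i + 3)` (`topD_eq`, `fq_topD`), `fm_deriv` for `sub e U (pderiv (v - 3) (cq c i))`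
(`FM.toFT`), `FT.mul`, `FT.sum` over `Finset.range r` (write the summand for all `i`, using `i < r` only for the promise; or
sum over `Fin r`).
-/

namespace Pool.Agent.PQR

open MvPolynomial N487b59b3 N68a2faeb Pool.Agent.Helper22 Pool.Agent.Helper6.WB
  Pool.Agent.Helper6.SP Pool.Agent.PQ

/-- the chain rule -/
private theorem pderiv_comp (r k : ℕ) (f : ℕ → MvPolynomial ℕ ℚ) (p : MvPolynomial ℕ ℚ) :
    pderiv k (aeval (fun j => if j < r then f j else 0) p) =
      ∑ i ∈ Finset.range r, aeval (fun j => if j < r then f j else 0) (pderiv i p) *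
        pderiv k (f i) := by
  induction p using MvPolynomial.induction_on with
  | C a =>
    have h1 : (aeval (fun j => if j < r then f j else 0)) (C a : MvPolynomial ℕ ℚ) = C a := by
      rw [aeval_C, algebraMap_eq]
    rw [h1, pderiv_C]
    symm
    refine Finset.sum_eq_zero fun i _ => ?_
    rw [pderiv_C, map_zero, zero_mul]
  | add p q hp hq =>
    rw [map_add, map_add, hp, hq, ← Finset.sum_add_distrib]
    refine Finset.sum_congr rfl fun i _ => ?_
    rw [map_add, map_add, add_mul]
  | mul_X p n hp =>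
    rw [map_mul, aeval_X, pderiv_mul, hp, Finset.sum_mul]
    have h2 : ∀ i ∈ Finset.range r, aeval (fun j => if j < r then f j else 0)
        (pderiv i (p * X n)) * pderiv k (f i) =
        aeval (fun j => if j < r then f j else 0) (pderiv i p) * pderiv k (f i) *
          (if n < r then f n else 0) +
        (if i = n then aeval (fun j => if j < r then f j else 0) p * pderiv k (f n) else 0) := by
      intro i _
      rw [pderiv_mul, map_add, map_mul, map_mul, aeval_X]
      by_cases hin : i = n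
      · subst hin
        rw [pderiv_X_self, map_one, if_pos rfl]
        ring
      · rw [pderiv_X_of_ne (Ne.symm hin), map_zero, if_neg hin]
        ring
    rw [Finset.sum_congr rfl h2, Finset.sum_add_distrib, Finset.sum_ite_eq']
    congr 1
    by_cases hn : n < r
    · rw [if_pos hn, if_pos (Finset.mem_range.2 hn)]
    · rw [if_neg hn, if_neg (fun h => hn (Finset.mem_range.1 h)), map_zero, mul_zero]

private theorem sub_aeval (e : En) (U : List En) (r : ℕ) (f : ℕ → MvPolynomial ℕ ℚ)
    (p : MvPolynomial ℕ ℚ) :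
    sub e U (aeval (fun j => if j < r then f j else 0) p) =
      aeval (fun j => if j < r then sub e U (f j) else 0) p := by
  have h : (sub e U).comp (aeval (fun j => if j < r then f j else 0)) =
      aeval (fun j => if j < r then sub e U (f j) else 0) := by
    apply MvPolynomial.algHom_ext
    intro j
    rw [AlgHom.comp_apply, aeval_X, aeval_X]
    by_cases hj : j < r
    · rw [if_pos hj, if_pos hj]
    · rw [if_neg hj, if_neg hj, map_zero]
  rw [← h, AlgHom.comp_apply]

private theorem fp_arg (i : ℕ) :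
    FP fun p : Fr × (Cm × ℕ) => (p.1, p.2.1.2.getD i w0) :=
  FP.pair FP.fst (fp_getD (by fun_prop) i w0)

private theorem fm_arg (r i : ℕ) : FM (fun p : Fr × (Cm × ℕ) => nF p.1)
    (fun p => Ok2 r p.2.1 ∧ 3 ≤ p.2.2) (fun p => sub p.1.1 p.1.2 (cq p.2.1 i)) := by
  have h := FM.comp fm_word (fp_arg i)
  exact h.imp fun p hp => lo_getD hp.1 i

private theorem fm_darg (r i : ℕ) : FM (fun p : Fr × (Cm × ℕ) => nF p.1)
    (fun p => Ok2 r p.2.1 ∧ 3 ≤ p.2.2)
    (fun p => sub p.1.1 p.1.2 (pderiv (p.2.2 - 3) (cq p.2.1 i))) := by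
  have h1 : FP fun p : Fr × (Cm × ℕ) => (p.1, (p.2.1.2.getD i w0, p.2.2)) :=
    FP.pair FP.fst (FP.pair (fp_getD (by fun_prop) i w0) (by fun_prop))
  have h := FM.comp fm_deriv h1
  exact h.imp fun p hp => ⟨lo_getD hp.1 i, hp.2⟩

private theorem ft_outer (r i : ℕ) : FT r (fun p : Fr × (Cm × ℕ) => nF p.1)
    (fun p => Ok2 r p.2.1 ∧ 3 ≤ p.2.2)
    (fun p => aeval (fun j => if j < r then sub p.1.1 p.1.2 (cq p.2.1 j) else 0)
      (pderiv i (pw p.2.1.1))) := by
  obtain ⟨E, hE, hE'⟩ := exists_ndE
  have hD : FP fun p : Fr × (Cm × ℕ) => p.2.1.1.map fun _ => true := by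
    have h : FP fun p : Fr × (Cm × ℕ) =>
        p.2.1.1.map fun b => (fun _ : (Fr × (Cm × ℕ)) × (ℕ × ℚ) => true) (p, b) :=
      fp_map (by fun_prop) (FP.const true)
    exact h
  have hv : FQ fun q : (Fr × (Cm × ℕ)) × List Un => topD q.1.2.1.1 (E q.2) (i + 3) :=
    fq_topD (by fun_prop) (hE.comp FP.snd) (FP.const (i + 3))
  refine FT.ofPoly r (D := fun p : Fr × (Cm × ℕ) => p.2.1.1.map fun _ => true)
    (y := fun j p => sub p.1.1 p.1.2 (cq p.2.1 j)) hD hv ?_ ?_ (fun j _ => fm_arg r j)
  · rintro p hp l _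
    show topD p.2.1.1 (E l) (i + 3) = eval (ndp l) (pderiv i (pw p.2.1.1))
    rw [topD_eq p.2.1.1 hp.1.1 (E l) i]
    have h : ptE (E l) = ndp l := funext fun j => hE' l j
    rw [h]
  · rintro p hp
    show (pderiv i (pw p.2.1.1)).totalDegree ≤ (p.2.1.1.map fun _ => true).length
    rw [List.length_map]
    exact (Helper6.SP.totalDegree_pderiv_le i _).trans (degree_pw _ hp.1.1)

theorem ft_dcw (r : ℕ) : FT (r + 1) (fun p : Fr × (Cm × ℕ) => nF p.1)
    (fun p => Ok2 r p.2.1 ∧ 3 ≤ p.2.2)
    (fun p => sub p.1.1 p.1.2 (pderiv (p.2.2 - 3) (cw p.2.1))) := by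
  have h := FT.sum (Finset.range r) fun i => (ft_outer r i).mul (fm_darg r i).toFT
  refine h.congr ?_
  rintro ⟨⟨e, U⟩, c, v⟩ hp
  show sub e U (pderiv (v - 3) (cw c)) = _
  rw [cw_eq hp.1, pderiv_comp, map_sum]
  refine Finset.sum_congr rfl fun i _ => ?_
  rw [map_mul, sub_aeval]

end Pool.Agent.PQR
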