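import Pool.Agent.PQR.CompA

set_option autoImplicit false

/-!
PQR-CompI. Truncated inverses of composites.

The truncated inverse is the composition of the substituted quadratic polynomials with a polynomial
whose values are geometric sums; `FT.ofPoly` applies.
-/

namespace Pool.Agent.PQR

open MvPolynomial N487b59b3 N68a2faeb Pool.Agent.Helper22 Pool.Agent.Helper6.WB
  Pool.Agent.Helper6.SP Pool.Agent.PQ

private theorem ci_pow (x : ℚ) (M i : ℕ) :
    ((List.range M).map fun j => if decide (j + 1 ≤ i) then x else 1).prod = x ^ (min i M) := by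
  induction M with
  | zero => simp
  | succ M ih =>
    rw [List.range_succ, List.map_append, List.prod_append, ih]
    simp only [List.map_cons, List.map_nil, List.prod_cons, List.prod_nil, mul_one,
      decide_eq_true_eq]
    by_cases h : M + 1 ≤ i
    · rw [if_pos h, min_eq_right h, min_eq_right (by omega), pow_succ]
    · rw [if_neg h, mul_one, min_eq_left (by omega), min_eq_left (by omega)]

private theorem ci_sum (f : ℕ → ℚ) (n : ℕ) :
    ((List.range n).map f).sum = ∑ i ∈ Finset.range n, f i := by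
  induction n with
  | zero => simp
  | succ n ih =>
    rw [List.range_succ, List.map_append, List.sum_append, ih, Finset.sum_range_succ]
    simp

private theorem ci_geo {α : Type} [N487b59b3 α] {x : α → ℚ} {m : α → Un} (hx : FQ x)
    (hm : FP m) : FQ fun a => ∑ i ∈ Finset.range ((m a).length + 1), x a ^ i := by
  have h0 : FQ fun q : (α × ℕ) × ℕ => if decide (q.2 + 1 ≤ q.1.2) then x q.1.1 else 1 :=
    FQ.ite (Pool.Agent.Helper47.TR.FP.natLe (FP.natAdd FP.snd (FP.const 1))
      (FP.snd.comp FP.fst)) (hx.comp (FP.fst.comp FP.fst)) (FQ.const 1)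
  have h1 := FQ.listProd h0
  have h2 := h1.comp (FP.id.pair (FP.range (hm.comp FP.fst)))
  have h3 := FQ.listSum h2
  refine (h3.comp (FP.id.pair (FP.range (FP.cons (FP.const true) hm)))).congr fun a => ?_
  rw [ci_sum, List.length_cons]
  refine Finset.sum_congr rfl fun i hi => ?_
  dsimp only
  rw [ci_pow, min_eq_left (Nat.lt_succ_iff.1 (Finset.mem_range.1 hi))]

/-- the outer polynomial -/
private noncomputable def ciH (p : Fr × (Cm × Un)) : MvPolynomial ℕ ℚ :=
  ∑ i ∈ Finset.range (p.2.2.length + 1),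
    C ((-1) ^ i * (eval (ptE p.1.1) (cw p.2.1))⁻¹ ^ (i + 1)) *
      (pw p.2.1.1 - C (eval (ptE p.1.1) (cw p.2.1))) ^ i

theorem ft_invC (r : ℕ) : FT r (fun p : Fr × (Cm × Un) => nF p.1) (fun p => Ok2 r p.2.1)
    (fun p => invC p.2.2.length p.1.1 p.1.2 p.2.1) := by
  obtain ⟨E, hE, hE2⟩ := exists_ndE
  obtain ⟨o, ho, ho2⟩ := exists_vC
  have hE3 : ∀ l, ptE (E l) = ndp l := fun l => funext fun i => hE2 l i
  have ha : FQ fun q : (Fr × (Cm × Un)) × List Un => o (q.1.1.1, q.1.2.1) :=
    ho.comp (FP.pair (FP.fst.comp (FP.fst.comp FP.fst)) (FP.fst.comp (FP.snd.comp FP.fst)))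
  have ht : FQ fun q : (Fr × (Cm × Un)) × List Un => topV q.1.2.1.1 (E q.2) :=
    fq_topV (FP.fst.comp (FP.fst.comp (FP.snd.comp FP.fst))) (hE.comp FP.snd)
  have hm : FP fun q : (Fr × (Cm × Un)) × List Un => q.1.2.2 :=
    FP.snd.comp (FP.snd.comp FP.fst)
  have hx : FQ fun q : (Fr × (Cm × Un)) × List Un =>
      (o (q.1.1.1, q.1.2.1) - topV q.1.2.1.1 (E q.2)) * (o (q.1.1.1, q.1.2.1))⁻¹ :=
    (ha.sub ht).mul (FQ.inv ha)
  have hv := (FQ.inv ha).mul (ci_geo hx hm)
  have hD : FP fun p : Fr × (Cm × Un) => p.2.2.flatMap fun _ => p.2.1.1.map fun _ => true := by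
    have h1 : FP fun p : Fr × (Cm × Un) => p.2.1.1.map fun _ => true :=
      fp_map (h := fun _ : (Fr × (Cm × Un)) × (ℕ × ℚ) => true)
        (FP.fst.comp (FP.fst.comp FP.snd)) (FP.const true)
    exact fp_flatMap (h := fun q : (Fr × (Cm × Un)) × Bool => q.1.2.1.1.map fun _ => true)
      (FP.snd.comp FP.snd) (h1.comp FP.fst)
  have hy : ∀ i < r, FM (fun p : Fr × (Cm × Un) => nF p.1) (fun p => Ok2 r p.2.1)
      (fun p => sub p.1.1 p.1.2 (cq p.2.1 i)) := by
    intro i _
    have h1 : FP fun p : Fr × (Cm × Un) => (p.1, p.2.1.2.getD i w0) :=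
      FP.pair FP.fst (fp_getD (FP.snd.comp (FP.fst.comp FP.snd)) i w0)
    exact (FM.comp fm_word h1).imp fun p hp => lo_getD hp i
  have key := FT.ofPoly r (n := fun p : Fr × (Cm × Un) => nF p.1)
    (P := fun p => Ok2 r p.2.1) (h := ciH) hD hv ?_ ?_ hy
  · refine key.congr fun p hp => ?_
    have h1 : sub p.1.1 p.1.2 (cw p.2.1) =
        aeval (fun j => if j < r then sub p.1.1 p.1.2 (cq p.2.1 j) else 0) (pw p.2.1.1) := by
      rw [cw_eq hp, comp_aeval_apply]
      congr 2
      funext j
      split_ifs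
      · rfl
      · exact map_zero _
    unfold invC ciH
    rw [map_sum]
    refine Finset.sum_congr rfl fun i _ => ?_
    simp only [map_mul, map_pow, map_sub, aeval_C, algebraMap_eq, h1]
  · intro p hp l _
    unfold ciH
    have hw : ∃ g : Fm, g.code = p.2.1.1 := hp.1
    have h1 : o (p.1.1, p.2.1) = eval (ptE p.1.1) (cw p.2.1) :=
      ho2 _ _ hw fun w hw' => (hp.2.2 w hw').1
    have h2 : topV p.2.1.1 (E l) = eval (ndp l) (pw p.2.1.1) := by
      rw [topV_eq _ hw, hE3]
    dsimp only
    rw [h1, h2, map_sum, Finset.mul_sum]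
    refine Finset.sum_congr rfl fun i _ => ?_
    rw [map_mul, map_pow, map_sub, eval_C, eval_C, mul_pow, pow_succ]
    have h3 : (eval (ptE p.1.1) (cw p.2.1) - eval (ndp l) (pw p.2.1.1)) =
        -1 * (eval (ndp l) (pw p.2.1.1) - eval (ptE p.1.1) (cw p.2.1)) := by ring
    rw [h3, mul_pow]
    ring
  · intro p hp
    unfold ciH
    have hlen : (p.2.2.flatMap fun _ => p.2.1.1.map fun _ => true).length =
        p.2.2.length * p.2.1.1.length := by
      rw [List.length_flatMap]
      simp
    rw [hlen]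
    refine totalDegree_finsetSum_le fun i hi => ?_
    refine (totalDegree_mul _ _).trans ?_
    rw [totalDegree_C, zero_add]
    refine (totalDegree_pow _ _).trans ?_
    refine Nat.mul_le_mul (Nat.lt_succ_iff.1 (Finset.mem_range.1 hi)) ?_
    exact (totalDegree_sub_C_le _ _).trans (degree_pw _ hp.1)

end Pool.Agent.PQR
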