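import Pool.Agent.PQ.Words
import Pool.Agent.PQ.Minor
import Pool.Agent.PQ.Atom

set_option autoImplicit false

/-!
# Formulas in a bounded number of quadratic polynomials: definitions

Interface of the project PQR (second part of PQ). A composite is a pair `c = (P, [q_0, q_1, ..])` of words; its polynomial
is `cw c = P(q_0, q_1, ..)`, the missing `q_j` are zero. `Ok2 r c`: `P` is a code, there are at most `r` words
`q_j`, all of them codes of formulas of degree at most two.
-/

namespace Pool.Agent.PQR

open MvPolynomial N487b59b3 N68a2faeb Pool.Agent.Helper22 Pool.Agent.Helper6.WB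
  Pool.Agent.Helper6.SP Pool.Agent.PQ

/-- the code of zero -/
def w0 : Wd := (Fm.const 0).code

/-- composites: a formula and the quadratic polynomials which are substituted for its variables -/
abbrev Cm := Wd × List Wd

/-- the polynomials to be substituted -/
noncomputable def cq (c : Cm) (j : ℕ) : MvPolynomial ℕ ℚ := pw (c.2.getD j w0)

/-- the polynomial of a composite -/
noncomputable def cw (c : Cm) : MvPolynomial ℕ ℚ := aeval (cq c) (pw c.1)

/-- formulas in at most `r` polynomials of degree at most two -/
def Ok2 (r : ℕ) (c : Cm) : Prop :=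
  (∃ g : Fm, g.code = c.1) ∧ c.2.length ≤ r ∧ ∀ w ∈ c.2, Lo w

/-- pairs of lists of composites -/
abbrev Qr := List Cm × List Cm

/-- the sum of the second list -/
noncomputable def SC (B : List Cm) : MvPolynomial ℕ ℚ := (B.map cw).sum

/-- the polynomial of a pair: the product of the first list times the sum of the second -/
noncomputable def FC (p : Qr) : MvPolynomial ℕ ℚ := (p.1.map cw).prod * SC p.2

/-- the promise -/
def GoodC (r : ℕ) (p : Qr) : Prop := (∀ c ∈ p.1, Ok2 r c) ∧ ∀ c ∈ p.2, Ok2 r c

/-- the truncated inverse of `sub e U (cw c)` -/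
noncomputable def invC (M : ℕ) (e : En) (U : List En) (c : Cm) : MvPolynomial ℕ ℚ :=
  ∑ i ∈ Finset.range (M + 1), C ((-1) ^ i * (eval (ptE e) (cw c))⁻¹ ^ (i + 1)) *
    (sub e U (cw c) - C (eval (ptE e) (cw c))) ^ i

/-- the entry of the reduced Jacobian matrix, `v` is the code of the variable -/
noncomputable def EC (M : ℕ) (e : En) (U : List En) (p : Qr) (v : ℕ) : MvPolynomial ℕ ℚ :=
  (p.1.map fun c => sub e U (pderiv (v - 3) (cw c)) * invC M e U c).sum * sub e U (SC p.2) +
    sub e U (pderiv (v - 3) (SC p.2))

/-- the Jacobian minor -/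
noncomputable def JC (m : ℕ) (I : List Qr) (V : List ℕ) : MvPolynomial ℕ ℚ :=
  (Matrix.of fun i j : Fin m => pderiv (V.getD j 0 - 3) (FC (I.getD i ([], [])))).det

/-- the reduced minor -/
noncomputable def DC (m M : ℕ) (e : En) (U : List En) (I : List Qr) (V : List ℕ) :
    MvPolynomial ℕ ℚ :=
  (Matrix.of fun i j : Fin m => EC M e U (I.getD i ([], [])) (V.getD j 0)).det

/-- unary numbers -/
def un (n : ℕ) : Un := List.replicate n true

end Pool.Agent.PQR
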