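import Pool.Agent.PQR.Interp

set_option autoImplicit false

/-!
PQR-Dense. The coefficients of a polynomial in `r` variables whose values at the grid are computable.

Plan: `units D` = the list of the unary numbers `un 0, .., un D.length` (for instance `D.inits`, or `D.zipIdx` with a filter;
`FP`), grid `= lpow (units (D a)) r` (`fp_lpow`, `mem_lpow`), `F a = grid.map fun e => (c_e, e)` with the element
of `c_e = ∑ l ∈ grid, (∏ i < r, W (D a, (e_i, l_i))) * val (a, l)` (`FQ.listSum`, `FQ.prod` over the constant `r`, elements of
an `FQ` function: `FQ.choose`, as `oF` in `PQ/OutG.lean`). Correctness: both sides are linear in `h a`; for a monomial `x^m` with support in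
`{0..r-1}` and all `m_i ≤ D`: `c_e = ∏ i < r, ∑ v ≤ D, W (D, e_i, v) nd v ^ m_i = [e = m]`
(`Finset.prod_univ_sum` or induction on `r` on lists); a monomial with a variable `≥ r` has value zero on the grid (`ndp` is zero there) and
the left side is zero. It may be easier to sum over `Fin r → Fin (D + 1)`: `(lpow P r)` as a list of lists, see
`Helper6/SP/FQ.lean`: `lpow`, `mem_lpow`; no duplicates: prove `(lpow P r).Nodup` from `P.Nodup`, or an
induction on `r` for sums over `lpow P (r + 1)`.
-/

namespace Pool.Agent.PQR

open MvPolynomial N487b59b3 N68a2faeb Pool.Agent.Helper22 Pool.Agent.Helper6.WB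
  Pool.Agent.Helper6.SP Pool.Agent.PQ

private theorem un_len' (n : ℕ) : (un n).length = n := by
  unfold un
  simp

/-- the unary number `i`, for `i ≤ n.length` -/
private def dnn (i : ℕ) (n : Un) : Un :=
  (List.range n.length).flatMap fun x => if decide (x + 1 ≤ i) then [true] else []

private theorem dnn_aux (i m : ℕ) : ((List.range m).flatMap fun x =>
    if decide (x + 1 ≤ i) then [true] else []) = List.replicate (min m i) true := by
  induction m with
  | zero => simp
  | succ m ih =>
    rw [List.range_succ, List.flatMap_append, ih, List.flatMap_cons, List.flatMap_nil,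
      List.append_nil]
    by_cases h : m + 1 ≤ i
    · rw [if_pos (decide_eq_true h), min_eq_left (by omega : m ≤ i), min_eq_left h,
        List.replicate_succ']
    · rw [if_neg (by simpa using h), List.append_nil, min_eq_right (by omega : i ≤ m),
        min_eq_right (by omega : i ≤ m + 1)]

private theorem dnn_eq {i : ℕ} {n : Un} (h : i ≤ n.length) : dnn i n = un i := by
  unfold dnn un
  rw [dnn_aux, min_eq_right h]

private theorem fp_dnn {α : Type} [N487b59b3 α] {f : α → ℕ} {g : α → Un} (hf : FP f)
    (hg : FP g) : FP fun a => dnn (f a) (g a) := by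
  have h1 : FP fun q : α × ℕ => if decide (q.2 + 1 ≤ f q.1) then [true] else [] :=
    FP.ite (Pool.Agent.Helper47.TR.FP.natLe (FP.natAdd FP.snd (FP.const 1)) (hf.comp FP.fst))
      (FP.const [true]) (FP.const [])
  exact fp_flatMap (f := fun a => List.range (g a).length) (FP.range hg) h1

/-- the unary numbers up to the length -/
private def units (n : Un) : List Un :=
  (List.range (true :: n).length).map fun i => dnn i n

private theorem fp_units : FP units := by
  have h1 : FP fun q : Un × ℕ => dnn q.2 q.1 := fp_dnn FP.snd FP.fst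
  exact fp_map (f := fun n : Un => List.range (true :: n).length)
    (FP.range (FP.cons (FP.const true) FP.id)) h1

private theorem units_eq (n : Un) : units n = (List.range (n.length + 1)).map un := by
  unfold units
  rw [List.length_cons]
  refine List.map_congr_left fun i hi => ?_
  rw [List.mem_range] at hi
  exact dnn_eq (by omega)

private theorem sum_list' {R : Type} [CommSemiring R] (f : ℕ → R) (n : ℕ) :
    ((List.range n).map f).sum = ∑ i ∈ Finset.range n, f i := by
  induction n with
  | zero => simp
  | succ n ih =>
    rw [List.range_succ, List.map_append, List.sum_append, ih, Finset.sum_range_succ]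
    simp

private theorem sum_units {R : Type} [CommSemiring R] (f : Un → R) (n : Un) :
    ((units n).map f).sum = ∑ v ∈ Finset.range (n.length + 1), f (un v) := by
  rw [units_eq, List.map_map, ← sum_list']
  rfl

private theorem sum_fm {β γ R : Type} [CommSemiring R] (L : List β) (f : β → List γ) (h : γ → R) :
    ((L.flatMap f).map h).sum = (L.map fun a => ((f a).map h).sum).sum := by
  induction L with
  | nil => simp
  | cons a L ih =>
    rw [List.flatMap_cons, List.map_append, List.sum_append, ih, List.map_cons, List.sum_cons]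

private theorem sum_lpow {β R : Type} [CommSemiring R] (P : List β) (d : β) (r : ℕ)
    (g : ℕ → β → R) :
    ((lpow P r).map fun l => ∏ i ∈ Finset.range r, g i (l.getD i d)).sum =
      ∏ i ∈ Finset.range r, (P.map (g i)).sum := by
  induction r generalizing g with
  | zero => simp [lpow]
  | succ r ih =>
    rw [lpow, Finset.prod_range_succ', ← ih (fun i => g (i + 1)), sum_fm,
      ← List.sum_map_mul_right]
    refine congrArg List.sum (List.map_congr_left fun m _ => ?_)
    rw [List.map_map, ← List.sum_map_mul_left]
    refine congrArg List.sum (List.map_congr_left fun p _ => ?_)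
    simp only [Function.comp_apply]
    rw [Finset.prod_range_succ']
    simp

/-- the right hand side is linear: the sum over the grid -/
private theorem grid_main (r : ℕ) (D : Un) (W : Un × (Un × Un) → ℚ)
    (hW : ∀ (D : Un) (e m : ℕ), e ≤ D.length → m ≤ D.length →
      ∑ v ∈ Finset.range (D.length + 1), W (D, (un e, un v)) * nd (un v) ^ m =
        if e = m then 1 else 0)
    (m : ℕ → ℕ) (hm : ∀ i, m i ≤ D.length) (y : ℕ → MvPolynomial ℕ ℚ) :
    ((lpow (units D) r).map fun e =>
      C ((lpow (units D) r).map fun l =>
        (∏ i ∈ Finset.range r, W (D, (e.getD i [], l.getD i []))) *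
          ∏ i ∈ Finset.range r, nd (l.getD i []) ^ m i).sum *
        ∏ i ∈ Finset.range r, y i ^ (e.getD i []).length).sum =
      ∏ i ∈ Finset.range r, y i ^ m i := by
  have h1 : ∀ e : List Un, ((lpow (units D) r).map fun l =>
        (∏ i ∈ Finset.range r, W (D, (e.getD i [], l.getD i []))) *
          ∏ i ∈ Finset.range r, nd (l.getD i []) ^ m i).sum =
      ∏ i ∈ Finset.range r, ∑ v ∈ Finset.range (D.length + 1),
        W (D, (e.getD i [], un v)) * nd (un v) ^ m i := by
    intro e
    have h2 := sum_lpow (units D) ([] : Un) r
      (fun i u => W (D, (e.getD i [], u)) * nd u ^ m i)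
    simp only [sum_units] at h2
    rw [← h2]
    refine congrArg List.sum (List.map_congr_left fun l _ => ?_)
    rw [Finset.prod_mul_distrib]
  have h3 : ∀ e ∈ lpow (units D) r, C ((lpow (units D) r).map fun l =>
        (∏ i ∈ Finset.range r, W (D, (e.getD i [], l.getD i []))) *
          ∏ i ∈ Finset.range r, nd (l.getD i []) ^ m i).sum *
        ∏ i ∈ Finset.range r, y i ^ (e.getD i []).length =
      ∏ i ∈ Finset.range r, (fun i (u : Un) => if u.length = m i then y i ^ u.length else 0) i
        (e.getD i []) := by
    intro e he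
    obtain ⟨h4, h5⟩ := mem_lpow.mp he
    rw [h1, map_prod, ← Finset.prod_mul_distrib]
    refine Finset.prod_congr rfl fun i hi => ?_
    rw [Finset.mem_range] at hi
    have h6 : e.getD i [] ∈ units D := by
      rw [List.getD_eq_getElem _ _ (by omega)]
      exact h5 _ (List.getElem_mem _)
    rw [units_eq, List.mem_map] at h6
    obtain ⟨k, hk, h7⟩ := h6
    rw [List.mem_range] at hk
    rw [← h7, hW D k (m i) (by omega) (hm i)]
    simp only [un_len']
    split_ifs
    · rw [C_1, one_mul]
    · rw [C_0, zero_mul]
  rw [List.map_congr_left h3, sum_lpow (units D) ([] : Un) r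
    (fun i (u : Un) => if u.length = m i then y i ^ u.length else 0)]
  refine Finset.prod_congr rfl fun i _ => ?_
  rw [sum_units]
  simp only [un_len']
  rw [Finset.sum_eq_single (m i)]
  · rw [if_pos rfl]
  · intro b _ hb
    rw [if_neg hb]
  · intro h
    exact absurd (Finset.mem_range.mpr (by have := hm i; omega)) h

private theorem ndp_mon {r : ℕ} {l : List Un} (hl : l.length = r) (m : ℕ →₀ ℕ) (c : ℚ)
    (hs : ∀ i, m i ≠ 0 → i < r) :
    eval (ndp l) (monomial m c) = c * ∏ i ∈ Finset.range r, nd (l.getD i []) ^ m i := by
  rw [eval_monomial, Finsupp.prod_of_support_subset m (s := Finset.range r)]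
  · congr 1
    refine Finset.prod_congr rfl fun i hi => ?_
    rw [Finset.mem_range] at hi
    unfold ndp
    rw [if_pos (by omega)]
  · intro i hi
    rw [Finsupp.mem_support_iff] at hi
    exact Finset.mem_range.mpr (hs i hi)
  · intro i _
    exact pow_zero _

private theorem dense_mon (r : ℕ) (D : Un) (W : Un × (Un × Un) → ℚ)
    (hW : ∀ (D : Un) (e m : ℕ), e ≤ D.length → m ≤ D.length →
      ∑ v ∈ Finset.range (D.length + 1), W (D, (un e, un v)) * nd (un v) ^ m =
        if e = m then 1 else 0)
    (m : ℕ →₀ ℕ) (c : ℚ) (hm : ∀ i, m i ≤ D.length) (y : ℕ → MvPolynomial ℕ ℚ) :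
    aeval (fun j => if j < r then y j else 0) (monomial m c) =
    ((lpow (units D) r).map fun e =>
      C ((lpow (units D) r).map fun l =>
        (∏ i ∈ Finset.range r, W (D, (e.getD i [], l.getD i []))) *
          eval (ndp l) (monomial m c)).sum *
        ∏ i ∈ Finset.range r, y i ^ (e.getD i []).length).sum := by
  by_cases hs : ∀ i, m i ≠ 0 → i < r
  · have h1 := grid_main r D W hW m hm y
    have h2 : aeval (fun j => if j < r then y j else 0) (monomial m c) =
        C c * ∏ i ∈ Finset.range r, y i ^ m i := by
      rw [aeval_monomial, Finsupp.prod_of_support_subset m (s := Finset.range r)]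
      · rw [algebraMap_eq]
        congr 1
        refine Finset.prod_congr rfl fun i hi => ?_
        rw [Finset.mem_range] at hi
        rw [if_pos hi]
      · intro i hi
        rw [Finsupp.mem_support_iff] at hi
        exact Finset.mem_range.mpr (hs i hi)
      · intro i _
        exact pow_zero _
    rw [h2, ← h1, ← List.sum_map_mul_left]
    refine congrArg List.sum (List.map_congr_left fun e _ => ?_)
    rw [← mul_assoc, ← C_mul, ← List.sum_map_mul_left]
    congr 2
    refine congrArg List.sum (List.map_congr_left fun l hl => ?_)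
    rw [ndp_mon (mem_lpow.mp hl).1 m c hs]
    ring
  · push Not at hs
    obtain ⟨i, hi, hr⟩ := hs
    have h2 : aeval (fun j => if j < r then y j else 0) (monomial m c) =
        (0 : MvPolynomial ℕ ℚ) := by
      rw [aeval_monomial, Finsupp.prod,
        Finset.prod_eq_zero (Finsupp.mem_support_iff.mpr hi), mul_zero]
      rw [if_neg (by omega), zero_pow hi]
    rw [h2]
    symm
    refine List.sum_eq_zero fun x hx => ?_
    obtain ⟨e, _, rfl⟩ := List.mem_map.mp hx
    have h3 : ((lpow (units D) r).map fun l =>
        (∏ i ∈ Finset.range r, W (D, (e.getD i [], l.getD i []))) *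
          eval (ndp l) (monomial m c)).sum = 0 := by
      refine List.sum_eq_zero fun x hx => ?_
      obtain ⟨l, hl, rfl⟩ := List.mem_map.mp hx
      have h4 : eval (ndp l) (monomial m c) = 0 := by
        rw [eval_monomial, Finsupp.prod,
          Finset.prod_eq_zero (Finsupp.mem_support_iff.mpr hi), mul_zero]
        unfold ndp
        rw [if_neg (by have := (mem_lpow.mp hl).1; omega), zero_pow hi]
      rw [h4, mul_zero]
    rw [h3, C_0, zero_mul]

private theorem dense_all (r : ℕ) (D : Un) (W : Un × (Un × Un) → ℚ)
    (hW : ∀ (D : Un) (e m : ℕ), e ≤ D.length → m ≤ D.length →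
      ∑ v ∈ Finset.range (D.length + 1), W (D, (un e, un v)) * nd (un v) ^ m =
        if e = m then 1 else 0)
    (q : MvPolynomial ℕ ℚ) (hq : q.totalDegree ≤ D.length) (y : ℕ → MvPolynomial ℕ ℚ) :
    aeval (fun j => if j < r then y j else 0) q =
    ((lpow (units D) r).map fun e =>
      C ((lpow (units D) r).map fun l =>
        (∏ i ∈ Finset.range r, W (D, (e.getD i [], l.getD i []))) *
          eval (ndp l) q).sum *
        ∏ i ∈ Finset.range r, y i ^ (e.getD i []).length).sum := by
  set B : MvPolynomial ℕ ℚ →+ MvPolynomial ℕ ℚ :=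
    { toFun := fun q => ((lpow (units D) r).map fun e =>
        C ((lpow (units D) r).map fun l =>
          (∏ i ∈ Finset.range r, W (D, (e.getD i [], l.getD i []))) *
            eval (ndp l) q).sum *
          ∏ i ∈ Finset.range r, y i ^ (e.getD i []).length).sum
      map_zero' := by
        simp
      map_add' := by
        intro p q
        simp only [map_add, mul_add, List.sum_map_add, add_mul] } with hB
  show _ = B q
  conv_lhs => rw [q.as_sum]
  conv_rhs => rw [q.as_sum]
  rw [map_sum, map_sum]
  refine Finset.sum_congr rfl fun m hm => ?_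
  rw [dense_mon r D W hW m (coeff m q) (fun i => ?_) y]
  · rfl
  · refine le_trans ?_ hq
    refine le_trans ?_ (le_totalDegree hm)
    by_cases h : i ∈ m.support
    · exact Finset.single_le_sum (f := fun i => m i) (fun _ _ => Nat.zero_le _) h
    · rw [Finsupp.notMem_support_iff.mp h]
      exact Nat.zero_le _

theorem exists_dense (r : ℕ) {α : Type} [N487b59b3 α] {P : α → Prop}
    {h : α → MvPolynomial ℕ ℚ} {D : α → Un} {val : α × List Un → ℚ} (hD : FP D) (hv : FQ val)
    (hval : ∀ a, P a → ∀ l : List Un, l.length = r → val (a, l) = eval (ndp l) (h a))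
    (hdeg : ∀ a, P a → (h a).totalDegree ≤ (D a).length) :
    ∃ F : α → List (El × List Un), FP F ∧ ∀ a, P a →
      (∀ t ∈ F a, t.1.2 ≠ 0 ∧ t.2.length = r) ∧
      ∀ y : ℕ → MvPolynomial ℕ ℚ, aeval (fun j => if j < r then y j else 0) (h a) =
        ((F a).map fun t => C (toQ t.1) *
          ∏ i ∈ Finset.range r, y i ^ (t.2.getD i []).length).sum := by
  obtain ⟨W, hW1, hW2⟩ := exists_weights
  have g1 : FP fun a => lpow (units (D a)) r := fp_lpow (fp_units.comp hD) r
  have c1 : FQ fun p : (α × List Un) × List Un =>
      (∏ i ∈ Finset.range r, W (D p.1.1, (p.1.2.getD i [], p.2.getD i []))) *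
        val (p.1.1, p.2) := by
    refine FQ.mul (FQ.prod _ fun i => ?_) ?_
    · exact hW1.comp (g := fun p : (α × List Un) × List Un =>
        (D p.1.1, (p.1.2.getD i [], p.2.getD i [])))
        ((hD.comp (FP.fst.comp FP.fst)).pair
          ((fp_getD (FP.snd.comp FP.fst) i []).pair (fp_getD FP.snd i [])))
    · exact hv.comp (g := fun p : (α × List Un) × List Un => (p.1.1, p.2))
        ((FP.fst.comp FP.fst).pair FP.snd)
  have c2 : FQ fun q : α × List Un => ((lpow (units (D q.1)) r).map fun l =>
      (∏ i ∈ Finset.range r, W (D q.1, (q.2.getD i [], l.getD i []))) * val (q.1, l)).sum :=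
    (FQ.listSum c1).comp (g := fun q : α × List Un => (q, lpow (units (D q.1)) r))
      (FP.id.pair (g1.comp FP.fst))
  obtain ⟨cF, c3, c4, c5⟩ := c2
  refine ⟨fun a => (lpow (units (D a)) r).map fun e => (cF (a, e), e),
    fp_map (h := fun q : α × List Un => (cF q, q.2)) g1 (c3.pair FP.snd), ?_⟩
  intro a ha
  refine ⟨?_, ?_⟩
  · intro t ht
    obtain ⟨e, he, rfl⟩ := List.mem_map.mp ht
    exact ⟨c4 _, (mem_lpow.mp he).1⟩
  · intro y
    rw [dense_all r (D a) W hW2 (h a) (hdeg a ha) y, List.map_map]
    refine congrArg List.sum (List.map_congr_left fun e _ => ?_)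
    simp only [Function.comp_apply]
    rw [c5]
    simp only
    congr 2
    refine congrArg List.sum (List.map_congr_left fun l hl => ?_)
    rw [hval a ha l (mem_lpow.mp hl).1]

end Pool.Agent.PQR
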