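import Pool.Agent.PQR.CompA

set_option autoImplicit false

/-!
PQR-OutC. Evaluation of the composition at a point, and the list of the values, in polynomial time.
-/

namespace Pool.Agent.PQR

open MvPolynomial N487b59b3 N68a2faeb Pool.Agent.Helper22 Pool.Agent.Helper6.WB
  Pool.Agent.Helper6.SP Pool.Agent.PQ

/-- all composites of the input -/
def csC (L : List Qr) : List Cm := L.flatMap fun p => p.1 ++ p.2

theorem fp_csC : FP csC := by
  have h1 : FP fun q : List Qr × Qr => q.2.1 ++ q.2.2 := by fun_prop
  have h2 : FP fun L : List Qr => L.flatMap fun p =>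
      (fun q : List Qr × Qr => q.2.1 ++ q.2.2) (L, p) := fp_flatMap FP.id h1
  exact h2

/-- the words whose variables are the variables of the input -/
def nmC (L : List Qr) : Inp := (csC L).map Prod.snd

theorem fp_nmC : FP nmC := by
  have h1 : FP fun q : List Qr × Cm => q.2.2 := by fun_prop
  have h2 : FP fun L : List Qr => (csC L).map fun c =>
      (fun q : List Qr × Cm => q.2.2) (L, c) := fp_map fp_csC h1
  exact h2

/-- all words of the input -/
def allC (L : List Qr) : Inp := (csC L).map fun c => c.1 :: c.2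

theorem fp_allC : FP allC := by
  have h1 : FP fun q : List Qr × Cm => q.2.1 :: q.2.2 := by fun_prop
  have h2 : FP fun L : List Qr => (csC L).map fun c =>
      (fun q : List Qr × Cm => q.2.1 :: q.2.2) (L, c) := fp_map fp_csC h1
  exact h2

/-- all words of the input are codes -/
def CodesC (L : List Qr) : Prop := ∀ l ∈ allC L, ∀ w ∈ l, ∃ g : Fm, g.code = w

/-- the composition -/
noncomputable def cmpC (Q : Fm) (L : List Qr) : MvPolynomial ℕ ℚ :=
  aeval (fun j => FC (L.getD j ([], []))) Q.poly

/-- the value of a composite -/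
private noncomputable def oC : En × Cm → ℚ := exists_vC.choose

private theorem fq_oC : FQ oC := exists_vC.choose_spec.1

private theorem oC_eq (e : En) (c : Cm) (h : ∃ g : Fm, g.code = c.1)
    (h' : ∀ w ∈ c.2, ∃ g : Fm, g.code = w) : oC (e, c) = eval (ptE e) (cw c) :=
  exists_vC.choose_spec.2 e c h h'

/-- the value of a pair at an environment -/
private noncomputable def oV (q : En × Qr) : ℚ :=
  (q.2.1.map fun c => oC (q.1, c)).prod * (q.2.2.map fun c => oC (q.1, c)).sum

private theorem fq_oV : FQ oV := by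
  have h0 : FQ fun p : En × List Cm => (p.2.map fun c => oC (p.1, c)).prod :=
    FQ.listProd fq_oC
  have h1 : FQ fun q : En × Qr => (q.2.1.map fun c => oC (q.1, c)).prod :=
    h0.comp (g := fun q : En × Qr => (q.1, q.2.1)) (by fun_prop)
  have h2 : FQ fun p : En × List Cm => (p.2.map fun c => oC (p.1, c)).sum :=
    FQ.listSum fq_oC
  have h3 : FQ fun q : En × Qr => (q.2.2.map fun c => oC (q.1, c)).sum :=
    h2.comp (g := fun q : En × Qr => (q.1, q.2.2)) (by fun_prop)
  exact h1.mul h3

/-- the value as an element -/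
private noncomputable def oF : En × Qr → El := fq_oV.choose

private theorem fp_oF : FP oF := fq_oV.choose_spec.1

private theorem toQ_oF (q : En × Qr) : toQ (oF q) = oV q := fq_oV.choose_spec.2.2 q

/-- the environment of the values -/
private noncomputable def oEnv (p : En × List Qr) : En :=
  p.2.zipIdx.map fun q => (q.2 + 3, oF (p.1, q.1))

private theorem fp_oEnv : FP oEnv := by
  have h1 : FP fun r : (En × List Qr) × (Qr × ℕ) => ((r.2.2 + 3, oF (r.1.1, r.2.1)) : ℕ × El) :=
    FP.pair (Pool.Agent.Helper6.WB.FP.natAdd (by fun_prop) (FP.const 3))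
      (fp_oF.comp (f := fun r : (En × List Qr) × (Qr × ℕ) => (r.1.1, r.2.1)) (by fun_prop))
  exact fp_map (fp_zipIdx FP.snd) h1

private theorem oV_eq (E : En) (p : Qr)
    (h : ∀ c ∈ p.1 ++ p.2, ∀ w ∈ c.1 :: c.2, ∃ g : Fm, g.code = w) :
    oV (E, p) = eval (ptE E) (FC p) := by
  have h1 : ∀ c ∈ p.1 ++ p.2, oC (E, c) = eval (ptE E) (cw c) := fun c hc =>
    oC_eq E c (h c hc _ List.mem_cons_self) fun w hw => h c hc w (List.mem_cons_of_mem _ hw)
  unfold oV FC SC
  rw [map_mul, map_list_sum, map_list_prod, List.map_map, List.map_map]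
  simp only
  congr 2
  · exact List.map_congr_left fun c hc => h1 c (List.mem_append_left _ hc)
  · exact List.map_congr_left fun c hc => h1 c (List.mem_append_right _ hc)

private theorem mem_csC {L : List Qr} {p : Qr} (hp : p ∈ L) {c : Cm} (hc : c ∈ p.1 ++ p.2) :
    c ∈ csC L := List.mem_flatMap.mpr ⟨p, hp, hc⟩

private theorem mem_allC {L : List Qr} {p : Qr} (hp : p ∈ L) {c : Cm} (hc : c ∈ p.1 ++ p.2) :
    c.1 :: c.2 ∈ allC L := List.mem_map.mpr ⟨c, mem_csC hp hc, rfl⟩

private theorem FC_nil : FC ([], []) = 0 := by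
  simp [FC, SC]

private theorem ptE_oEnv (E : En) (L : List Qr) (hL : CodesC L) (i : ℕ) :
    ptE (oEnv (E, L)) i = eval (ptE E) (FC (L.getD i ([], []))) := by
  rw [ptE, lookE]
  by_cases hi : i < L.length
  · rw [lookE_aux (oEnv (E, L)) (i + 3) (oF (E, L[i])), toQ_oF, List.getD_eq_getElem _ _ hi]
    · exact oV_eq E _ fun c hc w hw => hL _ (mem_allC (List.getElem_mem hi) hc) w hw
    · intro q hq hqi
      unfold oEnv at hq
      obtain ⟨⟨w, j⟩, hw, rfl⟩ := List.mem_map.mp hq
      rw [List.mem_zipIdx_iff_getElem?] at hw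
      simp only at hqi hw ⊢
      have h1 : j = i := by omega
      subst h1
      obtain ⟨h2, h3⟩ := List.getElem?_eq_some_iff.mp hw
      rw [← h3]
    · right
      refine ⟨(i + 3, oF (E, L[i])), ?_, rfl⟩
      unfold oEnv
      rw [List.mem_map]
      refine ⟨(L[i], i), ?_, rfl⟩
      rw [List.mem_zipIdx_iff_getElem?]
      exact List.getElem?_eq_getElem hi
  · rw [lookE_aux (oEnv (E, L)) (i + 3) e0, List.getD_eq_default _ _ (not_lt.mp hi), FC_nil,
      map_zero]
    · simp [toQ, e0]
    · intro q hq hqi
      unfold oEnv at hq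
      obtain ⟨⟨w, j⟩, hw, rfl⟩ := List.mem_map.mp hq
      rw [List.mem_zipIdx_iff_getElem?] at hw
      simp only at hqi hw
      obtain ⟨h2, h3⟩ := List.getElem?_eq_some_iff.mp hw
      omega
    · exact Or.inl rfl

theorem exists_outC : ∃ o : En × (Wd × List Qr) → ℚ, FQ o ∧
    ∀ (E : En) (Q : Fm) (L : List Qr), CodesC L →
      o (E, (Q.code, L)) = eval (ptE E) (cmpC Q L) := by
  refine ⟨fun p => topV p.2.1 (oEnv (p.1, p.2.2)), ?_, ?_⟩
  · exact fq_topV (f := fun p : En × (Wd × List Qr) => p.2.1)
      (g := fun p : En × (Wd × List Qr) => oEnv (p.1, p.2.2)) (by fun_prop)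
      (fp_oEnv.comp (f := fun p : En × (Wd × List Qr) => (p.1, p.2.2)) (by fun_prop))
  · intro E Q L hL
    simp only
    rw [topV_code, cmpC]
    induction Q with
    | const q =>
      simp only [Fm.ev, Fm.poly]
      rw [← algebraMap_eq, AlgHom.commutes, algebraMap_eq, eval_C]
    | var i =>
      simp only [Fm.ev, Fm.poly, aeval_X]
      exact ptE_oEnv E L hL i
    | add F G ihF ihG => simp only [Fm.ev, Fm.poly, map_add, ihF, ihG]
    | mul F G ihF ihG => simp only [Fm.ev, Fm.poly, map_mul, ihF, ihG]

theorem exists_gridC (k : ℕ) : ∃ G : Wd × List Qr → List ℕ, FP G ∧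
    ∀ (p : Wd × List Qr) (v : ℕ),
      v ≤ (p.1.length + k + 1) * (2 * ((toks (allC p.2)).length + 1) ^ 2) → v ∈ G p := by
  have h1 : FP fun p : Wd × List Qr => (toks (allC p.2)).map fun t =>
      (fun _ : (Wd × List Qr) × (ℕ × ℚ) => true) (p, t) :=
    fp_map (fp_toks.comp (fp_allC.comp FP.snd)) (FP.const true)
  have h2 : FP fun p : Wd × List Qr => p.1.map fun t =>
      (fun _ : (Wd × List Qr) × (ℕ × ℚ) => true) (p, t) :=
    fp_map FP.fst (FP.const true)
  have h3 := FP.append h2 (FP.const (List.replicate (k + 1) true))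
  have h4 := FP.cons (FP.const true) h1
  have h5 := FP.unMul (FP.unMul (FP.const [true, true]) h4) h4
  have h6 := FP.cons (FP.const true) (FP.unMul h3 h5)
  refine ⟨_, FP.range h6, ?_⟩
  intro p v hv
  rw [List.mem_range]
  simp only [List.length_cons, List.length_append, Helper22.un_length, List.length_map,
    List.length_replicate, List.length_nil]
  have e : (p.1.length + (k + 1)) * ((0 + 1 + 1) * ((toks (allC p.2)).length + 1) *
      ((toks (allC p.2)).length + 1)) =
      (p.1.length + k + 1) * (2 * ((toks (allC p.2)).length + 1) ^ 2) := by ring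
  omega

private theorem deg_aev (Q : Fm) (f : ℕ → MvPolynomial ℕ ℚ) (D : ℕ)
    (h : ∀ j, (f j).totalDegree ≤ D) : (aeval f Q.poly).totalDegree ≤ Q.size * D := by
  induction Q with
  | const q =>
    simp only [Fm.poly]
    rw [← algebraMap_eq, AlgHom.commutes, algebraMap_eq, totalDegree_C]
    exact Nat.zero_le _
  | var i =>
    simp only [Fm.poly, aeval_X, Fm.size, one_mul]
    exact h i
  | add F G ihF ihG =>
    simp only [Fm.poly, map_add, Fm.size, Nat.add_mul]
    exact (totalDegree_add _ _).trans (max_le (ihF.trans (Nat.le_add_right _ _))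
      (ihG.trans (Nat.le_add_left _ _)))
  | mul F G ihF ihG =>
    simp only [Fm.poly, map_mul, Fm.size, Nat.add_mul]
    exact (totalDegree_mul _ _).trans (Nat.add_le_add ihF ihG)

private theorem deg_cw {r : ℕ} {c : Cm} (h : Ok2 r c) : (cw c).totalDegree ≤ 2 * c.1.length := by
  obtain ⟨g, hg⟩ := h.1
  unfold cw
  rw [← hg, pw_code]
  refine (deg_aev g (cq c) 2 fun j => (lo_getD h j).2).trans ?_
  have := size_le_code g
  omega

/-- the number of tokens of the words of a list of composites -/
private def nt (l : List Cm) : ℕ := (toks (l.map fun c => c.1 :: c.2)).length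

private theorem nt_nil : nt [] = 0 := rfl

private theorem nt_append (l l' : List Cm) : nt (l ++ l') = nt l + nt l' := by
  unfold nt toks
  rw [List.map_append, List.flatten_append, List.flatten_append, List.length_append]

private theorem nt_cons (c : Cm) (l : List Cm) : c.1.length + nt l ≤ nt (c :: l) := by
  have h1 : nt (c :: l) = (c.1 :: c.2).flatten.length + nt l := by
    unfold nt toks
    rw [List.map_cons, List.flatten_cons, List.flatten_append, List.length_append]
  rw [h1, List.flatten_cons, List.length_append]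
  omega

private theorem deg_prC {r : ℕ} (l : List Cm) (h : ∀ c ∈ l, Ok2 r c) :
    (l.map cw).prod.totalDegree ≤ 2 * nt l := by
  induction l with
  | nil => simp
  | cons c l ih =>
    rw [List.map_cons, List.prod_cons]
    refine (totalDegree_mul _ _).trans ?_
    have h1 := deg_cw (h c List.mem_cons_self)
    have h3 := ih fun c' hc' => h c' (List.mem_cons_of_mem _ hc')
    have h4 := nt_cons c l
    omega

private theorem deg_smC {r : ℕ} (l : List Cm) (h : ∀ c ∈ l, Ok2 r c) :
    (SC l).totalDegree ≤ 2 * nt l := by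
  induction l with
  | nil => simp [SC]
  | cons c l ih =>
    have h0 : SC (c :: l) = cw c + SC l := by
      unfold SC
      rw [List.map_cons, List.sum_cons]
    rw [h0]
    have h1 := deg_cw (h c List.mem_cons_self)
    have h3 := ih fun c' hc' => h c' (List.mem_cons_of_mem _ hc')
    have h4 := nt_cons c l
    refine (totalDegree_add _ _).trans (max_le ?_ ?_) <;> omega

private theorem deg_FC {r : ℕ} (p : Qr) (h : GoodC r p) :
    (FC p).totalDegree ≤ 2 * nt (p.1 ++ p.2) := by
  unfold FC
  refine (totalDegree_mul _ _).trans ?_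
  have h1 := deg_prC p.1 h.1
  have h2 := deg_smC p.2 h.2
  rw [nt_append]
  omega

private theorem nt_le {L : List Qr} {p : Qr} (hp : p ∈ L) : nt (p.1 ++ p.2) ≤ nt (csC L) := by
  induction L with
  | nil => simp at hp
  | cons q L ih =>
    have h1 : nt (csC (q :: L)) = nt (q.1 ++ q.2) + nt (csC L) := by
      unfold csC
      rw [List.flatMap_cons, nt_append]
    rcases List.mem_cons.mp hp with rfl | hp
    · omega
    · have := ih hp
      omega

theorem totalDegree_cmpC {r : ℕ} (Q : Fm) (L : List Qr) (h : ∀ p ∈ L, GoodC r p) :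
    (cmpC Q L).totalDegree ≤ Q.code.length * (2 * (toks (allC L)).length) := by
  refine le_trans ?_ (Nat.mul_le_mul_right _ (size_le_code Q))
  rw [cmpC]
  apply deg_aev
  intro i
  by_cases hi : i < L.length
  · rw [List.getD_eq_getElem _ _ hi]
    refine (deg_FC _ (h _ (List.getElem_mem hi))).trans ?_
    exact Nat.mul_le_mul_left _ (nt_le (List.getElem_mem hi))
  · rw [List.getD_eq_default _ _ (not_lt.mp hi), FC_nil, totalDegree_zero]
    exact Nat.zero_le _

theorem cmpC_mem (Q : Fm) (L : List Qr) : cmpC Q L ∈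
    Algebra.adjoin ℚ (Set.range fun j : Fin L.length => FC (L.get j)) := by
  rw [cmpC]
  induction Q with
  | const q =>
    simp only [Fm.poly]
    rw [← algebraMap_eq, AlgHom.commutes]
    exact Subalgebra.algebraMap_mem _ _
  | var i =>
    simp only [Fm.poly, aeval_X]
    by_cases h : i < L.length
    · rw [List.getD_eq_getElem _ _ h]
      exact Algebra.subset_adjoin ⟨⟨i, h⟩, rfl⟩
    · rw [List.getD_eq_default _ _ (not_lt.mp h), FC_nil]
      exact Subalgebra.zero_mem _
  | add F G ihF ihG =>
    simp only [Fm.poly, map_add]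
    exact Subalgebra.add_mem _ ihF ihG
  | mul F G ihF ihG =>
    simp only [Fm.poly, map_mul]
    exact Subalgebra.mul_mem _ ihF ihG

end Pool.Agent.PQR
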