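import Pool.Agent.PQR.Defs
import Pool.Agent.PQ.SrchM

set_option autoImplicit false

/-!
PQR-SearchC. The search of a direction, coordinate by coordinate (as `PQ/Search.lean`, `PQ/SrchC.lean`).
-/

namespace Pool.Agent.PQR

open MvPolynomial N487b59b3 N68a2faeb Pool.Agent.Helper22 Pool.Agent.Helper6.WB
  Pool.Agent.Helper6.SP Pool.Agent.PQ

/-- context of the search: base point, rows, columns, values -/
abbrev ScC := (En × (List Qr × List ℕ)) × List ℕ

/-- the new coordinate; `ns` is the list of the remaining variables -/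
def pickC (g : Fr × (List Qr × List ℕ) → Bool) (x : ScC) (c : ℕ) (ns : List ℕ) (u : En) : ℕ :=
  (x.2.flatMap fun v => if g ((x.1.1, stepU c v u :: ns.map unitE), x.1.2) then [] else [v]).headD 0

/-- one step -/
def srFC (g : Fr × (List Qr × List ℕ) → Bool) (p : List ℕ × (ScC × En)) : ScC × En :=
  (p.2.1, stepU (p.1.headD 0) (pickC g p.2.1 (p.1.headD 0) p.1.tail p.2.2) p.2.2)

/-- the search -/
def srchC (g : Fr × (List Qr × List ℕ) → Bool) (x : ScC) (ns : List ℕ) : En :=
  (loopList (srFC g) ns (x, [])).2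

private theorem headD_mem_of {α : Type} (l : List α) (d a : α) (h : a ∈ l) : l.headD d ∈ l := by
  cases l with
  | nil => simp at h
  | cons b l => simp

private theorem pick_spec (g : Fr × (List Qr × List ℕ) → Bool) (x : ScC) (c : ℕ) (ns : List ℕ)
    (u : En) (v : ℕ) (hv : v ∈ x.2)
    (hgv : g ((x.1.1, stepU c v u :: ns.map unitE), x.1.2) = false) :
    g ((x.1.1, stepU c (pickC g x c ns u) u :: ns.map unitE), x.1.2) = false := by
  have hmem : v ∈ (x.2.flatMap fun v =>
      if g ((x.1.1, stepU c v u :: ns.map unitE), x.1.2) then [] else [v]) := by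
    rw [List.mem_flatMap]
    exact ⟨v, hv, by simp [hgv]⟩
  have h2 : pickC g x c ns u ∈ (x.2.flatMap fun v =>
      if g ((x.1.1, stepU c v u :: ns.map unitE), x.1.2) then [] else [v]) :=
    headD_mem_of _ 0 v hmem
  rw [List.mem_flatMap] at h2
  obtain ⟨w, -, hw⟩ := h2
  cases hb : g ((x.1.1, stepU c w u :: ns.map unitE), x.1.2) with
  | true => simp [hb] at hw
  | false =>
    simp only [hb, Bool.false_eq_true, if_false, List.mem_singleton] at hw
    rw [hw]
    exact hb

private theorem srch_aux (g : Fr × (List Qr × List ℕ) → Bool) (x : ScC)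
    (J : MvPolynomial ℕ ℚ) (hg : ∀ U, g ((x.1.1, U), x.1.2) = true ↔ sub x.1.1 U J = 0)
    (hG : ∀ v ≤ J.totalDegree, v ∈ x.2) (ns : List ℕ) :
    ∀ u : En, ns.Nodup → (∀ c ∈ ns, 3 ≤ c) → (∀ p ∈ u, p.1 ∉ ns) →
      sub x.1.1 (u :: ns.map unitE) J ≠ 0 →
      sub x.1.1 [(loopList (srFC g) ns (x, u)).2] J ≠ 0 := by
  induction ns with
  | nil =>
    intro u _ _ _ h
    simpa [loopList] using h
  | cons c ns ih =>
    intro u hnd h3 hu h
    obtain ⟨i, rfl⟩ : ∃ i, c = i + 3 := ⟨c - 3, by
      have := h3 c (by simp)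
      omega⟩
    obtain ⟨v, hv, hne⟩ := search_step J x.1.1 u i ns
      (fun p hp h' => hu p hp (by rw [h']; simp)) (by simpa using h)
    have hgv : g ((x.1.1, stepU (i + 3) v u :: ns.map unitE), x.1.2) = false := by
      cases hb : g ((x.1.1, stepU (i + 3) v u :: ns.map unitE), x.1.2) with
      | true => exact absurd ((hg _).1 hb) hne
      | false => rfl
    have hp := pick_spec g x (i + 3) ns u v (hG v hv) hgv
    have hne2 : sub x.1.1 (stepU (i + 3) (pickC g x (i + 3) ns u) u :: ns.map unitE) J ≠ 0 := by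
      intro h0
      rw [(hg _).2 h0] at hp
      exact Bool.noConfusion hp
    have hstep : loopList (srFC g) ((i + 3) :: ns) (x, u) =
        loopList (srFC g) ns (x, stepU (i + 3) (pickC g x (i + 3) ns u) u) := by
      rw [loopList]
      simp [srFC]
    rw [hstep]
    refine ih _ (List.nodup_cons.1 hnd).2 (fun c hc => h3 c (by simp [hc])) ?_ hne2
    intro p hp'
    rw [stepU, List.mem_append] at hp'
    rcases hp' with hp' | hp'
    · exact fun h' => hu p hp' (by simp [h'])
    · simp only [List.mem_singleton] at hp'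
      rw [hp']
      exact (List.nodup_cons.1 hnd).1

/-- **the search finds a good direction** -/
theorem srchC_spec (g : Fr × (List Qr × List ℕ) → Bool) (x : ScC) (ns : List ℕ)
    (J : MvPolynomial ℕ ℚ) (hg : ∀ U, g ((x.1.1, U), x.1.2) = true ↔ sub x.1.1 U J = 0)
    (hJ : J ≠ 0) (hns : ns.Nodup) (h3 : ∀ c ∈ ns, 3 ≤ c) (hv : ∀ i ∈ J.vars, i + 3 ∈ ns)
    (hG : ∀ v ≤ J.totalDegree, v ∈ x.2) :
    sub x.1.1 [srchC g x ns] J ≠ 0 :=
  srch_aux g x J hg hG ns [] hns h3 (by simp) (search_init J hJ x.1.1 ns hns h3 hv)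

end Pool.Agent.PQR
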