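import Pool.Agent.PQR.OracleC
import Pool.Agent.PQR.SearchC
import Pool.Agent.PQR.SrchFC
import Pool.Agent.PQR.BaseC
import Pool.Agent.PQR.OutC
import Pool.Agent.PQ.Faith
import Pool.Agent.PQ.PtG

set_option autoImplicit false

/-!
PQR-FinalC. The algorithm for formulas in a bounded number of quadratic polynomials (as `PQ/Final.lean`).
-/

namespace Pool.Agent.PQR

open MvPolynomial N487b59b3 N68a2faeb Pool.Agent.Helper22 Pool.Agent.Helper6.WB
  Pool.Agent.Helper6.SP Pool.Agent.PQ

/-! ### generalities -/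

private theorem fin_any {α : Type} [N487b59b3 α] (f : ℕ → α → Bool) (hf : ∀ m, FP (f m)) (k : ℕ) :
    ∃ g : α → Bool, FP g ∧ ∀ a, g a = true ↔ ∃ m ≤ k, f m a = true := by
  induction k with
  | zero =>
    refine ⟨f 0, hf 0, fun a => ⟨fun h => ⟨0, le_refl _, h⟩, ?_⟩⟩
    rintro ⟨m, hm, h⟩
    rwa [Nat.le_zero.1 hm] at h
  | succ k ih =>
    obtain ⟨g, hg, h⟩ := ih
    refine ⟨fun a => g a || f (k + 1) a, FP.or hg (hf _), fun a => ?_⟩
    rw [Bool.or_eq_true, h]
    constructor
    · rintro (⟨m, hm, h1⟩ | h1)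
      · exact ⟨m, Nat.le_succ_of_le hm, h1⟩
      · exact ⟨k + 1, le_refl _, h1⟩
    · rintro ⟨m, hm, h1⟩
      rcases Nat.lt_or_ge m (k + 1) with h2 | h2
      · exact Or.inl ⟨m, Nat.lt_succ_iff.1 h2, h1⟩
      · right
        rwa [le_antisymm hm h2] at h1

/-- all pairs of members of two lists -/
private def prs (a b : List ℕ) : List (ℕ × ℕ) := a.flatMap fun v => b.map fun y => (v, y)

private theorem mem_prs {a b : List ℕ} {q : ℕ × ℕ} : q ∈ prs a b ↔ q.1 ∈ a ∧ q.2 ∈ b := by
  unfold prs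
  simp only [List.mem_flatMap, List.mem_map]
  constructor
  · rintro ⟨v, hv, y, hy, rfl⟩
    exact ⟨hv, hy⟩
  · rintro ⟨h1, h2⟩
    exact ⟨q.1, h1, q.2, h2, rfl⟩

private theorem fp_prs {α : Type} [N487b59b3 α] {f g : α → List ℕ} (hf : FP f) (hg : FP g) :
    FP fun a => prs (f a) (g a) := by
  have h1 : FP fun q : (α × ℕ) × ℕ => (q.1.2, q.2) := by fun_prop
  have h2 : FP fun q : α × ℕ => (g q.1).map fun y => (fun q : (α × ℕ) × ℕ => (q.1.2, q.2)) (q, y) :=
    fp_map (hg.comp FP.fst) h1
  exact fp_flatMap hf h2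

/-- a point on the line where the polynomial does not vanish -/
private theorem line_hit (J : MvPolynomial ℕ ℚ) (e u : En) (h : sub e [u] J ≠ 0) :
    ∃ z ≤ J.totalDegree, eval (fun i => ptE e i + (z : ℚ) * ptE u i) J ≠ 0 := by
  obtain ⟨w, hw⟩ : ∃ w : ℕ → ℚ, eval w (sub e [u] J) ≠ 0 := by
    by_contra hcon
    push Not at hcon
    apply h
    apply MvPolynomial.funext
    intro z
    rw [hcon z, map_zero]
  have hw' : eval w (sub e [u] J) = eval (fun i => ptE e i + ptE u i * w 1) J := by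
    have h1 : (eval w).comp (sub e [u]).toRingHom =
        eval (fun i => ptE e i + ptE u i * w 1) := by
      apply MvPolynomial.ringHom_ext
      · intro a
        simp [sub]
      · intro i
        simp [sub]
    exact congrArg (fun f : MvPolynomial ℕ ℚ →+* ℚ => f J) h1
  rw [hw'] at hw
  set g : ℕ → Polynomial ℚ := fun j =>
    Polynomial.C (ptE e j) + Polynomial.C (ptE u j) * Polynomial.X with hg
  have hgd : ∀ j, (g j).natDegree ≤ 1 := by
    intro j
    rw [hg]
    refine (Polynomial.natDegree_add_le _ _).trans ?_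
    rw [Polynomial.natDegree_C]
    exact max_le (Nat.zero_le _)
      ((Polynomial.natDegree_C_mul_le _ _).trans Polynomial.natDegree_X_le)
  set P : Polynomial ℚ := aeval g J with hP
  have hPd : P.natDegree ≤ J.totalDegree := by
    have := MvPolynomial.aeval_natDegree_le J (le_refl _) g hgd
    simpa using this
  have hPe : ∀ t : ℚ, P.eval t = eval (fun j => ptE e j + t * ptE u j) J := by
    intro t
    rw [hP]
    have h1 : (Polynomial.evalRingHom t).comp (aeval g).toRingHom =
        eval (fun j => ptE e j + t * ptE u j) := by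
      apply MvPolynomial.ringHom_ext
      · intro a
        simp
      · intro j
        simp [hg]
        ring
    exact congrArg (fun f : MvPolynomial ℕ ℚ →+* ℚ => f J) h1
  have hP0 : P ≠ 0 := by
    intro hz
    apply hw
    have h1 := hPe (w 1)
    rw [hz, Polynomial.eval_zero] at h1
    rw [h1]
    congr 2
    funext i
    rw [mul_comm]
  by_contra hcon
  push Not at hcon
  apply hP0
  apply Polynomial.eq_zero_of_natDegree_lt_card_of_eval_eq_zero' P
    ((Finset.range (J.totalDegree + 1)).map Nat.castEmbedding)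
  · intro a ha
    obtain ⟨v, hv, rfl⟩ := Finset.mem_map.1 ha
    rw [hPe]
    exact hcon v (by have := Finset.mem_range.1 hv; omega)
  · rw [Finset.card_map, Finset.card_range]
    omega

/-! ### sizes -/

private theorem mem_csC' {L : List Qr} {p : Qr} (hp : p ∈ L) {c : Cm} (hc : c ∈ p.1 ++ p.2) :
    c ∈ csC L := List.mem_flatMap.mpr ⟨p, hp, hc⟩

private theorem ok_csC {r : ℕ} {L : List Qr} (hL : ∀ p ∈ L, GoodC r p) :
    ∀ c ∈ csC L, Ok2 r c := by
  intro c hc
  obtain ⟨p, hp, hc⟩ := List.mem_flatMap.mp hc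
  rcases List.mem_append.mp hc with hc | hc
  · exact (hL p hp).1 c hc
  · exact (hL p hp).2 c hc

private theorem codes_of {r : ℕ} {L : List Qr} (hL : ∀ p ∈ L, GoodC r p) : CodesC L := by
  intro l hl w hw
  obtain ⟨c, hc, rfl⟩ := List.mem_map.1 hl
  have h1 := ok_csC hL c hc
  rcases List.mem_cons.1 hw with rfl | hw
  · exact h1.1
  · exact (h1.2.2 w hw).1

private theorem toks_ge (cs : List Cm) :
    (cs.map fun c : Cm => c.1.length).sum ≤ (toks (cs.map fun c => c.1 :: c.2)).length := by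
  unfold toks
  induction cs with
  | nil => simp
  | cons a cs ih =>
    simp only [List.map_cons, List.flatten_cons, List.flatten_append, List.length_append,
      List.sum_cons, List.cons_append] at ih ⊢
    omega

private theorem cntC_le {L : List Qr} {p : Qr} (hp : p ∈ L) :
    cntC p ≤ (toks (allC L)).length := by
  have h0 : cntC p ≤ ((csC L).map fun c : Cm => c.1.length).sum := by
    induction L with
    | nil => simp at hp
    | cons q L ih =>
      have h1 : ((csC (q :: L)).map fun c : Cm => c.1.length).sum =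
          cntC q + ((csC L).map fun c : Cm => c.1.length).sum := by
        unfold csC cntC
        rw [List.flatMap_cons, List.map_append, List.sum_append]
      rw [h1]
      rcases List.mem_cons.mp hp with rfl | hp
      · exact Nat.le_add_right _ _
      · exact (ih hp).trans (Nat.le_add_left _ _)
  exact h0.trans (toks_ge (csC L))

private theorem sum_cnt_le {L : List Qr} (I : List Qr)
    (hI : ∀ p ∈ I, p ∈ L) : (I.map cntC).sum ≤ I.length * (toks (allC L)).length := by
  have h1 := List.sum_le_card_nsmul (I.map cntC) (toks (allC L)).length (by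
    intro c hc
    obtain ⟨p, hp, rfl⟩ := List.mem_map.1 hc
    exact cntC_le (hI p hp))
  simpa using h1

private theorem vars_names {L : List Qr} {p : Qr} (hp : p ∈ L) {i : ℕ}
    (hi : i + 3 ∈ ((namC p).flatten.map Prod.fst)) : i + 3 ∈ names (nmC L) := by
  rw [mem_names]
  refine ⟨by omega, ?_⟩
  obtain ⟨q, hq, hqi⟩ := List.mem_map.1 hi
  refine List.mem_map.2 ⟨q, ?_, hqi⟩
  unfold toks
  obtain ⟨w, hw, hqw⟩ := List.mem_flatten.1 hq
  obtain ⟨c, hc, hwc⟩ := List.mem_flatMap.1 hw
  exact List.mem_flatten.2 ⟨w, List.mem_flatten.2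
    ⟨c.2, List.mem_map.2 ⟨c, mem_csC' hp hc, rfl⟩, hwc⟩, hqw⟩

/-! ### the algorithm -/

/-- the base point -/
private noncomputable def ePt (r : ℕ) (q : (Wd × List Qr) × List ℕ) : En :=
  envF (2 * r) ((nmC q.1.2, []), q.2)

private theorem fp_ePt (r : ℕ) : FP (ePt r) := by
  unfold ePt
  have h1 : FP fun q : (Wd × List Qr) × List ℕ => nmC q.1.2 :=
    fp_nmC.comp (f := fun q : (Wd × List Qr) × List ℕ => q.1.2) (FP.snd.comp FP.fst)
  exact (fp_envF (2 * r)).comp (FP.pair (FP.pair h1 (FP.const [])) FP.snd)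

/-- the direction -/
private noncomputable def uPt (r : ℕ) (G : Wd × List Qr → List ℕ) (g : Fr × (List Qr × List ℕ) → Bool)
    (q : (((Wd × List Qr) × List ℕ) × List Qr) × List (ℕ × ℕ)) : En :=
  srchC g ((ePt r q.1.1, (q.1.2, q.2.map Prod.fst)), G q.1.1.1) (names (nmC q.1.1.1.2))

private theorem fp_uPt (r : ℕ) {G : Wd × List Qr → List ℕ} {g : Fr × (List Qr × List ℕ) → Bool}
    (hG : FP G) (hg : FP g) : FP (uPt r G g) := by
  unfold uPt
  have h1 : FP fun q : (((Wd × List Qr) × List ℕ) × List Qr) × List (ℕ × ℕ) => ePt r q.1.1 :=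
    (fp_ePt r).comp (f := fun q : (((Wd × List Qr) × List ℕ) × List Qr) × List (ℕ × ℕ) => q.1.1)
      (FP.fst.comp FP.fst)
  have h2 : FP fun q : (((Wd × List Qr) × List ℕ) × List Qr) × List (ℕ × ℕ) =>
      q.2.map Prod.fst :=
    fp_map (f := fun q : (((Wd × List Qr) × List ℕ) × List Qr) × List (ℕ × ℕ) => q.2)
      (h := fun w : ((((Wd × List Qr) × List ℕ) × List Qr) × List (ℕ × ℕ)) × (ℕ × ℕ) => w.2.1)
      FP.snd (FP.fst.comp FP.snd)
  have h3 : FP fun q : (((Wd × List Qr) × List ℕ) × List Qr) × List (ℕ × ℕ) => q.1.1.1 :=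
    FP.fst.comp (FP.fst.comp FP.fst)
  have h4 : FP fun q : (((Wd × List Qr) × List ℕ) × List Qr) × List (ℕ × ℕ) => G q.1.1.1 :=
    hG.comp h3
  have h5 : FP fun q : (((Wd × List Qr) × List ℕ) × List Qr) × List (ℕ × ℕ) =>
      names (nmC q.1.1.1.2) := fp_names.comp (fp_nmC.comp (FP.snd.comp h3))
  exact (fp_srchC hg).comp (FP.pair (FP.pair (FP.pair h1 (FP.pair (FP.snd.comp FP.fst) h2)) h4) h5)

/-- the test with a given number of rows: is some value not zero? -/
private noncomputable def tst (r : ℕ) (G : Wd × List Qr → List ℕ) (g : Fr × (List Qr × List ℕ) → Bool)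
    (o : En × (Wd × List Qr) → ℚ) (t : (En × En) × (ℕ × List (ℕ × ℕ)) → En) (m : ℕ)
    (p : Wd × List Qr) : Bool :=
  (lpow (G p) (2 * r + 2 * r)).any fun zs => (lpow p.2 m).any fun I =>
    (lpow (prs (names (nmC p.2)) (G p)) m).any fun l => (G p).any fun z =>
      !(decide (o (t ((ePt r (p, zs), uPt r G g (((p, zs), I), l)), (z, l)), p) = 0))

private theorem fp_tst (r : ℕ) {G : Wd × List Qr → List ℕ} {g : Fr × (List Qr × List ℕ) → Bool}
    {o : En × (Wd × List Qr) → ℚ} {t : (En × En) × (ℕ × List (ℕ × ℕ)) → En}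
    (hG : FP G) (hg : FP g) (ho : FQ o) (ht : FP t) (m : ℕ) : FP (tst r G g o t m) := by
  have h1 : FP fun q : ((((Wd × List Qr) × List ℕ) × List Qr) × List (ℕ × ℕ)) × ℕ =>
      !(decide (o (t ((ePt r q.1.1.1, uPt r G g q.1), (q.2, q.1.2)), q.1.1.1.1) = 0)) := by
    have a1 : FP fun q : ((((Wd × List Qr) × List ℕ) × List Qr) × List (ℕ × ℕ)) × ℕ =>
        q.1.1.1 := FP.fst.comp (FP.fst.comp FP.fst)
    have a2 : FP fun q : ((((Wd × List Qr) × List ℕ) × List Qr) × List (ℕ × ℕ)) × ℕ =>
        t ((ePt r q.1.1.1, uPt r G g q.1), (q.2, q.1.2)) :=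
      ht.comp (FP.pair (FP.pair ((fp_ePt r).comp a1) ((fp_uPt r hG hg).comp FP.fst))
        (FP.pair FP.snd (FP.snd.comp FP.fst)))
    exact FP.not (ho.comp (FP.pair a2 (FP.fst.comp a1))).eqZero
  have h2 : FP fun q : (((Wd × List Qr) × List ℕ) × List Qr) × List (ℕ × ℕ) =>
      (G q.1.1.1).any fun z =>
        (fun q : ((((Wd × List Qr) × List ℕ) × List Qr) × List (ℕ × ℕ)) × ℕ =>
          !(decide (o (t ((ePt r q.1.1.1, uPt r G g q.1), (q.2, q.1.2)), q.1.1.1.1) = 0))) (q, z) :=
    fp_any (hG.comp (FP.fst.comp (FP.fst.comp FP.fst))) h1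
  have h3 : FP fun q : ((Wd × List Qr) × List ℕ) × List Qr =>
      (lpow (prs (names (nmC q.1.1.2)) (G q.1.1)) m).any fun l =>
        (fun q : (((Wd × List Qr) × List ℕ) × List Qr) × List (ℕ × ℕ) =>
          (G q.1.1.1).any fun z =>
            !(decide (o (t ((ePt r q.1.1, uPt r G g q), (z, q.2)), q.1.1.1) = 0))) (q, l) := by
    have a1 : FP fun q : ((Wd × List Qr) × List ℕ) × List Qr => q.1.1 := FP.fst.comp FP.fst
    refine fp_any (fp_lpow (fp_prs ?_ (hG.comp a1)) m) h2
    exact fp_names.comp (fp_nmC.comp (FP.snd.comp a1))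
  have h4 : FP fun q : (Wd × List Qr) × List ℕ => (lpow q.1.2 m).any fun I =>
      (fun q : ((Wd × List Qr) × List ℕ) × List Qr =>
        (lpow (prs (names (nmC q.1.1.2)) (G q.1.1)) m).any fun l => (G q.1.1).any fun z =>
          !(decide (o (t ((ePt r q.1, uPt r G g (q, l)), (z, l)), q.1.1) = 0))) (q, I) :=
    fp_any (fp_lpow (FP.snd.comp FP.fst) m) h3
  exact fp_any (h := fun q : (Wd × List Qr) × List ℕ => (lpow q.1.2 m).any fun I =>
    (lpow (prs (names (nmC q.1.2)) (G q.1)) m).any fun l => (G q.1).any fun z =>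
      !(decide (o (t ((ePt r q, uPt r G g ((q, I), l)), (z, l)), q.1) = 0))) (fp_lpow hG (2 * r + 2 * r)) h4

private theorem tst_iff (r : ℕ) (G : Wd × List Qr → List ℕ) (g : Fr × (List Qr × List ℕ) → Bool)
    (o : En × (Wd × List Qr) → ℚ) (t : (En × En) × (ℕ × List (ℕ × ℕ)) → En) (m : ℕ)
    (p : Wd × List Qr) : tst r G g o t m p = true ↔
      ∃ zs ∈ lpow (G p) (2 * r + 2 * r), ∃ I ∈ lpow p.2 m, ∃ l ∈ lpow (prs (names (nmC p.2)) (G p)) m,
        ∃ z ∈ G p, o (t ((ePt r (p, zs), uPt r G g (((p, zs), I), l)), (z, l)), p) ≠ 0 := by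
  unfold tst
  simp only [List.any_eq_true, Bool.not_eq_true', decide_eq_false_iff_not]

theorem exists_decC (r k : ℕ) : ∃ f : Wd × List Qr → Bool, FP f ∧
    (∀ (Q : Fm) (L : List Qr), CodesC L → cmpC Q L = 0 → f (Q.code, L) = true) ∧
    ∀ (Q : Fm) (L : List Qr), (∀ p ∈ L, GoodC r p) →
      (∀ b : Finset (Fin L.length), AlgebraicIndepOn ℚ (fun j => FC (L.get j))
        (b : Set (Fin L.length)) → b.card ≤ k) →
      f (Q.code, L) = true → cmpC Q L = 0 := by
  classical
  obtain ⟨G, hG, hGs⟩ := exists_gridC k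
  obtain ⟨o, ho, hos⟩ := exists_outC
  obtain ⟨t, ht, hts⟩ := exists_ptG
  choose g hg hgs using fun m => exists_oracleC r m
  obtain ⟨F, hF, hFs⟩ := fin_any (fun m => tst r G (g m) o t m)
    (fun m => fp_tst r hG (hg m) ho ht m) k
  refine ⟨fun p => !(F p), FP.not hF, ?_, ?_⟩
  · intro Q L hL h0
    simp only [Bool.not_eq_true']
    rw [← Bool.not_eq_true, hFs]
    rintro ⟨m, _, hm⟩
    obtain ⟨zs, _, I, _, l, _, z, _, h⟩ := (tst_iff _ _ _ _ _ _ _).1 hm
    apply h
    rw [hos _ Q L hL, h0, map_zero]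
  · intro Q L hL htr hf
    by_contra hne
    simp only [Bool.not_eq_true'] at hf
    rw [← Bool.not_eq_true, hFs] at hf
    apply hf
    have hCodes : CodesC L := codes_of hL
    obtain ⟨m, hmk, s, hind, halg⟩ :=
      exists_basisN (fun j : Fin L.length => FC (L.get j)) k htr
    obtain ⟨J, hJv, hJ⟩ := exists_minorN (fun j => FC (L.get (s j))) hind
    set T := (toks (allC L)).length with hT
    -- the grid
    have hq : 0 < Q.code.length := (Fm.size_pos Q).trans_le (size_le_code Q)
    have hG1 : ∀ v ≤ (2 * T) * (T + 1), v ∈ G (Q.code, L) := by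
      intro v hv
      apply hGs
      refine hv.trans ?_
      simp only
      rw [← hT]
      have h1 : 1 * (2 * (T + 1) ^ 2) ≤ (Q.code.length + k + 1) * (2 * (T + 1) ^ 2) :=
        Nat.mul_le_mul_right _ (by omega)
      nlinarith
    have hG2 : ∀ v ≤ 2 * (k * T), v ∈ G (Q.code, L) := by
      intro v hv
      apply hGs
      refine hv.trans ?_
      simp only
      rw [← hT]
      have h1 : k * (2 * (T + 1) ^ 2) ≤ (Q.code.length + k + 1) * (2 * (T + 1) ^ 2) :=
        Nat.mul_le_mul_right _ (by omega)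
      have h2 : k * (2 * T) ≤ k * (2 * (T + 1) ^ 2) := Nat.mul_le_mul_left _ (by nlinarith)
      have h3 : 2 * (k * T) = k * (2 * T) := by ring
      omega
    have hG3 : ∀ v ≤ Q.code.length * (2 * T), v ∈ G (Q.code, L) := by
      intro v hv
      apply hGs
      refine hv.trans ?_
      simp only
      rw [← hT]
      have h1 : Q.code.length * (2 * (T + 1) ^ 2) ≤
          (Q.code.length + k + 1) * (2 * (T + 1) ^ 2) := Nat.mul_le_mul_right _ (by omega)
      have h2 : Q.code.length * (2 * T) ≤ Q.code.length * (2 * (T + 1) ^ 2) :=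
        Nat.mul_le_mul_left _ (by nlinarith)
      omega
    obtain ⟨zs, hzs, hbase⟩ := exists_baseC r (csC L) (ok_csC hL) (G (Q.code, L)) hG1
    set I : List Qr := List.ofFn fun j => L.get (s j) with hI
    set V : List ℕ := List.ofFn fun j => J j + 3 with hV
    set e : En := envF (2 * r) ((nmC L, []), zs) with he
    have hIlen : I.length = m := by rw [hI, List.length_ofFn]
    have hVlen : V.length = m := by rw [hV, List.length_ofFn]
    have hIL : ∀ p ∈ I, p ∈ L := by
      intro p hp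
      obtain ⟨j, rfl⟩ := List.mem_ofFn.1 hp
      exact List.get_mem L (s j)
    have hIG : ∀ p ∈ I, GoodC r p := fun p hp => hL p (hIL p hp)
    have hJJ : JC m I V = (Matrix.of fun i j => pderiv (J j) (FC (L.get (s i)))).det := by
      unfold JC
      congr 1
      ext i j : 1
      rw [Matrix.of_apply, Matrix.of_apply]
      have h1 : V.getD j 0 = J j + 3 := by
        rw [List.getD_eq_getElem _ _ (by rw [hVlen]; exact j.2)]
        simp [hV]
      have h2 : I.getD i ([], []) = L.get (s i) := by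
        rw [List.getD_eq_getElem _ _ (by rw [hIlen]; exact i.2)]
        simp [hI]
      rw [h1, h2, Nat.add_sub_cancel]
    have hJ0 : JC m I V ≠ 0 := by
      rw [hJJ]
      exact hJ
    have hnz : ∀ p ∈ I, ∀ w ∈ p.1, eval (ptE e) (cw w) ≠ 0 := by
      intro p hp w hw
      refine hbase w (mem_csC' (hIL p hp) (List.mem_append_left _ hw)) ?_
      obtain ⟨j, hj⟩ := List.mem_ofFn.1 hp
      have h1 : FC p ≠ 0 := by
        rw [← hj]
        exact hind.ne_zero j
      intro h0
      apply h1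
      unfold FC
      rw [List.prod_eq_zero (List.mem_map.2 ⟨w, hw, h0⟩), zero_mul]
    have hor : ∀ U, g m ((e, U), (I, V)) = true ↔ sub e U (JC m I V) = 0 := fun U =>
      hgs m ((e, U), (I, V)) (fun p hp => hL p (hIL p hp)) hnz
        (by
          intro v hv
          obtain ⟨j, rfl⟩ := List.mem_ofFn.1 hv
          omega) hIlen hVlen
    have hdeg : (JC m I V).totalDegree ≤ 2 * (k * T) := by
      refine (totalDegree_JC m I V hIG).trans ?_
      refine Nat.mul_le_mul_left 2 ((sum_cnt_le I hIL).trans ?_)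
      rw [hIlen, ← hT]
      exact Nat.mul_le_mul_right _ hmk
    have hvars : ∀ i ∈ (JC m I V).vars, i + 3 ∈ names (nmC L) := by
      intro i hi
      obtain ⟨p, hp, hi⟩ := vars_JC m I V hIlen hIG i hi
      exact vars_names (hIL p hp) hi
    set u : En := srchC (g m) ((e, (I, V)), G (Q.code, L)) (names (nmC L)) with hu
    have hs : sub e [u] (JC m I V) ≠ 0 :=
      srchC_spec (g m) ((e, (I, V)), G (Q.code, L)) (names (nmC L)) (JC m I V) hor hJ0
        (names_nodup _) (fun c hc => (mem_names.1 hc).1) hvars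
        (fun v hv => hG2 v (hv.trans hdeg))
    obtain ⟨z, hz, hzv⟩ := line_hit _ _ _ hs
    obtain ⟨y, hy, hyv⟩ := hitN (fun j : Fin L.length => FC (L.get j)) s halg
      (fun i => ptE e i + (z : ℚ) * ptE u i) J (by rw [← hJJ]; exact hzv) (cmpC Q L)
      (cmpC_mem Q L) hne _ (totalDegree_cmpC Q L hL)
    refine ⟨m, hmk, (tst_iff _ _ _ _ _ _ _).2 ⟨zs, hzs, I, mem_lpow.2 ⟨hIlen, hIL⟩,
      List.ofFn fun j => (J j + 3, y j), mem_lpow.2 ⟨List.length_ofFn, ?_⟩, z,
      hG2 z (hz.trans hdeg), ?_⟩⟩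
    · intro q hq'
      obtain ⟨j, rfl⟩ := List.mem_ofFn.1 hq'
      rw [mem_prs]
      refine ⟨?_, hG3 _ (hy j)⟩
      obtain ⟨i, hi⟩ := hJv j
      have h1 := vars_FC (L.get (s i)) (hL _ (List.get_mem L (s i))) (J j) hi
      exact vars_names (List.get_mem L (s i)) h1
    · rw [hos _ Q L hCodes]
      have h1 : uPt r G (g m) ((((Q.code, L), zs), I), List.ofFn fun j => (J j + 3, y j)) = u := by
        unfold uPt
        rw [hu, List.map_ofFn]
        rfl
      have h2 : ePt r ((Q.code, L), zs) = e := rfl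
      rw [h1, h2]
      intro h0
      apply hyv
      refine Eq.trans ?_ h0
      congr 2
      funext i
      rw [hts, List.map_ofFn, List.sum_ofFn]
      congr 1
      refine Finset.sum_congr rfl fun j _ => ?_
      simp only [Function.comp]
      by_cases hji : J j = i
      · rw [if_pos hji, if_pos (by omega)]
      · rw [if_neg hji, if_neg (by omega)]

end Pool.Agent.PQR
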