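import Pool.Agent.PQR.VarsB

set_option autoImplicit false

/-!
PQR-MainQ. The final theorem for formulas in `r` polynomials of degree at most two.
-/

namespace Pool.Agent.PQR.MainQ

open MvPolynomial N487b59b3 N68a2faeb Pool.Agent.Helper22 Pool.Agent.Helper6.WB
  Pool.Agent.Helper6.SP Pool.Agent.PQ Pool.Agent.PQR

/-- a formula `P` and a list of formulas `q` -/
abbrev Comp := Fm × List Fm

/-- the polynomial `P(q_0, q_1, ...)` (missing `q_j` are zero) -/
noncomputable def compPoly (c : Comp) : MvPolynomial ℕ ℚ :=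
  aeval (fun j => (c.2.map Fm.poly).getD j 0) c.1.poly

/-- the code of a composite -/
def compCode (c : Comp) : List (ℕ × ℚ) × List (List (ℕ × ℚ)) :=
  (c.1.code, c.2.map Fm.code)

/-- two lists of composites -/
abbrev Pair := List Comp × List Comp

/-- the product of the first composites times the sum of the second ones -/
noncomputable def pairPoly (p : Pair) : MvPolynomial ℕ ℚ :=
  (p.1.map compPoly).prod * (p.2.map compPoly).sum

/-- the code of a pair -/
def pairCode (p : Pair) : List (List (ℕ × ℚ) × List (List (ℕ × ℚ))) ×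
    List (List (ℕ × ℚ) × List (List (ℕ × ℚ))) :=
  (p.1.map compCode, p.2.map compCode)

/-- at most `r` formulas `q`, all of degree at most two in the variables `x_i`, `i ∉ Z` -/
def IsQuad (r : ℕ) (Z : Finset ℕ) (c : Comp) : Prop :=
  c.2.length ≤ r ∧ ∀ q ∈ c.2, ∀ m ∈ q.poly.support, ∑ i ∈ m.support \ Z, m i ≤ 2

private theorem cw_code (c : Comp) : cw (compCode c) = compPoly c := by
  unfold cw compPoly compCode
  simp only
  rw [pw_code]
  congr 2
  funext j
  unfold cq
  simp only
  rw [List.getD_eq_getElem?_getD, List.getD_eq_getElem?_getD, List.getElem?_map,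
    List.getElem?_map]
  cases c.2[j]? with
  | none => exact pw_w0
  | some g => exact pw_code g

private theorem FC_code (p : Pair) : FC (pairCode p) = pairPoly p := by
  unfold FC SC pairCode pairPoly
  simp only [List.map_map]
  congr 1
  · congr 1
    exact List.map_congr_left fun c _ => cw_code c
  · congr 1
    exact List.map_congr_left fun c _ => cw_code c

private theorem tr_map {A B : Type} (L : List A) (g : A → B) (F : B → MvPolynomial ℕ ℚ)
    (G : A → MvPolynomial ℕ ℚ) (hFG : ∀ a ∈ L, F (g a) = G a) (k : ℕ)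
    (h : ∀ b : Finset (Fin L.length), AlgebraicIndepOn ℚ (fun j => G (L.get j))
      (b : Set (Fin L.length)) → b.card ≤ k) :
    ∀ b : Finset (Fin (L.map g).length), AlgebraicIndepOn ℚ (fun j => F ((L.map g).get j))
      (b : Set (Fin (L.map g).length)) → b.card ≤ k := by
  intro b hb
  have hlen : (L.map g).length = L.length := List.length_map _
  have key : ∀ i : Fin (L.map g).length, F ((L.map g).get i) = G (L.get (finCongr hlen i)) := by
    intro i
    rw [List.get_eq_getElem, List.getElem_map]
    exact hFG _ (List.getElem_mem _)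
  have h1 := h (b.map (finCongr hlen).toEmbedding) ?_
  · rwa [Finset.card_map] at h1
  · have hφ : ∀ x : ((b.map (finCongr hlen).toEmbedding : Finset (Fin L.length)) :
        Set (Fin L.length)), (finCongr hlen).symm x.1 ∈ (b : Set (Fin (L.map g).length)) := by
      rintro ⟨x, hx⟩
      rw [Finset.mem_coe, Finset.mem_map] at hx
      obtain ⟨y, hy, rfl⟩ := hx
      simpa using hy
    have h2 := AlgebraicIndependent.comp hb (fun x => ⟨(finCongr hlen).symm x.1, hφ x⟩) (by
      intro x y hxy
      apply Subtype.ext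
      have := congrArg Subtype.val hxy
      exact (finCongr hlen).symm.injective this)
    have h3 : (fun x : ((b.map (finCongr hlen).toEmbedding : Finset (Fin L.length)) :
        Set (Fin L.length)) => G (L.get x.1)) =
        (fun i : (b : Set (Fin (L.map g).length)) => F ((L.map g).get i.1)) ∘
          fun x => ⟨(finCongr hlen).symm x.1, hφ x⟩ := by
      funext x
      simp only [Function.comp]
      rw [key]
      simp
    show AlgebraicIndependent ℚ (fun x : ((b.map (finCongr hlen).toEmbedding :
      Finset (Fin L.length)) : Set (Fin L.length)) => G (L.get x.1))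
    rw [h3]
    exact h2

private theorem cmpC_code (Q : Fm) (L : List Pair) :
    cmpC Q (L.map pairCode) = aeval (fun j => pairPoly (L.getD j ([], []))) Q.poly := by
  unfold cmpC
  congr 2
  funext j
  by_cases hj : j < L.length
  · rw [List.getD_eq_getElem _ _ (by rw [List.length_map]; exact hj),
      List.getD_eq_getElem _ _ hj, List.getElem_map]
    exact FC_code _
  · rw [List.getD_eq_default _ _ (by rw [List.length_map]; omega),
      List.getD_eq_default _ _ (by omega)]
    simp [pairPoly, FC, SC]

private theorem codes_map (L : List Pair) : CodesC (L.map pairCode) := by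
  intro l hl w hw
  unfold allC csC at hl
  obtain ⟨c, hc, rfl⟩ := List.mem_map.mp hl
  obtain ⟨q, hq, hcq⟩ := List.mem_flatMap.mp hc
  obtain ⟨p, hp, rfl⟩ := List.mem_map.mp hq
  have h : ∃ d : Comp, compCode d = c := by
    rcases List.mem_append.mp hcq with h | h
    · obtain ⟨d, _, hd⟩ := List.mem_map.mp h
      exact ⟨d, hd⟩
    · obtain ⟨d, _, hd⟩ := List.mem_map.mp h
      exact ⟨d, hd⟩
  obtain ⟨d, rfl⟩ := h
  rcases List.mem_cons.mp hw with rfl | hw
  · exact ⟨d.1, rfl⟩
  · obtain ⟨g, _, hg⟩ := List.mem_map.mp hw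
    exact ⟨g, hg⟩

private theorem ok_comp {r : ℕ} {Z : Finset ℕ} {c : Comp} (h : IsQuad r Z c) :
    OkZ r Z (compCode c) := by
  refine ⟨⟨c.1, rfl⟩, by simpa [compCode] using h.1, ?_⟩
  intro w hw
  obtain ⟨g, hg, rfl⟩ := List.mem_map.mp hw
  exact ⟨⟨g, rfl⟩, by rw [pw_code]; exact h.2 g hg⟩

theorem mainQ (r k : ℕ) :
    ∃ f : List (ℕ × ℚ) × List (List (List (ℕ × ℚ) × List (List (ℕ × ℚ))) ×
      List (List (ℕ × ℚ) × List (List (ℕ × ℚ)))) → Bool,
      IsPolyTime f ∧ ∀ (Q : Fm) (L : List Pair) (Z : Finset ℕ), Z.card ≤ r →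
        (∀ p ∈ L, ∀ c ∈ p.1 ++ p.2, IsQuad r Z c) →
        (∀ b : Finset (Fin L.length), AlgebraicIndepOn ℚ (fun j => pairPoly (L.get j))
          (b : Set (Fin L.length)) → b.card ≤ k) →
        (f (Q.code, L.map pairCode) = true ↔
          aeval (fun j => pairPoly (L.getD j ([], []))) Q.poly = 0) := by
  obtain ⟨f2, hf2, hc, hr⟩ := exists_decZ r k
  refine ⟨f2, (Pool.Agent.Helper22.isPolyTime_iff _).mpr hf2, ?_⟩
  intro Q L Z hZ hL htr
  rw [← cmpC_code Q L]
  constructor
  · intro h
    refine hr Q _ Z hZ ?_ ?_ h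
    · intro p hp
      obtain ⟨q, hq, rfl⟩ := List.mem_map.mp hp
      refine ⟨?_, ?_⟩
      · intro c hc
        obtain ⟨d, hd, rfl⟩ := List.mem_map.mp hc
        exact ok_comp (hL q hq d (List.mem_append_left _ hd))
      · intro c hc
        obtain ⟨d, hd, rfl⟩ := List.mem_map.mp hc
        exact ok_comp (hL q hq d (List.mem_append_right _ hd))
    · exact tr_map L pairCode FC pairPoly (fun a _ => FC_code a) k htr
  · intro h
    exact hc Q _ (codes_map L) h

end Pool.Agent.PQR.MainQ
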