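import Pool.Agent.PQR.Defs

set_option autoImplicit false

/-!
PQR-MinorC. The reduced minor decides whether the Jacobian minor vanishes on the affine subspace (the same as
`PQ/Minor.lean`, for composites).
-/

namespace Pool.Agent.PQR

open MvPolynomial Pool.Agent.Helper6.SP Pool.Agent.PQ

private theorem geo (c : ℚ) (hc : c ≠ 0) (B : MvPolynomial ℕ ℚ) (M : ℕ) :
    (C c + B) * ∑ i ∈ Finset.range (M + 1), C ((-1) ^ i * c⁻¹ ^ (i + 1)) * B ^ i - 1 =
      C ((-1) ^ M * c⁻¹ ^ (M + 1)) * B ^ (M + 1) := by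
  induction M with
  | zero =>
    simp only [zero_add, Finset.sum_range_one, pow_zero, pow_one, one_mul, mul_one, add_mul]
    rw [← C_mul, mul_inv_cancel₀ hc, C_1]
    ring
  | succ M ih =>
    rw [Finset.sum_range_succ, mul_add, add_sub_right_comm, ih]
    have h1 : (C c : MvPolynomial ℕ ℚ) * C ((-1) ^ (M + 1) * c⁻¹ ^ (M + 1 + 1)) =
        - C ((-1) ^ M * c⁻¹ ^ (M + 1)) := by
      rw [← C_mul, ← C_neg]
      congr 1
      have h3 : c * ((-1) ^ (M + 1) * c⁻¹ ^ (M + 1 + 1)) =
          -((-1) ^ M * c⁻¹ ^ (M + 1)) * (c * c⁻¹) := by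
        rw [pow_succ c⁻¹ (M + 1), pow_succ (-1 : ℚ) M]
        ring
      rw [h3, mul_inv_cancel₀ hc, mul_one]
    have h2 : (C c + B) * (C ((-1) ^ (M + 1) * c⁻¹ ^ (M + 1 + 1)) * B ^ (M + 1)) =
        (C c * C ((-1) ^ (M + 1) * c⁻¹ ^ (M + 1 + 1))) * B ^ (M + 1) +
          C ((-1) ^ (M + 1) * c⁻¹ ^ (M + 1 + 1)) * B ^ (M + 1 + 1) := by ring
    rw [h2, h1]
    ring

theorem sub_mul_invC (M : ℕ) (e : En) (U : List En) (w : Cm)
    (h : eval (ptE e) (cw w) ≠ 0) : Cg M (sub e U (cw w) * invC M e U w) 1 := by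
  have h1 := geo (eval (ptE e) (cw w)) h (sub e U (cw w) - C (eval (ptE e) (cw w))) M
  have h2 : C (eval (ptE e) (cw w)) + (sub e U (cw w) - C (eval (ptE e) (cw w))) =
      sub e U (cw w) := by ring
  rw [h2] at h1
  unfold Cg invC
  rw [h1]
  apply Hi.mul_left
  apply Hi.pow
  rw [coeff_sub, coeff_sub_zero, coeff_zero_C, sub_self]

private theorem prod_mul_sum (M : ℕ) (e : En) (U : List En) (v : ℕ) (l : List Cm)
    (h : ∀ w ∈ l, eval (ptE e) (cw w) ≠ 0) :
    Cg M (sub e U (l.map cw).prod *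
      (l.map fun w => sub e U (pderiv (v - 3) (cw w)) * invC M e U w).sum)
      (sub e U (pderiv (v - 3) (l.map cw).prod)) := by
  induction l with
  | nil =>
    simp only [List.map_nil, List.sum_nil, mul_zero, List.prod_nil]
    rw [pderiv_one, map_zero]
    exact Cg.refl _ _
  | cons a l ih =>
    have ih' := ih fun w hw => h w (List.mem_cons_of_mem _ hw)
    have ha := sub_mul_invC M e U a (h a (List.mem_cons_self ..))
    simp only [List.map_cons, List.sum_cons, List.prod_cons]
    rw [Derivation.leibniz, smul_eq_mul, smul_eq_mul, map_mul, map_add, map_mul, map_mul]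
    have e1 : sub e U (cw a) * sub e U (l.map cw).prod *
        (sub e U (pderiv (v - 3) (cw a)) * invC M e U a +
          (l.map fun w => sub e U (pderiv (v - 3) (cw w)) * invC M e U w).sum) =
        sub e U (cw a) * (sub e U (l.map cw).prod *
          (l.map fun w => sub e U (pderiv (v - 3) (cw w)) * invC M e U w).sum) +
        sub e U (l.map cw).prod * sub e U (pderiv (v - 3) (cw a)) *
          (sub e U (cw a) * invC M e U a) := by ring
    rw [e1]
    apply Cg.add
    · exact Cg.mul (Cg.refl _ _) ih'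
    · have := Cg.mul (Cg.refl M (sub e U (l.map cw).prod * sub e U (pderiv (v - 3) (cw a)))) ha
      rwa [mul_one] at this

theorem prod_mul_EC (M : ℕ) (e : En) (U : List En) (p : Qr) (v : ℕ)
    (h : ∀ w ∈ p.1, eval (ptE e) (cw w) ≠ 0) :
    Cg M (sub e U (p.1.map cw).prod * EC M e U p v) (sub e U (pderiv (v - 3) (FC p))) := by
  have h1 := prod_mul_sum M e U v p.1 h
  unfold EC FC
  rw [Derivation.leibniz, smul_eq_mul, smul_eq_mul, map_add, map_mul, map_mul, mul_add, add_comm,
    ← mul_assoc]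
  apply Cg.add
  · exact Cg.refl _ _
  · rw [mul_comm (sub e U (SC p.2))]
    exact Cg.mul h1 (Cg.refl _ _)

/-- **the reduced minor** -/
theorem DC_test (m M : ℕ) (e : En) (U : List En) (I : List Qr) (V : List ℕ)
    (h : ∀ p ∈ I, ∀ w ∈ p.1, eval (ptE e) (cw w) ≠ 0) (hdeg : (JC m I V).totalDegree ≤ M) :
    Hi M (DC m M e U I V) ↔ sub e U (JC m I V) = 0 := by
  have hI : ∀ i, ∀ w ∈ (I.getD i ([], [])).1, eval (ptE e) (cw w) ≠ 0 := by
    intro i
    by_cases hi : i < I.length
    · rw [List.getD_eq_getElem _ _ hi]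
      exact h _ (List.getElem_mem hi)
    · rw [List.getD_eq_default _ _ (by omega)]
      intro w hw
      cases hw
  have hdet : (∏ i : Fin m, sub e U ((I.getD i ([], [])).1.map cw).prod) * DC m M e U I V =
      (Matrix.of fun i j : Fin m => sub e U ((I.getD i ([], [])).1.map cw).prod *
        EC M e U (I.getD i ([], [])) (V.getD j 0)).det := by
    unfold DC
    rw [← Matrix.det_mul_column]
    rfl
  have hJ : sub e U (JC m I V) = (Matrix.of fun i j : Fin m =>
      sub e U (pderiv (V.getD j 0 - 3) (FC (I.getD i ([], []))))).det := by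
    unfold JC
    rw [AlgHom.map_det]
    congr 1
  have hcg : Cg M ((∏ i : Fin m, sub e U ((I.getD i ([], [])).1.map cw).prod) *
      DC m M e U I V) (sub e U (JC m I V)) := by
    rw [hdet, hJ]
    exact Cg.det fun i j => prod_mul_EC M e U _ _ (hI i)
  have hu : coeff 0 (∏ i : Fin m, sub e U ((I.getD i ([], [])).1.map cw).prod) ≠ 0 := by
    rw [← map_prod, coeff_sub_zero, map_prod]
    rw [Finset.prod_ne_zero_iff]
    intro i _
    rw [map_list_prod]
    apply List.prod_ne_zero
    intro h0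
    rw [List.mem_map] at h0
    obtain ⟨q, hq, hq0⟩ := h0
    obtain ⟨w, hw, rfl⟩ := List.mem_map.1 hq
    exact hI i w hw hq0
  rw [← hi_unit hu, hcg.hi_iff]
  exact hi_iff_zero ((totalDegree_sub_le e U _).trans hdeg)

end Pool.Agent.PQR
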