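import Pool.Agent.PQR.Dense
import Pool.Agent.PQ.FTc

set_option autoImplicit false

/-!
PQR-OfPoly. A polynomial in `r` quadratic polynomials, with values computable in polynomial time, belongs to `FT r`.

Plan: `exists_dense`, then `FT.listSum` over `F a` of `FT.smul` (the coefficient: the element `fixE t.1`, equal to
`t.1` by value) times `FT.prod Finset.univ` over `Fin r` of `FM.powU ((hy i).comp ..)` with exponent `t.2.getD i []`;
`Finset.prod_range`. The promise for the members of the list may be taken as `P a ∧ t ∈ F a`.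
-/

namespace Pool.Agent.PQR

open MvPolynomial N487b59b3 N68a2faeb Pool.Agent.Helper22 Pool.Agent.Helper6.WB
  Pool.Agent.Helper6.SP Pool.Agent.PQ

theorem FT.ofPoly (r : ℕ) {α : Type} [N487b59b3 α] {n : α → Un} {P : α → Prop}
    {h : α → MvPolynomial ℕ ℚ} {D : α → Un} {val : α × List Un → ℚ} (hD : FP D) (hv : FQ val)
    (hval : ∀ a, P a → ∀ l : List Un, l.length = r → val (a, l) = eval (ndp l) (h a))
    (hdeg : ∀ a, P a → (h a).totalDegree ≤ (D a).length)
    {y : ℕ → α → MvPolynomial ℕ ℚ} (hy : ∀ i < r, FM n P (y i)) :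
    FT r n P fun a => aeval (fun j => if j < r then y j a else 0) (h a) := by
  obtain ⟨F, hF, hF2⟩ := exists_dense r hD hv hval hdeg
  have hfst : FP fun p : α × (El × List Un) => p.1 := FP.fst
  have h1 : ∀ i : Fin r, FT 1 (fun p : α × (El × List Un) => n p.1)
      (fun p : α × (El × List Un) => P p.1)
      fun p : α × (El × List Un) => y i p.1 ^ (p.2.2.getD i []).length := by
    intro i
    exact FM.powU (e := fun p : α × (El × List Un) => p.2.2.getD i [])
      ((hy i i.2).comp (h := fun p : α × (El × List Un) => p.1) hfst)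
      (fp_getD (f := fun p : α × (El × List Un) => p.2.2) (FP.snd.comp FP.snd) i [])
  have h2 := FT.prod (Finset.univ : Finset (Fin r))
    (h := fun (i : Fin r) (p : α × (El × List Un)) => y i p.1 ^ (p.2.2.getD i []).length) h1
  rw [Finset.card_univ, Fintype.card_fin, mul_one] at h2
  have hc : FQ fun p : α × (El × List Un) => toQ p.2.1 := by
    have h3 : FP fun p : α × (El × List Un) => fixE p.2.1 := fp_fixE (FP.fst.comp FP.snd)
    exact (FQ.ofEl h3 fun p => fixE_den _).congr fun p => (toQ_fixE _).symm
  have h4 := FT.smul hc h2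
  have h5 := FT.listSum (P := P) (n := n) hF h4 fun a ha b _ => ha
  refine h5.congr fun a ha => ?_
  rw [(hF2 a ha).2 fun j => y j a]
  congr 1
  refine List.map_congr_left fun t _ => ?_
  rw [Finset.prod_range fun i => y i a ^ (t.2.getD i []).length]

end Pool.Agent.PQR
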