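import Pool.Agent.PQR.RowC
import Pool.Agent.PQR.MinorC
import Pool.Agent.PQR.DegC
import Pool.Agent.PQ.Test

set_option autoImplicit false

/-!
PQR-OracleC. The oracle of the search: does the Jacobian minor vanish on an affine subspace? (as `PQ/Oracle.lean`)
-/

namespace Pool.Agent.PQR

open MvPolynomial N487b59b3 N68a2faeb Pool.Agent.Helper22 Pool.Agent.Helper6.WB
  Pool.Agent.Helper6.SP Pool.Agent.PQ

/-- a unary bound for the degrees -/
private def bdC (x : Fr × (List Qr × List ℕ)) : Un :=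
  (x.2.1.flatMap fun p => (p.1 ++ p.2).flatMap fun c => c.1.map fun _ => true) ++
    (x.2.1.flatMap fun p => (p.1 ++ p.2).flatMap fun c => c.1.map fun _ => true)

private theorem bdC_length (x : Fr × (List Qr × List ℕ)) :
    (bdC x).length = 2 * (x.2.1.map cntC).sum := by
  unfold bdC
  rw [List.length_append, List.length_flatMap]
  have h : (x.2.1.map fun p : Qr => ((p.1 ++ p.2).flatMap fun c => c.1.map fun _ => true).length)
      = x.2.1.map cntC := by
    apply List.map_congr_left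
    intro p _
    rw [List.length_flatMap, cntC]
    congr 1
    apply List.map_congr_left
    intro c _
    simp
  rw [h]
  omega

private theorem fp_bdC : FP bdC := by
  have h1 : FP fun q : ((Fr × (List Qr × List ℕ)) × Qr) × Cm => q.2.1.map fun w =>
      (fun _ : (((Fr × (List Qr × List ℕ)) × Qr) × Cm) × (ℕ × ℚ) => true) (q, w) :=
    fp_map (by fun_prop) (FP.const true)
  have h2 : FP fun q : (Fr × (List Qr × List ℕ)) × Qr => (q.2.1 ++ q.2.2).flatMap fun c =>
      (fun q : ((Fr × (List Qr × List ℕ)) × Qr) × Cm => q.2.1.map fun _ => true) (q, c) :=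
    fp_flatMap (FP.append (by fun_prop) (by fun_prop)) h1
  have h3 : FP fun x : Fr × (List Qr × List ℕ) => x.2.1.flatMap fun p =>
      (fun q : (Fr × (List Qr × List ℕ)) × Qr => (q.2.1 ++ q.2.2).flatMap fun c =>
        c.1.map fun _ => true) (x, p) :=
    fp_flatMap (by fun_prop) h2
  exact FP.append h3 h3

theorem exists_oracleC (r m : ℕ) : ∃ g : Fr × (List Qr × List ℕ) → Bool, FP g ∧ ∀ x,
    (∀ p ∈ x.2.1, GoodC r p) → (∀ p ∈ x.2.1, ∀ c ∈ p.1, eval (ptE x.1.1) (cw c) ≠ 0) →
    (∀ v ∈ x.2.2, 3 ≤ v) → x.2.1.length = m → x.2.2.length = m →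
    (g x = true ↔ sub x.1.1 x.1.2 (JC m x.2.1 x.2.2) = 0) := by
  set P : Fr × (List Qr × List ℕ) → Prop := fun x =>
    (∀ p ∈ x.2.1, GoodC r p) ∧ (∀ v ∈ x.2.2, 3 ≤ v) ∧ x.2.1.length = m ∧ x.2.2.length = m with hP
  have hn : FP fun x : Fr × (List Qr × List ℕ) => nF x.1 := fp_nF.comp FP.fst
  have hft : FT (m * (3 * r + 1)) (fun x : Fr × (List Qr × List ℕ) => nF x.1) P
      (fun x => DC m (bdC x).length x.1.1 x.1.2 x.2.1 x.2.2) := by
    refine FT.det (h := fun i j x => EC (bdC x).length x.1.1 x.1.2 (x.2.1.getD i ([], []))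
      (x.2.2.getD j 0)) fun i j => ?_
    have h1 : FP fun x : Fr × (List Qr × List ℕ) =>
        (((x.1, bdC x), (x.2.1.getD i ([], []), x.2.2.getD j 0)) : (Fr × Un) × (Qr × ℕ)) :=
      FP.pair (FP.pair (by fun_prop) fp_bdC)
        (FP.pair (fp_getD (by fun_prop) i _) (fp_getD (by fun_prop) j _))
    refine FT.imp ((ft_EC r).comp h1) ?_
    rintro x ⟨h2, h3, h4, h5⟩
    refine ⟨?_, ?_⟩
    · apply h2
      simp only
      rw [List.getD_eq_getElem _ _ (by rw [h4]; exact i.2)]
      exact List.getElem_mem _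
    · apply h3
      simp only
      rw [List.getD_eq_getElem _ _ (by rw [h5]; exact j.2)]
      exact List.getElem_mem _
  obtain ⟨g, hg, hg'⟩ := FT.test hn fp_bdC hft
  refine ⟨g, hg, fun x h1 h2 h3 h4 h5 => ?_⟩
  rw [hg' x ⟨h1, h3, h4, h5⟩ (by rw [nF_length]; omega)]
  refine DC_test m _ _ _ _ _ h2 ?_
  rw [bdC_length]
  exact totalDegree_JC m _ _ h1

end Pool.Agent.PQR
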