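import Pool.Agent.PQR.CompD
import Pool.Agent.PQR.CompI

set_option autoImplicit false

/-!
PQR-RowC. The entries of the reduced Jacobian matrix.

Plan: `FT.listSum` of `ft_cw`, `ft_dcw`; `ft_EC` = listSum of `(ft_dcw).mul (ft_invC)` (`(r + 1) + r`), times `ft_SC` (`r`), plus
`ft_dSC` (`r + 1`). See `PQ/Row.lean` for the same with words.
-/

namespace Pool.Agent.PQR

open MvPolynomial N487b59b3 N68a2faeb Pool.Agent.Helper22 Pool.Agent.Helper6.WB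
  Pool.Agent.Helper6.SP Pool.Agent.PQ

theorem ft_SC (r : ℕ) : FT r (fun p : Fr × List Cm => nF p.1) (fun p => ∀ c ∈ p.2, Ok2 r c)
    (fun p => sub p.1.1 p.1.2 (SC p.2)) := by
  have h0 : FP fun p : (Fr × List Cm) × Cm => ((p.1.1, p.2) : Fr × Cm) :=
    FP.pair (FP.fst.comp FP.fst) FP.snd
  have h1 := (ft_cw r).comp h0
  have h2 := FT.listSum (n := fun p : Fr × List Cm => nF p.1)
    (P := fun p : Fr × List Cm => ∀ c ∈ p.2, Ok2 r c) (l := fun p : Fr × List Cm => p.2)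
    (P' := fun p : (Fr × List Cm) × Cm => Ok2 r p.2)
    (h := fun p : (Fr × List Cm) × Cm => sub p.1.1.1 p.1.1.2 (cw p.2))
    FP.snd h1 (fun a ha b hb => ha b hb)
  refine h2.congr fun p _ => ?_
  unfold SC
  rw [map_list_sum, List.map_map]
  rfl

theorem ft_dSC (r : ℕ) : FT (r + 1) (fun p : Fr × (List Cm × ℕ) => nF p.1)
    (fun p => (∀ c ∈ p.2.1, Ok2 r c) ∧ 3 ≤ p.2.2)
    (fun p => sub p.1.1 p.1.2 (pderiv (p.2.2 - 3) (SC p.2.1))) := by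
  have h0 : FP fun p : (Fr × (List Cm × ℕ)) × Cm => ((p.1.1, (p.2, p.1.2.2)) : Fr × (Cm × ℕ)) :=
    FP.pair (FP.fst.comp FP.fst) (FP.pair FP.snd (FP.snd.comp (FP.snd.comp FP.fst)))
  have h1 := (ft_dcw r).comp h0
  have h2 := FT.listSum (n := fun p : Fr × (List Cm × ℕ) => nF p.1)
    (P := fun p : Fr × (List Cm × ℕ) => (∀ c ∈ p.2.1, Ok2 r c) ∧ 3 ≤ p.2.2)
    (l := fun p : Fr × (List Cm × ℕ) => p.2.1)
    (P' := fun p : (Fr × (List Cm × ℕ)) × Cm => Ok2 r p.2 ∧ 3 ≤ p.1.2.2)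
    (h := fun p : (Fr × (List Cm × ℕ)) × Cm =>
      sub p.1.1.1 p.1.1.2 (pderiv (p.1.2.2 - 3) (cw p.2)))
    (FP.fst.comp FP.snd) h1 (fun a ha b hb => ⟨ha.1 b hb, ha.2⟩)
  refine h2.congr fun p _ => ?_
  unfold SC
  rw [map_list_sum, map_list_sum, List.map_map, List.map_map]
  rfl

theorem ft_EC (r : ℕ) : FT (3 * r + 1) (fun p : (Fr × Un) × (Qr × ℕ) => nF p.1.1)
    (fun p => GoodC r p.2.1 ∧ 3 ≤ p.2.2)
    (fun p => EC p.1.2.length p.1.1.1 p.1.1.2 p.2.1 p.2.2) := by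
  have g1 : FP fun p : ((Fr × Un) × (Qr × ℕ)) × Cm =>
      ((p.1.1.1, (p.2, p.1.2.2)) : Fr × (Cm × ℕ)) :=
    FP.pair (FP.fst.comp (FP.fst.comp FP.fst))
      (FP.pair FP.snd (FP.snd.comp (FP.snd.comp FP.fst)))
  have g2 : FP fun p : ((Fr × Un) × (Qr × ℕ)) × Cm =>
      ((p.1.1.1, (p.2, p.1.1.2)) : Fr × (Cm × Un)) :=
    FP.pair (FP.fst.comp (FP.fst.comp FP.fst))
      (FP.pair FP.snd (FP.snd.comp (FP.fst.comp FP.fst)))
  have g3 : FP fun p : (Fr × Un) × (Qr × ℕ) => ((p.1.1, p.2.1.2) : Fr × List Cm) :=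
    FP.pair (FP.fst.comp FP.fst) (FP.snd.comp (FP.fst.comp FP.snd))
  have g4 : FP fun p : (Fr × Un) × (Qr × ℕ) =>
      ((p.1.1, (p.2.1.2, p.2.2)) : Fr × (List Cm × ℕ)) :=
    FP.pair (FP.fst.comp FP.fst)
      (FP.pair (FP.snd.comp (FP.fst.comp FP.snd)) (FP.snd.comp FP.snd))
  have k1 := ((ft_dcw r).comp g1).imp
    (Q := fun p : ((Fr × Un) × (Qr × ℕ)) × Cm => Ok2 r p.2 ∧ 3 ≤ p.1.2.2) (fun a ha => ha)
  have k2 := ((ft_invC r).comp g2).imp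
    (Q := fun p : ((Fr × Un) × (Qr × ℕ)) × Cm => Ok2 r p.2 ∧ 3 ≤ p.1.2.2) (fun a ha => ha.1)
  have k3 := k1.mul k2
  have k4 := FT.listSum (n := fun p : (Fr × Un) × (Qr × ℕ) => nF p.1.1)
    (P := fun p : (Fr × Un) × (Qr × ℕ) => GoodC r p.2.1 ∧ 3 ≤ p.2.2)
    (l := fun p : (Fr × Un) × (Qr × ℕ) => p.2.1.1)
    (P' := fun p : ((Fr × Un) × (Qr × ℕ)) × Cm => Ok2 r p.2 ∧ 3 ≤ p.1.2.2)
    (h := fun p : ((Fr × Un) × (Qr × ℕ)) × Cm =>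
      sub p.1.1.1.1 p.1.1.1.2 (pderiv (p.1.2.2 - 3) (cw p.2)) *
        invC p.1.1.2.length p.1.1.1.1 p.1.1.1.2 p.2)
    (FP.fst.comp (FP.fst.comp FP.snd)) k3 (fun a ha b hb => ⟨ha.1.1 b hb, ha.2⟩)
  have k5 := ((ft_SC r).comp g3).imp
    (Q := fun p : (Fr × Un) × (Qr × ℕ) => GoodC r p.2.1 ∧ 3 ≤ p.2.2) (fun a ha => ha.1.2)
  have k6 := ((ft_dSC r).comp g4).imp
    (Q := fun p : (Fr × Un) × (Qr × ℕ) => GoodC r p.2.1 ∧ 3 ≤ p.2.2)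
    (fun a ha => ⟨ha.1.2, ha.2⟩)
  have k7 := (k4.mul k5).mono (R' := 3 * r + 1) (by omega)
  have k8 := k6.mono (R' := 3 * r + 1) (by omega)
  exact (k7.add k8).congr fun p _ => rfl

end Pool.Agent.PQR
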