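import Pool.Agent.PQR.FinalC
import Pool.Agent.PQ.ProdL

set_option autoImplicit false

/-!
PQR-UnionC. The final theorem: two classes of factors.
-/

namespace Pool.Agent.PQR

open MvPolynomial N487b59b3 N68a2faeb Pool.Agent.Helper22 Pool.Agent.Helper6.WB
  Pool.Agent.Helper6.SP Pool.Agent.PQ

/-- the polynomial `P(q_0, q_1, ...)` of a formula `P` and a list of formulas `q` -/
noncomputable def compPoly (c : Fm × List Fm) : MvPolynomial ℕ ℚ :=
  aeval (fun j => (c.2.map Fm.poly).getD j 0) c.1.poly

/-- the code of a composite -/
def compCode (c : Fm × List Fm) : List (ℕ × ℚ) × List (List (ℕ × ℚ)) :=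
  (c.1.code, c.2.map Fm.code)

/-- a list of formulas and two lists of composites -/
abbrev Tri := List Fm × (List (Fm × List Fm) × List (Fm × List Fm))

/-- the product of the formulas, times the product of the first composites, times the sum of the
second ones -/
noncomputable def triPoly (p : Tri) : MvPolynomial ℕ ℚ :=
  (p.1.map Fm.poly).prod * ((p.2.1.map compPoly).prod * (p.2.2.map compPoly).sum)

/-- the code of a triple -/
def triCode (p : Tri) : List (List (ℕ × ℚ)) × (List (List (ℕ × ℚ) × List (List (ℕ × ℚ))) ×
    List (List (ℕ × ℚ) × List (List (ℕ × ℚ)))) :=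
  (p.1.map Fm.code, (p.2.1.map compCode, p.2.2.map compCode))

/-- only composites, of at most `r` polynomials of degree at most two -/
def IsQuad (r : ℕ) (p : Tri) : Prop :=
  p.1 = [] ∧ ∀ c ∈ p.2.1 ++ p.2.2, c.2.length ≤ r ∧ ∀ q ∈ c.2, q.poly.totalDegree ≤ 2

/-- a product of read-`r` formulas -/
def IsRead (r : ℕ) (p : Tri) : Prop :=
  (∀ g ∈ p.1, ∀ i, g.reads i ≤ r) ∧ p.2 = ([], [(Fm.const 1, [])])

private theorem cw_code (c : Fm × List Fm) : cw (compCode c) = compPoly c := by
  unfold cw compPoly compCode
  simp only
  rw [pw_code]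
  congr 2
  funext j
  unfold cq
  simp only
  rw [List.getD_eq_getElem?_getD, List.getD_eq_getElem?_getD, List.getElem?_map,
    List.getElem?_map]
  cases c.2[j]? with
  | none => exact pw_w0
  | some g => exact pw_code g

private theorem FC_code (p : Tri) (h : p.1 = []) : FC (triCode p).2 = triPoly p := by
  unfold FC SC triCode triPoly
  simp only [List.map_map, h, List.map_nil, List.prod_nil, one_mul]
  congr 1
  · congr 1
    exact List.map_congr_left fun c _ => cw_code c
  · congr 1
    exact List.map_congr_left fun c _ => cw_code c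

/-- a trivial second component -/
private def tv0 (p : Qr) : Bool :=
  p.1.isEmpty && (!(p.2.isEmpty) && (p.2.tail.isEmpty &&
    (decide ((p.2.headD ([], [])).1 = (Fm.const 1).code) && (p.2.headD ([], [])).2.isEmpty)))

private theorem tv0_iff (p : Qr) : tv0 p = true ↔ p = ([], [((Fm.const 1).code, [])]) := by
  unfold tv0
  rcases p with ⟨a, l⟩
  rcases a with _ | ⟨c, a⟩
  · rcases l with _ | ⟨x, l⟩
    · simp
    · rcases l with _ | ⟨y, l⟩
      · rcases x with ⟨w, m⟩
        simp
      · simp
  · simp

private theorem fp_tv0 : FP tv0 := by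
  unfold tv0
  have h1 : FP fun p : Qr => p.2.headD ([], []) := FP.headD FP.snd ([], [])
  refine FP.and (FP.isEmpty FP.fst) (FP.and (FP.not (FP.isEmpty FP.snd))
    (FP.and (FP.isEmpty (FP.tail FP.snd)) (FP.and ?_ (FP.isEmpty (FP.snd.comp h1)))))
  exact fp_wordEq (FP.fst.comp h1) (FP.const _)

/-- the type of the inputs -/
private abbrev In := List Wd × Qr

/-- all second components are trivial -/
private def allT (L : List In) : Bool := !(L.any fun p => !(tv0 p.2))

private theorem allT_iff (L : List In) : allT L = true ↔
    ∀ p ∈ L, p.2 = ([], [((Fm.const 1).code, [])]) := by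
  unfold allT
  rw [Bool.not_eq_true', List.any_eq_false]
  constructor
  · intro h p hp
    have := h p hp
    rw [← tv0_iff]
    simpa using this
  · intro h p hp
    rw [(tv0_iff p.2).mpr (h p hp)]
    simp

private theorem fp_allT : FP allT := by
  unfold allT
  exact FP.not (fp_any (h := fun q : List In × In => !(tv0 q.2.2)) FP.id
    (FP.not (fp_tv0.comp (FP.snd.comp FP.snd))))

/-- all first components are empty -/
private def allE (L : List In) : Bool := !(L.any fun p => !(p.1.isEmpty))

private theorem allE_iff (L : List In) : allE L = true ↔ ∀ p ∈ L, p.1 = [] := by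
  unfold allE
  rw [Bool.not_eq_true', List.any_eq_false]
  constructor
  · intro h p hp
    have := h p hp
    simpa using this
  · intro h p hp
    rw [h p hp]
    simp

private theorem fp_allE : FP allE := by
  unfold allE
  exact FP.not (fp_any (h := fun q : List In × In => !(q.2.1.isEmpty)) FP.id
    (FP.not (FP.isEmpty (FP.fst.comp FP.snd))))

private theorem tr_map {A B : Type} (L : List A) (g : A → B) (F : B → MvPolynomial ℕ ℚ)
    (G : A → MvPolynomial ℕ ℚ) (hFG : ∀ a ∈ L, F (g a) = G a) (k : ℕ)
    (h : ∀ b : Finset (Fin L.length), AlgebraicIndepOn ℚ (fun j => G (L.get j))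
      (b : Set (Fin L.length)) → b.card ≤ k) :
    ∀ b : Finset (Fin (L.map g).length), AlgebraicIndepOn ℚ (fun j => F ((L.map g).get j))
      (b : Set (Fin (L.map g).length)) → b.card ≤ k := by
  intro b hb
  have hlen : (L.map g).length = L.length := List.length_map _
  have key : ∀ i : Fin (L.map g).length, F ((L.map g).get i) = G (L.get (finCongr hlen i)) := by
    intro i
    rw [List.get_eq_getElem, List.getElem_map]
    exact hFG _ (List.getElem_mem _)
  have h1 := h (b.map (finCongr hlen).toEmbedding) ?_
  · rwa [Finset.card_map] at h1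
  · have hφ : ∀ x : ((b.map (finCongr hlen).toEmbedding : Finset (Fin L.length)) :
        Set (Fin L.length)), (finCongr hlen).symm x.1 ∈ (b : Set (Fin (L.map g).length)) := by
      rintro ⟨x, hx⟩
      rw [Finset.mem_coe, Finset.mem_map] at hx
      obtain ⟨y, hy, rfl⟩ := hx
      simpa using hy
    have h2 := AlgebraicIndependent.comp hb (fun x => ⟨(finCongr hlen).symm x.1, hφ x⟩) (by
      intro x y hxy
      apply Subtype.ext
      have := congrArg Subtype.val hxy
      exact (finCongr hlen).symm.injective this)
    have h3 : (fun x : ((b.map (finCongr hlen).toEmbedding : Finset (Fin L.length)) :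
        Set (Fin L.length)) => G (L.get x.1)) =
        (fun i : (b : Set (Fin (L.map g).length)) => F ((L.map g).get i.1)) ∘
          fun x => ⟨(finCongr hlen).symm x.1, hφ x⟩ := by
      funext x
      simp only [Function.comp]
      rw [key]
      simp
    show AlgebraicIndependent ℚ (fun x : ((b.map (finCongr hlen).toEmbedding :
      Finset (Fin L.length)) : Set (Fin L.length)) => G (L.get x.1))
    rw [h3]
    exact h2

/-- a pair of lists whose code is trivial has the value one -/
private theorem one_of_triv (p : Tri) (h : (triCode p).2 = ([], [((Fm.const 1).code, [])])) :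
    triPoly p = (p.1.map Fm.poly).prod := by
  have h1 : p.2.1 = [] := by
    have := congrArg Prod.fst h
    simpa [triCode] using this
  have h2 : p.2.2.map compCode = [((Fm.const 1).code, [])] := congrArg Prod.snd h
  unfold triPoly
  rw [h1]
  have h3 : (p.2.2.map compPoly).sum = 1 := by
    rcases hl : p.2.2 with _ | ⟨c, l⟩
    · rw [hl] at h2; simp at h2
    · rcases l with _ | ⟨c', l⟩
      · rw [hl] at h2
        simp only [List.map_cons, List.map_nil, List.cons.injEq, and_true, compCode,
          Prod.mk.injEq, List.map_eq_nil_iff] at h2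
        have h4 : c.1.poly = 1 := by
          rw [poly_eq_of_code h2.1]
          simp [Fm.poly]
        simp [compPoly, h4]
      · rw [hl] at h2; simp at h2
  rw [h3]
  simp

private theorem cmp_read (Q : Fm) (L : List Tri)
    (h : ∀ p ∈ L, (triCode p).2 = ([], [((Fm.const 1).code, [])])) :
    cmp Q (L.map Prod.fst) = aeval (fun j => triPoly (L.getD j ([], ([], [])))) Q.poly := by
  unfold Pool.Agent.Helper6.SP.cmp
  congr 2
  funext j
  by_cases hj : j < L.length
  · rw [pT_lt (by rw [List.length_map]; exact hj), List.getD_eq_getElem _ _ hj,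
      one_of_triv _ (h _ (List.getElem_mem hj))]
    simp
  · rw [pT_ge (by rw [List.length_map]; omega), List.getD_eq_default _ _ (by omega)]
    simp [triPoly]

private theorem cmpC_code (Q : Fm) (L : List Tri) (h : ∀ p ∈ L, p.1 = []) :
    cmpC Q (L.map fun p => (triCode p).2) =
      aeval (fun j => triPoly (L.getD j ([], ([], [])))) Q.poly := by
  unfold cmpC
  congr 2
  funext j
  by_cases hj : j < L.length
  · rw [List.getD_eq_getElem _ _ (by rw [List.length_map]; exact hj),
      List.getD_eq_getElem _ _ hj, List.getElem_map]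
    exact FC_code _ (h _ (List.getElem_mem hj))
  · rw [List.getD_eq_default _ _ (by rw [List.length_map]; omega),
      List.getD_eq_default _ _ (by omega)]
    simp [triPoly, FC, SC]

private theorem codes_map (L : List Tri) : CodesC (L.map fun p => (triCode p).2) := by
  intro l hl w hw
  unfold allC csC at hl
  obtain ⟨c, hc, rfl⟩ := List.mem_map.mp hl
  obtain ⟨q, hq, hcq⟩ := List.mem_flatMap.mp hc
  obtain ⟨p, hp, rfl⟩ := List.mem_map.mp hq
  have h : ∃ d : Fm × List Fm, compCode d = c := by
    rcases List.mem_append.mp hcq with h | h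
    · obtain ⟨d, _, hd⟩ := List.mem_map.mp h
      exact ⟨d, hd⟩
    · obtain ⟨d, _, hd⟩ := List.mem_map.mp h
      exact ⟨d, hd⟩
  obtain ⟨d, rfl⟩ := h
  rcases List.mem_cons.mp hw with rfl | hw
  · exact ⟨d.1, rfl⟩
  · obtain ⟨g, _, hg⟩ := List.mem_map.mp hw
    exact ⟨g, hg⟩

private theorem ok_comp {r : ℕ} {c : Fm × List Fm}
    (h : c.2.length ≤ r ∧ ∀ q ∈ c.2, q.poly.totalDegree ≤ 2) : Ok2 r (compCode c) := by
  refine ⟨⟨c.1, rfl⟩, by simpa [compCode] using h.1, ?_⟩
  intro w hw
  obtain ⟨g, hg, rfl⟩ := List.mem_map.mp hw
  exact ⟨⟨g, rfl⟩, by rw [pw_code]; exact h.2 g hg⟩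

private theorem good_of {r : ℕ} {p : Tri} (h : IsQuad r p) : GoodC r (triCode p).2 := by
  refine ⟨?_, ?_⟩
  · intro c hc
    obtain ⟨d, hd, rfl⟩ := List.mem_map.mp hc
    exact ok_comp (h.2 d (List.mem_append_left _ hd))
  · intro c hc
    obtain ⟨d, hd, rfl⟩ := List.mem_map.mp hc
    exact ok_comp (h.2 d (List.mem_append_right _ hd))

theorem mainC (r k : ℕ) :
    ∃ f : List (ℕ × ℚ) × List (List (List (ℕ × ℚ)) × (List (List (ℕ × ℚ) × List (List (ℕ × ℚ))) ×
      List (List (ℕ × ℚ) × List (List (ℕ × ℚ))))) → Bool,
      IsPolyTime f ∧ ∀ (Q : Fm) (L : List Tri),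
        ((∀ p ∈ L, IsQuad r p) ∨ ∀ p ∈ L, IsRead r p) →
        (∀ b : Finset (Fin L.length), AlgebraicIndepOn ℚ (fun j => triPoly (L.get j))
          (b : Set (Fin L.length)) → b.card ≤ k) →
        (f (Q.code, L.map triCode) = true ↔
          aeval (fun j => triPoly (L.getD j ([], ([], [])))) Q.poly = 0) := by
  classical
  obtain ⟨f2, hf2, hc, hr⟩ := exists_decC r k
  set N := nT (r + 1) k with hN
  set κ := max (kappa (r + 1 + 1)) (kN (r + 1) (nT (r + 1) k)) with hκ
  refine ⟨fun p : Wd × List In => (if allT p.2 then decF k N κ (N + k) (p.1, p.2.map fun q => q.1)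
    else true) && (if allE p.2 then f2 (p.1, p.2.map fun q => q.2) else true), ?_, ?_⟩
  · refine (Pool.Agent.Helper22.isPolyTime_iff _).mpr ?_
    refine FP.and (FP.ite (fp_allT.comp FP.snd) ((fp_decF k N κ (N + k)).comp
      (FP.pair FP.fst ?_)) (FP.const true)) (FP.ite (fp_allE.comp FP.snd) (hf2.comp
      (FP.pair FP.fst ?_)) (FP.const true))
    · exact fp_map (h := fun q : (Wd × List In) × In => q.2.1) FP.snd (FP.fst.comp FP.snd)
    · exact fp_map (h := fun q : (Wd × List In) × In => q.2.2) FP.snd (FP.snd.comp FP.snd)
  · intro Q L hL htr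
    simp only [Bool.and_eq_true]
    have hfst : (L.map triCode).map (fun q => q.1) = cd (L.map Prod.fst) := by
      unfold Pool.Agent.Helper6.SP.cd
      rw [List.map_map, List.map_map]
      rfl
    have hsnd : (L.map triCode).map (fun q => q.2) = L.map fun p => (triCode p).2 := by
      rw [List.map_map]
      rfl
    constructor
    · rintro ⟨h1, h2⟩
      rcases hL with hL | hL
      · have hall : allE (L.map triCode) = true := by
          rw [allE_iff]
          intro p hp
          obtain ⟨q, hq, rfl⟩ := List.mem_map.mp hp
          show q.1.map Fm.code = []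
          rw [(hL q hq).1, List.map_nil]
        rw [if_pos hall, hsnd] at h2
        rw [← cmpC_code Q L fun p hp => (hL p hp).1]
        refine hr Q _ ?_ ?_ h2
        · intro p hp
          obtain ⟨q, hq, rfl⟩ := List.mem_map.mp hp
          exact good_of (hL q hq)
        · exact tr_map L (fun p => (triCode p).2) FC triPoly
            (fun a ha => FC_code a (hL a ha).1) k htr
      · have htriv : ∀ p ∈ L, (triCode p).2 = ([], [((Fm.const 1).code, [])]) := by
          intro p hp
          unfold triCode
          simp only [(hL p hp).2, List.map_nil, List.map_cons, compCode]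
        have hall : allT (L.map triCode) = true := by
          rw [allT_iff]
          intro p hp
          obtain ⟨q, hq, rfl⟩ := List.mem_map.mp hp
          exact htriv q hq
        rw [if_pos hall, hfst] at h1
        rw [← cmp_read Q L htriv]
        refine (decF_correct (r := r + 1) (by omega) (le_max_left _ _) (le_max_right _ _) Q
          (L.map Prod.fst) ?_ ?_).mp h1
        · intro g hg i
          obtain ⟨p, hp, hgp⟩ := List.mem_flatten.mp hg
          obtain ⟨q, hq, rfl⟩ := List.mem_map.mp hp
          exact ((hL q hq).1 g hgp i).trans (Nat.le_succ r)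
        · exact tr_map L Prod.fst (fun l => (l.map Fm.poly).prod) triPoly
            (fun a ha => (one_of_triv a (htriv a ha)).symm) k htr
    · intro h0
      constructor
      · by_cases hall : allT (L.map triCode) = true
        · rw [if_pos hall, hfst, decF_true]
          intro zs _
          rw [outV_cd, cmp_read Q L, h0, map_zero]
          intro p hp
          rw [allT_iff] at hall
          exact hall _ (List.mem_map_of_mem hp)
        · rw [if_neg hall]
      · by_cases hall : allE (L.map triCode) = true
        · rw [if_pos hall, hsnd]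
          apply hc Q _ (codes_map L)
          rw [cmpC_code Q L, h0]
          intro p hp
          rw [allE_iff] at hall
          have := hall _ (List.mem_map_of_mem (f := triCode) hp)
          have h3 : p.1.map Fm.code = [] := this
          exact List.map_eq_nil_iff.mp h3
        · rw [if_neg hall]

end Pool.Agent.PQR
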