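import Pool.Agent.PQR.FinalC

set_option autoImplicit false

/-!
PQR-VarsA. Substitution of constants for some of the variables of the input.
-/

namespace Pool.Agent.PQR

open MvPolynomial N487b59b3 N68a2faeb Pool.Agent.Helper22 Pool.Agent.Helper6.WB
  Pool.Agent.Helper6.SP Pool.Agent.PQ

/-- codes of formulas of degree at most two in the variables outside `Z` -/
def LoZ (Z : Finset ℕ) (w : Wd) : Prop := (∃ g : Fm, g.code = w) ∧
  ∀ m ∈ (pw w).support, ∑ i ∈ m.support \ Z, m i ≤ 2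

def OkZ (r : ℕ) (Z : Finset ℕ) (c : Cm) : Prop :=
  (∃ g : Fm, g.code = c.1) ∧ c.2.length ≤ r ∧ ∀ w ∈ c.2, LoZ Z w

def GoodZ (r : ℕ) (Z : Finset ℕ) (p : Qr) : Prop :=
  (∀ c ∈ p.1, OkZ r Z c) ∧ ∀ c ∈ p.2, OkZ r Z c

def sbW (m : List (ℕ × ℕ)) (w : Wd) : Wd := w.map fun t => subTok (m, t)

def sbC (m : List (ℕ × ℕ)) (c : Cm) : Cm := (c.1, c.2.map (sbW m))

def sbP (m : List (ℕ × ℕ)) (p : Qr) : Qr := (p.1.map (sbC m), p.2.map (sbC m))

def sbL (m : List (ℕ × ℕ)) (L : List Qr) : List Qr := L.map (sbP m)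

theorem fp_sbL : FP fun p : List (ℕ × ℕ) × List Qr => sbL p.1 p.2 := by
  have h1 : FP fun p : List (ℕ × ℕ) × Wd => p.2.map fun t =>
      (fun q : (List (ℕ × ℕ) × Wd) × (ℕ × ℚ) => subTok (q.1.1, q.2)) (p, t) :=
    fp_map FP.snd (fp_subTok.comp (f := fun q : (List (ℕ × ℕ) × Wd) × (ℕ × ℚ) =>
      (q.1.1, q.2)) (by fun_prop))
  have h1' : FP fun p : List (ℕ × ℕ) × Wd => sbW p.1 p.2 := h1
  have h2 : FP fun p : List (ℕ × ℕ) × Cm => p.2.2.map fun w =>
      (fun q : (List (ℕ × ℕ) × Cm) × Wd => sbW q.1.1 q.2) (p, w) :=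
    fp_map (by fun_prop) (h1'.comp (f := fun q : (List (ℕ × ℕ) × Cm) × Wd =>
      (q.1.1, q.2)) (by fun_prop))
  have h2' : FP fun p : List (ℕ × ℕ) × Cm => sbC p.1 p.2 :=
    FP.pair (f := fun p : List (ℕ × ℕ) × Cm => p.2.1) (by fun_prop) h2
  have h3 : FP fun p : List (ℕ × ℕ) × List Cm => p.2.map fun c =>
      (fun q : (List (ℕ × ℕ) × List Cm) × Cm => sbC q.1.1 q.2) (p, c) :=
    fp_map FP.snd (h2'.comp (f := fun q : (List (ℕ × ℕ) × List Cm) × Cm =>
      (q.1.1, q.2)) (by fun_prop))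
  have h3' : FP fun p : List (ℕ × ℕ) × List Cm => p.2.map (sbC p.1) := h3
  have h4 : FP fun p : List (ℕ × ℕ) × Qr => sbP p.1 p.2 :=
    FP.pair (h3'.comp (f := fun p : List (ℕ × ℕ) × Qr => (p.1, p.2.1)) (by fun_prop))
      (h3'.comp (f := fun p : List (ℕ × ℕ) × Qr => (p.1, p.2.2)) (by fun_prop))
  have h5 : FP fun p : List (ℕ × ℕ) × List Qr => p.2.map fun c =>
      (fun q : (List (ℕ × ℕ) × List Qr) × Qr => sbP q.1.1 q.2) (p, c) :=
    fp_map FP.snd (h4.comp (f := fun q : (List (ℕ × ℕ) × List Qr) × Qr =>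
      (q.1.1, q.2)) (by fun_prop))
  exact h5

/-- the substitution -/
noncomputable def ph (m : List (ℕ × ℕ)) : MvPolynomial ℕ ℚ →ₐ[ℚ] MvPolynomial ℕ ℚ :=
  aeval fun i => match sgl m i with
    | some q => C q
    | none => X i

private theorem subst_poly' (m : List (ℕ × ℕ)) (F : Fm) :
    (F.subst (sgl m)).poly = ph m F.poly := by
  induction F with
  | const q =>
    simp only [Fm.subst, Fm.poly, ph]
    rw [← algebraMap_eq, AlgHom.commutes]
  | var i =>
    simp only [Fm.subst, Fm.poly, ph, aeval_X]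
    cases h : sgl m i with
    | none => simp [Fm.poly]
    | some q => simp [Fm.poly]
  | add F G ihF ihG => simp only [Fm.subst, Fm.poly, map_add, ihF, ihG]
  | mul F G ihF ihG => simp only [Fm.subst, Fm.poly, map_mul, ihF, ihG]

private theorem sbW_code (m : List (ℕ × ℕ)) (g : Fm) : sbW m g.code = (g.subst (sgl m)).code :=
  subTok_code m g

private theorem pw_sbW (m : List (ℕ × ℕ)) (w : Wd) (hw : ∃ g : Fm, g.code = w) :
    pw (sbW m w) = ph m (pw w) := by
  obtain ⟨g, rfl⟩ := hw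
  rw [sbW_code, pw_code, pw_code, subst_poly']

private theorem code_sbW (m : List (ℕ × ℕ)) (w : Wd) (hw : ∃ g : Fm, g.code = w) :
    ∃ g : Fm, g.code = sbW m w := by
  obtain ⟨g, rfl⟩ := hw
  exact ⟨_, (sbW_code m g).symm⟩

private theorem cq_sbC (m : List (ℕ × ℕ)) (c : Cm) (h : ∀ w ∈ c.2, ∃ g : Fm, g.code = w)
    (j : ℕ) : cq (sbC m c) j = ph m (cq c j) := by
  unfold cq sbC
  by_cases hj : j < c.2.length
  · rw [List.getD_eq_getElem _ _ hj, List.getD_eq_getElem _ _ (by simpa using hj),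
      List.getElem_map]
    exact pw_sbW m _ (h _ (List.getElem_mem hj))
  · have hj' : (c.2.map (sbW m)).length ≤ j := by rw [List.length_map]; omega
    rw [List.getD_eq_default _ _ hj', List.getD_eq_default _ _ (by omega), pw_w0, map_zero]

private theorem cw_sbC (m : List (ℕ × ℕ)) (c : Cm) (h : ∀ w ∈ c.2, ∃ g : Fm, g.code = w) :
    cw (sbC m c) = ph m (cw c) := by
  unfold cw
  have h1 : (sbC m c).1 = c.1 := rfl
  rw [h1]
  have h2 : aeval (cq (sbC m c)) = (ph m).comp (aeval (cq c)) := by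
    apply MvPolynomial.algHom_ext
    intro j
    rw [AlgHom.comp_apply, aeval_X, aeval_X]
    exact cq_sbC m c h j
  rw [h2, AlgHom.comp_apply]

theorem FC_sbP (m : List (ℕ × ℕ)) (p : Qr)
    (h : ∀ c ∈ p.1 ++ p.2, ∀ w ∈ c.2, ∃ g : Fm, g.code = w) : FC (sbP m p) = ph m (FC p) := by
  unfold FC SC sbP
  rw [map_mul, map_list_prod, map_list_sum]
  simp only [List.map_map]
  congr 2
  · exact List.map_congr_left fun c hc => cw_sbC m c (h c (List.mem_append_left _ hc))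
  · exact List.map_congr_left fun c hc => cw_sbC m c (h c (List.mem_append_right _ hc))

private theorem mem_csC' {L : List Qr} {p : Qr} (hp : p ∈ L) {c : Cm} (hc : c ∈ p.1 ++ p.2) :
    c ∈ csC L := List.mem_flatMap.mpr ⟨p, hp, hc⟩

private theorem mem_allC' {L : List Qr} {p : Qr} (hp : p ∈ L) {c : Cm} (hc : c ∈ p.1 ++ p.2) :
    c.1 :: c.2 ∈ allC L := List.mem_map.mpr ⟨c, mem_csC' hp hc, rfl⟩

theorem codes_sbL (m : List (ℕ × ℕ)) (L : List Qr) (h : CodesC L) : CodesC (sbL m L) := by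
  intro l hl w hw
  unfold allC csC at hl
  obtain ⟨c, hc, rfl⟩ := List.mem_map.mp hl
  obtain ⟨p, hp, hcp⟩ := List.mem_flatMap.mp hc
  obtain ⟨p', hp', rfl⟩ := List.mem_map.mp hp
  have h1 : ∃ c' ∈ p'.1 ++ p'.2, sbC m c' = c := by
    rcases List.mem_append.mp hcp with h' | h'
    · obtain ⟨c', hc', rfl⟩ := List.mem_map.mp h'
      exact ⟨c', List.mem_append_left _ hc', rfl⟩
    · obtain ⟨c', hc', rfl⟩ := List.mem_map.mp h'
      exact ⟨c', List.mem_append_right _ hc', rfl⟩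
  obtain ⟨c', hc', rfl⟩ := h1
  have h2 := h _ (mem_allC' hp' hc')
  rcases List.mem_cons.mp hw with rfl | hw'
  · exact h2 _ List.mem_cons_self
  · obtain ⟨w', hw'', rfl⟩ := List.mem_map.mp hw'
    exact code_sbW m w' (h2 _ (List.mem_cons_of_mem _ hw''))

theorem cmpC_sbL (m : List (ℕ × ℕ)) (Q : Fm) (L : List Qr) (h : CodesC L) :
    cmpC Q (sbL m L) = ph m (cmpC Q L) := by
  unfold cmpC
  have h2 : aeval (fun j => FC ((sbL m L).getD j ([], []))) =
      (ph m).comp (aeval fun j => FC (L.getD j ([], []))) := by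
    apply MvPolynomial.algHom_ext
    intro j
    rw [AlgHom.comp_apply, aeval_X, aeval_X]
    unfold sbL
    by_cases hj : j < L.length
    · rw [List.getD_eq_getElem _ _ hj, List.getD_eq_getElem _ _ (by simpa using hj),
        List.getElem_map]
      exact FC_sbP m _ fun c hc w hw => h _ (mem_allC' (List.getElem_mem hj) hc) w
        (List.mem_cons_of_mem _ hw)
    · have hj' : (L.map (sbP m)).length ≤ j := by rw [List.length_map]; omega
      rw [List.getD_eq_default _ _ hj', List.getD_eq_default _ _ (by omega)]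
      have : FC ([], []) = 0 := by simp [FC, SC]
      rw [this, map_zero]
  rw [h2, AlgHom.comp_apply]

private theorem totalDegree_prod_X_pow_le (s : Finset ℕ) (f : ℕ → MvPolynomial ℕ ℚ) (n : ℕ → ℕ)
    (Z : Finset ℕ) (h1 : ∀ i ∈ s, i ∈ Z → (f i).totalDegree = 0)
    (h2 : ∀ i ∈ s, (f i).totalDegree ≤ 1) :
    (∏ i ∈ s, f i ^ n i).totalDegree ≤ ∑ i ∈ s \ Z, n i := by
  refine (totalDegree_finsetProd _ _).trans ?_
  rw [← Finset.sum_inter_add_sum_sdiff s Z]
  have h3 : ∑ i ∈ s ∩ Z, (f i ^ n i).totalDegree = 0 := by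
    refine Finset.sum_eq_zero fun i hi => ?_
    rw [Finset.mem_inter] at hi
    have := totalDegree_pow (f i) (n i)
    rw [h1 i hi.1 hi.2] at this
    omega
  rw [h3, zero_add]
  refine Finset.sum_le_sum fun i hi => ?_
  rw [Finset.mem_sdiff] at hi
  calc (f i ^ n i).totalDegree ≤ n i * (f i).totalDegree := totalDegree_pow _ _
    _ ≤ n i * 1 := Nat.mul_le_mul_left _ (h2 i hi.1)
    _ = n i := mul_one _

private theorem deg_ph (m : List (ℕ × ℕ)) (Z : Finset ℕ) (p : MvPolynomial ℕ ℚ)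
    (h : ∀ d ∈ p.support, ∑ i ∈ d.support \ Z, d i ≤ 2)
    (hv : ∀ i ∈ Z, i ∈ p.vars → (sgl m i).isSome) : (ph m p).totalDegree ≤ 2 := by
  classical
  unfold ph
  rw [aeval_def, eval₂_eq]
  refine totalDegree_finsetSum_le fun d hd => ?_
  refine (totalDegree_mul _ _).trans ?_
  have h0 : (algebraMap ℚ (MvPolynomial ℕ ℚ) (coeff d p)).totalDegree = 0 := by
    rw [algebraMap_eq, totalDegree_C]
  rw [h0, zero_add]
  refine (totalDegree_prod_X_pow_le d.support _ d Z ?_ ?_).trans (h d hd)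
  · intro i hi hiZ
    have hiv : i ∈ p.vars := by
      rw [mem_vars_iff_mem_support]
      exact ⟨d, hd, hi⟩
    have := hv i hiZ hiv
    obtain ⟨q, hq⟩ := Option.isSome_iff_exists.mp this
    simp only [hq, totalDegree_C]
  · intro i _
    cases hq : sgl m i with
    | none => simp only [totalDegree_X, le_refl]
    | some q => simp only [totalDegree_C, zero_le]

theorem good_sbL (r : ℕ) (Z : Finset ℕ) (L : List Qr) (hg : ∀ p ∈ L, GoodZ r Z p)
    (m : List (ℕ × ℕ)) (hm : ∀ i ∈ Z, i + 3 ∈ names (nmC L) → (sgl m i).isSome) :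
    ∀ p ∈ sbL m L, GoodC r p := by
  have key : ∀ p ∈ L, ∀ c ∈ p.1 ++ p.2, OkZ r Z c → Ok2 r (sbC m c) := by
    intro p hp c hc hok
    refine ⟨hok.1, by simpa [sbC] using hok.2.1, ?_⟩
    intro w hw
    obtain ⟨w', hw', rfl⟩ := List.mem_map.mp hw
    have hw2 := hok.2.2 w' hw'
    refine ⟨code_sbW m w' hw2.1, ?_⟩
    rw [pw_sbW m w' hw2.1]
    refine deg_ph m Z _ hw2.2 fun i hi hiv => hm i hi ?_
    rw [mem_names]
    refine ⟨by omega, ?_⟩
    have h1 := vars_pw w' hw2.1 i hiv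
    obtain ⟨t, ht, hti⟩ := List.mem_map.mp h1
    refine List.mem_map.mpr ⟨t, ?_, hti⟩
    unfold toks nmC
    rw [List.mem_flatten]
    refine ⟨w', ?_, ht⟩
    rw [List.mem_flatten]
    exact ⟨c.2, List.mem_map.mpr ⟨c, mem_csC' hp hc, rfl⟩, hw'⟩
  intro p hp
  obtain ⟨p', hp', rfl⟩ := List.mem_map.mp hp
  constructor
  · intro c hc
    obtain ⟨c', hc', rfl⟩ := List.mem_map.mp hc
    exact key p' hp' c' (List.mem_append_left _ hc') ((hg p' hp').1 c' hc')
  · intro c hc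
    obtain ⟨c', hc', rfl⟩ := List.mem_map.mp hc
    exact key p' hp' c' (List.mem_append_right _ hc') ((hg p' hp').2 c' hc')

end Pool.Agent.PQR
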