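import Pool.Agent.PQR.VarsA

set_option autoImplicit false

/-!
PQR-VarsB. Formulas in `r` polynomials which have degree at most two outside a set of `r` variables.

Plan. `f0` = the algorithm of `exists_decC r k`, `G` = `exists_gridC k`. `f (w, L)` = all `m` in
`lpow (prsG (0 :: names (nmC L), G (w, L))) r` satisfy `f0 (w, sbL m L) = true` (`fp_lpow`, `fp_prsG`, `fp_any`, `FP.not`).
If `cmpC Q L = 0` then all `cmpC Q (sbL m L) = ph m 0 = 0` (`cmpC_sbL`, `codes_sbL`). Conversely let `F = cmpC Q L ≠ 0`, of total
degree at most `B = |Q| T²` (`totalDegree_cmpZ`; `T` = number of all tokens). There is a point `β : ℕ → ℕ` with values at most `B`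
where `F` does not vanish (see the end of the proof of `hitN` in `PQ/Faith.lean`). Put `Z' = Z.filter (fun i => i + 3 ∈ names (nmC L))`,
`m = (Z'.toList.map fun i => (i + 3, β i)) ++ List.replicate (r - Z'.card) (0, 0)`: `sgl m = sg Z' β` (`sgl_eq` in `Helper6/SP/Hit.lean`, and
`inst_mem` there for the membership; `0 ∈ G` for the padding). `ph m F ≠ 0` since its value at `β` is the value of `F`;
`good_sbL`; the polynomials `FC (sbP m p) = ph m (FC p)`: families which are algebraically independent after `ph m` are algebraically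
independent before (`AlgebraicIndependent.of_comp` or its present name), the length of `sbL m L` is that of `L` (see `tr_map` in
`PQR/UnionC.lean` for the transport of the index type `Fin`). So `f0 (Q.code, sbL m L)` is false.
-/

namespace Pool.Agent.PQR

open MvPolynomial N487b59b3 N68a2faeb Pool.Agent.Helper22 Pool.Agent.Helper6.WB
  Pool.Agent.Helper6.SP Pool.Agent.PQ

private theorem z_aev (Q : Fm) (f : ℕ → MvPolynomial ℕ ℚ) (D : ℕ)
    (h : ∀ j, (f j).totalDegree ≤ D) : (aeval f Q.poly).totalDegree ≤ Q.size * D := by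
  induction Q with
  | const q =>
    simp only [Fm.poly]
    rw [← algebraMap_eq, AlgHom.commutes, algebraMap_eq, totalDegree_C]
    exact Nat.zero_le _
  | var i =>
    simp only [Fm.poly, aeval_X, Fm.size, one_mul]
    exact h i
  | add F G ihF ihG =>
    simp only [Fm.poly, map_add, Fm.size, Nat.add_mul]
    exact (totalDegree_add _ _).trans (max_le (ihF.trans (Nat.le_add_right _ _))
      (ihG.trans (Nat.le_add_left _ _)))
  | mul F G ihF ihG =>
    simp only [Fm.poly, map_mul, Fm.size, Nat.add_mul]
    exact (totalDegree_mul _ _).trans (Nat.add_le_add ihF ihG)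

private theorem z_cw (c : Cm) (D : ℕ) (h1 : ∃ g : Fm, g.code = c.1)
    (h2 : ∀ w ∈ c.2, ∃ g : Fm, g.code = w) (hD : ∀ w ∈ c.2, w.length ≤ D) :
    (cw c).totalDegree ≤ c.1.length * D := by
  obtain ⟨g, hg⟩ := h1
  unfold cw
  rw [← hg, pw_code]
  refine (z_aev g (cq c) D fun j => ?_).trans (Nat.mul_le_mul_right _ (size_le_code g))
  unfold cq
  rcases lt_or_ge j c.2.length with h | h
  · rw [List.getD_eq_getElem _ _ h]
    exact (degree_pw _ (h2 _ (List.getElem_mem h))).trans (hD _ (List.getElem_mem h))
  · rw [List.getD_eq_default _ _ h]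
    unfold w0
    rw [pw_code]
    simp only [Fm.poly, totalDegree_C]
    exact Nat.zero_le _

private theorem z_prod (l : List Cm) (D : ℕ)
    (hd : ∀ c ∈ l, (cw c).totalDegree ≤ c.1.length * D) :
    ((l.map cw).prod).totalDegree ≤ (l.map fun c => c.1.length).sum * D := by
  induction l with
  | nil => simp
  | cons a l ih =>
    rw [List.map_cons, List.prod_cons, List.map_cons, List.sum_cons, Nat.add_mul]
    have h1 := totalDegree_mul (cw a) (l.map cw).prod
    have h2 := hd a (by simp)
    have h3 := ih (fun w hw => hd w (by simp [hw]))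
    omega

private theorem z_sum (l : List Cm) (D : ℕ)
    (hd : ∀ c ∈ l, (cw c).totalDegree ≤ c.1.length * D) :
    (SC l).totalDegree ≤ (l.map fun c => c.1.length).sum * D := by
  unfold SC
  induction l with
  | nil => simp
  | cons a l ih =>
    rw [List.map_cons, List.sum_cons, List.map_cons, List.sum_cons, Nat.add_mul]
    have h1 := totalDegree_add (cw a) (l.map cw).sum
    have h2 := hd a (by simp)
    have h3 := ih (fun w hw => hd w (by simp [hw]))
    refine h1.trans (max_le ?_ ?_) <;> omega

private theorem z_toks_ge (cs : List Cm) :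
    (cs.map fun c : Cm => c.1.length).sum ≤ (toks (cs.map fun c => c.1 :: c.2)).length := by
  unfold toks
  induction cs with
  | nil => simp
  | cons a cs ih =>
    simp only [List.map_cons, List.flatten_cons, List.flatten_append, List.length_append,
      List.sum_cons, List.cons_append] at ih ⊢
    omega

private theorem z_cntC_le {L : List Qr} {p : Qr} (hp : p ∈ L) :
    cntC p ≤ (toks (allC L)).length := by
  have h0 : cntC p ≤ ((csC L).map fun c : Cm => c.1.length).sum := by
    induction L with
    | nil => simp at hp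
    | cons q L ih =>
      have h1 : ((csC (q :: L)).map fun c : Cm => c.1.length).sum =
          cntC q + ((csC L).map fun c : Cm => c.1.length).sum := by
        unfold csC cntC
        rw [List.flatMap_cons, List.map_append, List.sum_append]
      rw [h1]
      rcases List.mem_cons.mp hp with rfl | hp
      · exact Nat.le_add_right _ _
      · exact (ih hp).trans (Nat.le_add_left _ _)
  exact h0.trans (z_toks_ge (csC L))

private theorem z_mem_allC {L : List Qr} {p : Qr} (hp : p ∈ L) {c : Cm} (hc : c ∈ p.1 ++ p.2) :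
    c.1 :: c.2 ∈ allC L := List.mem_map.mpr ⟨c, List.mem_flatMap.mpr ⟨p, hp, hc⟩, rfl⟩

private theorem z_len {L : List Qr} {p : Qr} (hp : p ∈ L) {c : Cm} (hc : c ∈ p.1 ++ p.2) {w : Wd}
    (hw : w ∈ c.1 :: c.2) : w.length ≤ (toks (allC L)).length := by
  unfold toks
  apply List.Sublist.length_le
  apply List.sublist_flatten_of_mem
  exact List.mem_flatten.2 ⟨_, z_mem_allC hp hc, hw⟩

private theorem z_FC {L : List Qr} (hL : CodesC L) {p : Qr} (hp : p ∈ L) :
    (FC p).totalDegree ≤ (toks (allC L)).length * (toks (allC L)).length := by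
  have hd : ∀ c ∈ p.1 ++ p.2, (cw c).totalDegree ≤ c.1.length * (toks (allC L)).length := by
    intro c hc
    apply z_cw
    · exact hL _ (z_mem_allC hp hc) _ List.mem_cons_self
    · intro w hw
      exact hL _ (z_mem_allC hp hc) _ (List.mem_cons_of_mem _ hw)
    · intro w hw
      exact z_len hp hc (List.mem_cons_of_mem _ hw)
  unfold FC
  refine (totalDegree_mul _ _).trans ?_
  have h1 := z_prod p.1 _ fun c hc => hd c (List.mem_append_left _ hc)
  have h2 := z_sum p.2 _ fun c hc => hd c (List.mem_append_right _ hc)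
  have h3 : cntC p = (p.1.map fun c : Cm => c.1.length).sum +
      (p.2.map fun c : Cm => c.1.length).sum := by
    unfold cntC
    rw [List.map_append, List.sum_append]
  have h4 := Nat.mul_le_mul_right (toks (allC L)).length (z_cntC_le hp)
  rw [h3, Nat.add_mul] at h4
  omega

theorem totalDegree_cmpZ (Q : Fm) (L : List Qr) (h : CodesC L) :
    (cmpC Q L).totalDegree ≤ Q.code.length * ((toks (allC L)).length * (toks (allC L)).length) := by
  refine le_trans ?_ (Nat.mul_le_mul_right _ (size_le_code Q))
  rw [cmpC]
  apply z_aev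
  intro i
  by_cases hi : i < L.length
  · rw [List.getD_eq_getElem _ _ hi]
    exact z_FC h (List.getElem_mem hi)
  · rw [List.getD_eq_default _ _ (not_lt.mp hi)]
    have : FC ([], []) = 0 := by simp [FC, SC]
    rw [this, totalDegree_zero]
    exact Nat.zero_le _

/-- a point with small natural coordinates where the polynomial does not vanish -/
private theorem z_point (F : MvPolynomial ℕ ℚ) (hF : F ≠ 0) (B : ℕ) (hB : F.totalDegree ≤ B) :
    ∃ β : ℕ → ℕ, (∀ i, β i ≤ B) ∧ eval (fun i => (β i : ℚ)) F ≠ 0 := by
  classical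
  obtain ⟨n, f, hf, q, rfl⟩ := exists_fin_rename F
  have hq : q ≠ 0 := by
    intro h
    apply hF
    rw [h, map_zero]
  have hdeg : q.totalDegree ≤ B := by
    refine le_trans ?_ hB
    rw [MvPolynomial.totalDegree]
    apply Finset.sup_le
    intro d hd
    have h1 : Finsupp.mapDomain f d ∈ (rename f q).support := by
      rw [support_rename_of_injective hf]
      exact Finset.mem_image_of_mem _ hd
    have h2 := le_totalDegree h1
    rwa [Finsupp.sum_mapDomain_index (fun _ => rfl) (fun _ _ _ => rfl)] at h2
  obtain ⟨y, hyB, hy⟩ : ∃ y : Fin n → ℕ, (∀ i, y i ≤ B) ∧ eval (fun i => (y i : ℚ)) q ≠ 0 := by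
    by_contra hcon
    push Not at hcon
    apply hq
    refine eq_zero_of_eval_zero_at_prod_finset q
      (fun _ => (Finset.range (B + 1)).image fun n : ℕ => (n : ℚ)) (fun i => ?_) ?_
    · rw [Finset.card_image_of_injective _ Nat.cast_injective, Finset.card_range]
      exact Nat.lt_succ_of_le ((degreeOf_le_totalDegree _ _).trans hdeg)
    · intro x hx
      have h1 : ∀ i, ∃ n : ℕ, n ≤ B ∧ (n : ℚ) = x i := by
        intro i
        obtain ⟨n, hn, hnx⟩ := Finset.mem_image.1 (hx i)
        exact ⟨n, Nat.lt_succ_iff.1 (Finset.mem_range.1 hn), hnx⟩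
      choose y hy hyx using h1
      have h2 : x = fun i => (y i : ℚ) := funext fun i => (hyx i).symm
      rw [h2]
      exact hcon y hy
  refine ⟨fun i => if h : ∃ j, f j = i then y h.choose else 0, fun i => ?_, ?_⟩
  · beta_reduce
    by_cases h : ∃ j, f j = i
    · rw [dif_pos h]
      exact hyB _
    · rw [dif_neg h]
      exact Nat.zero_le _
  · rw [eval_rename]
    have h1 : ((fun i => ((if h : ∃ j, f j = i then y h.choose else 0 : ℕ) : ℚ)) ∘ f)
        = fun i => (y i : ℚ) := by
      funext j
      have h : ∃ j', f j' = f j := ⟨j, rfl⟩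
      simp only [Function.comp]
      rw [dif_pos h, hf h.choose_spec]
    rw [h1]
    exact hy

private theorem z_tr {A B : Type} (L : List A) (g : A → B) (F : B → MvPolynomial ℕ ℚ)
    (G : A → MvPolynomial ℕ ℚ) (φ : MvPolynomial ℕ ℚ →ₐ[ℚ] MvPolynomial ℕ ℚ)
    (hFG : ∀ a ∈ L, F (g a) = φ (G a)) (k : ℕ)
    (h : ∀ b : Finset (Fin L.length), AlgebraicIndepOn ℚ (fun j => G (L.get j))
      (b : Set (Fin L.length)) → b.card ≤ k) :
    ∀ b : Finset (Fin (L.map g).length), AlgebraicIndepOn ℚ (fun j => F ((L.map g).get j))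
      (b : Set (Fin (L.map g).length)) → b.card ≤ k := by
  intro b hb
  have hlen : (L.map g).length = L.length := List.length_map _
  have key : ∀ i : Fin (L.map g).length,
      F ((L.map g).get i) = φ (G (L.get (finCongr hlen i))) := by
    intro i
    rw [List.get_eq_getElem, List.getElem_map]
    exact hFG _ (List.getElem_mem _)
  have h1 := h (b.map (finCongr hlen).toEmbedding) ?_
  · rwa [Finset.card_map] at h1
  · have hφ : ∀ x : ((b.map (finCongr hlen).toEmbedding : Finset (Fin L.length)) :
        Set (Fin L.length)), (finCongr hlen).symm x.1 ∈ (b : Set (Fin (L.map g).length)) := by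
      rintro ⟨x, hx⟩
      rw [Finset.mem_coe, Finset.mem_map] at hx
      obtain ⟨y, hy, rfl⟩ := hx
      simpa using hy
    have h2 := AlgebraicIndependent.comp hb (fun x => ⟨(finCongr hlen).symm x.1, hφ x⟩) (by
      intro x y hxy
      apply Subtype.ext
      have := congrArg Subtype.val hxy
      exact (finCongr hlen).symm.injective this)
    have h3 : (φ ∘ fun x : ((b.map (finCongr hlen).toEmbedding : Finset (Fin L.length)) :
        Set (Fin L.length)) => G (L.get x.1)) =
        (fun i : (b : Set (Fin (L.map g).length)) => F ((L.map g).get i.1)) ∘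
          fun x => ⟨(finCongr hlen).symm x.1, hφ x⟩ := by
      funext x
      simp only [Function.comp]
      rw [key]
      simp
    show AlgebraicIndependent ℚ (fun x : ((b.map (finCongr hlen).toEmbedding :
      Finset (Fin L.length)) : Set (Fin L.length)) => G (L.get x.1))
    apply AlgebraicIndependent.of_comp φ
    rw [h3]
    exact h2

private theorem z_codes {r : ℕ} {Z : Finset ℕ} {L : List Qr} (h : ∀ p ∈ L, GoodZ r Z p) :
    CodesC L := by
  intro l hl w hw
  obtain ⟨c, hc, rfl⟩ := List.mem_map.1 hl
  obtain ⟨p, hp, hc⟩ := List.mem_flatMap.mp hc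
  have h1 : OkZ r Z c := by
    rcases List.mem_append.mp hc with hc | hc
    · exact (h p hp).1 c hc
    · exact (h p hp).2 c hc
  rcases List.mem_cons.1 hw with rfl | hw
  · exact h1.1
  · exact (h1.2.2 w hw).1

private theorem z_eval (m : List (ℕ × ℕ)) (β : ℕ → ℕ)
    (h : ∀ i q, sgl m i = some q → q = (β i : ℚ)) (F : MvPolynomial ℕ ℚ) :
    eval (fun i => (β i : ℚ)) (ph m F) = eval (fun i => (β i : ℚ)) F := by
  have h1 : (eval (fun i => (β i : ℚ))).comp (ph m).toRingHom = eval (fun i => (β i : ℚ)) := by
    apply MvPolynomial.ringHom_ext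
    · intro a
      simp [ph]
    · intro i
      simp only [ph, AlgHom.toRingHom_eq_coe, RingHom.comp_apply, RingHom.coe_coe, aeval_X, eval_X]
      cases h2 : sgl m i with
      | none => simp
      | some q => simp [h i q h2]
  exact congrArg (fun f : MvPolynomial ℕ ℚ →+* ℚ => f F) h1

theorem exists_decZ (r k : ℕ) : ∃ f : Wd × List Qr → Bool, FP f ∧
    (∀ (Q : Fm) (L : List Qr), CodesC L → cmpC Q L = 0 → f (Q.code, L) = true) ∧
    ∀ (Q : Fm) (L : List Qr) (Z : Finset ℕ), Z.card ≤ r → (∀ p ∈ L, GoodZ r Z p) →
      (∀ b : Finset (Fin L.length), AlgebraicIndepOn ℚ (fun j => FC (L.get j))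
        (b : Set (Fin L.length)) → b.card ≤ k) →
      f (Q.code, L) = true → cmpC Q L = 0 := by
  classical
  obtain ⟨f0, hf0, hA, hB⟩ := exists_decC r k
  obtain ⟨G, hG, hGs⟩ := exists_gridC k
  refine ⟨fun p => !((lpow (prsG (0 :: names (nmC p.2), G p)) r).any fun m =>
    !(f0 (p.1, sbL m p.2))), ?_, ?_, ?_⟩
  · have h1 : FP fun q : (Wd × List Qr) × List (ℕ × ℕ) => !(f0 (q.1.1, sbL q.2 q.1.2)) := by
      apply FP.not
      have h2 : FP fun q : (Wd × List Qr) × List (ℕ × ℕ) => sbL q.2 q.1.2 :=
        fp_sbL.comp (f := fun q : (Wd × List Qr) × List (ℕ × ℕ) => (q.2, q.1.2))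
          (FP.pair FP.snd (FP.snd.comp FP.fst))
      exact hf0.comp (FP.pair (FP.fst.comp FP.fst) h2)
    have h2 : FP fun p : Wd × List Qr => lpow (prsG (0 :: names (nmC p.2), G p)) r := by
      apply fp_lpow
      have h3 : FP fun p : Wd × List Qr => 0 :: names (nmC p.2) :=
        FP.cons (FP.const 0) (fp_names.comp (fp_nmC.comp FP.snd))
      exact fp_prsG.comp (FP.pair h3 hG)
    exact FP.not (fp_any h2 h1)
  · intro Q L hL h0
    simp only [Bool.not_eq_true', List.any_eq_false]
    intro m _
    rw [Bool.not_eq_false]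
    apply hA Q (sbL m L) (codes_sbL m L hL)
    rw [cmpC_sbL m Q L hL, h0, map_zero]
  · intro Q L Z hZ hg htr hf
    by_contra hne
    have hL : CodesC L := z_codes hg
    simp only [Bool.not_eq_true', List.any_eq_false, Bool.not_eq_false] at hf
    set T := (toks (allC L)).length with hT
    obtain ⟨β, hβ, hβF⟩ := z_point (cmpC Q L) hne (Q.code.length * (T * T))
      (totalDegree_cmpZ Q L hL)
    set Z' : Finset ℕ := Z.filter (fun i => i + 3 ∈ names (nmC L)) with hZ'
    set m : List (ℕ × ℕ) := (Z'.toList.map fun i => (i + 3, β i)) ++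
      List.replicate (r - Z'.card) (0, 0) with hm
    have hcard : Z'.card ≤ r := (Finset.card_filter_le _ _).trans hZ
    have hsgl : sgl m = sg Z' β := sgl_eq Z' β _
    have hG1 : ∀ v ≤ Q.code.length * (T * T), v ∈ G (Q.code, L) := by
      intro v hv
      apply hGs
      refine hv.trans ?_
      simp only
      rw [← hT]
      have e1 : T * T ≤ 2 * (T + 1) ^ 2 := by nlinarith
      exact Nat.mul_le_mul (by omega) e1
    have hmem : m ∈ lpow (prsG (0 :: names (nmC L), G (Q.code, L))) r := by
      rw [mem_lpow]
      constructor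
      · rw [hm, List.length_append, List.length_map, List.length_replicate,
          Finset.length_toList]
        omega
      · intro p hp
        rw [mem_prsG]
        rw [hm, List.mem_append] at hp
        rcases hp with hp | hp
        · obtain ⟨i, hi, rfl⟩ := List.mem_map.mp hp
          rw [Finset.mem_toList] at hi
          exact ⟨List.mem_cons_of_mem _ (Finset.mem_filter.1 hi).2, hG1 _ (hβ i)⟩
        · have := List.eq_of_mem_replicate hp
          subst this
          exact ⟨List.mem_cons_self, hG1 _ (Nat.zero_le _)⟩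
    have h1 := hf m hmem
    have h2 : cmpC Q (sbL m L) = 0 := by
      apply hB Q (sbL m L) _ _ h1
      · apply good_sbL r Z L hg m
        intro i hi hin
        rw [hsgl]
        unfold sg
        rw [if_pos (Finset.mem_filter.2 ⟨hi, hin⟩)]
        rfl
      · exact z_tr L (sbP m) FC FC (ph m) (fun p hp => FC_sbP m p (fun c hc w hw =>
          hL _ (z_mem_allC hp hc) _ (List.mem_cons_of_mem _ hw))) k htr
    rw [cmpC_sbL m Q L hL] at h2
    apply hβF
    rw [← z_eval m β, h2, map_zero]
    intro i q hq
    rw [hsgl] at hq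
    unfold sg at hq
    split_ifs at hq
    exact (Option.some.inj hq).symm

end Pool.Agent.PQR
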